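import Pool.Agent.T6.H65.KP.Defs

/-!
# Project KP, module ATE: 2-atoms exist
-/

set_option autoImplicit false

open scoped Pointwise
open Finset
open Pool.Agent.Helper549.Kneser

namespace Pool.Agent.T6.H65.KP.ModATE

theorem image_add {G : Type} [AddCommGroup G] [DecidableEq G] (X S : Finset G) (t : G) :
    X.image (fun y => y + t) + S = (X + S).image (fun y => y + t) := by
  ext z
  simp only [Finset.mem_add, Finset.mem_image]
  constructor
  · rintro ⟨a, ⟨y, hy, rfl⟩, s, hs, rfl⟩
    exact ⟨y + s, ⟨y, hy, s, hs, rfl⟩, by abel⟩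
  · rintro ⟨w, ⟨y, hy, s, hs, rfl⟩, rfl⟩
    exact ⟨y + t, ⟨y, hy, rfl⟩, s, hs, by abel⟩

theorem card_im {G : Type} [AddCommGroup G] [DecidableEq G] (X : Finset G) (t : G) : (X.image (fun y => y + t)).card = X.card :=
  Finset.card_image_of_injective _ (add_left_injective t)

variable {G : Type} [AddCommGroup G] [Fintype G] [DecidableEq G]

theorem adm_im {S X : Finset G} (h : Adm S X) (t : G) : Adm S (X.image (fun y => y + t)) := by
  unfold Adm at *
  rw [image_add, card_im, card_im]
  exact h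

theorem frag_im {S X : Finset G} (h : Frag S X) (t : G) : Frag S (X.image (fun y => y + t)) := by
  refine ⟨adm_im h.1 t, fun Y hY => ?_⟩
  rw [image_add, card_im, card_im]
  exact h.2 Y hY

theorem atom_im {S X : Finset G} (h : Atom S X) (t : G) : Atom S (X.image (fun y => y + t)) := by
  refine ⟨frag_im h.1 t, fun Y hY => ?_⟩
  rw [card_im]
  exact h.2 Y hY

theorem exists_frag (S X : Finset G) (h : Adm S X) : ∃ F, Frag S F := by
  classical
  obtain ⟨F, hF, hmin⟩ := Finset.exists_min_image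
    (Finset.univ.filter (fun Y : Finset G => Adm S Y))
    (fun Y => ((Y + S).card : ℤ) - (Y.card : ℤ)) ⟨X, by simp [h]⟩
  rw [Finset.mem_filter] at hF
  refine ⟨F, hF.2, fun Y hY => ?_⟩
  have := hmin Y (by simp [hY])
  omega

theorem exists_atom (S X : Finset G) (h : Adm S X) : ∃ F, Atom S F := by
  classical
  obtain ⟨F, hF⟩ := exists_frag S X h
  obtain ⟨M, hM, hmin⟩ := Finset.exists_min_image
    (Finset.univ.filter (fun Y : Finset G => Frag S Y))
    (fun Y => Y.card) ⟨F, by simp [hF]⟩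
  rw [Finset.mem_filter] at hM
  exact ⟨M, hM.2, fun Y hY => hmin Y (by simp [hY])⟩

end Pool.Agent.T6.H65.KP.ModATE

namespace Pool.Agent.T6.H65.KP.ModATE

theorem ate : StmATE := by
  intro G _ _ _ S X h
  obtain ⟨M, hM⟩ := exists_atom S X h
  have h2 : 2 ≤ M.card := hM.1.1.1
  obtain ⟨x, hx⟩ := Finset.card_pos.1 (show 0 < M.card by omega)
  exact ⟨M.image (fun y => y + -x), Finset.mem_image.2 ⟨x, hx, add_neg_cancel x⟩, atom_im hM (-x)⟩

end Pool.Agent.T6.H65.KP.ModATE
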