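import Mathlib
import Pool.Agent.Helper549.Kneser

/-!
# Project KP (MP_4c924c_co): all `(G, m, h)` with `ρ(G, m, h) = hm - h + 1 < |G|` and all minimisers

`fs H` = the elements of a subgroup as a finset, `stab C` = the stabiliser of `C`
(both, and Kneser's theorem, are in `Pool.Agent.Helper549.Kneser`).
-/

set_option autoImplicit false

open scoped Pointwise
open Finset
open Pool.Agent.Helper549.Kneser

namespace Pool.Agent.T6.H65.KP

/-! ## Definitions of the final statement -/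

section defs
variable {G : Type} [AddCommGroup G]

/-- The `h`-fold sumset `hA` (repetitions allowed). -/
noncomputable def sumset [Fintype G] (h : ℕ) (A : Finset G) : Finset G := by
  classical exact Finset.univ.filter (fun x => ∃ f : Fin h → G, (∀ i, f i ∈ A) ∧ ∑ i, f i = x)

/-- `ρ(G, m, h)`: the least size of `hA` for an `m`-subset `A` of `G`. -/
noncomputable def rho (G : Type) [AddCommGroup G] [Fintype G] (m h : ℕ) : ℕ :=
  sInf {k | ∃ A : Finset G, A.card = m ∧ (sumset h A).card = k}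

/-- `Stair h H L C`: `C` is an `h`-staircase over the subgroup `H` with top subgroup `L`. -/
inductive Stair (h : ℕ) (H : AddSubgroup G) : AddSubgroup G → Set G → Prop
  | base : Stair h H H (H : Set G)
  | grow {K L : AddSubgroup G} {C : Set G} : Stair h H K C → K ≤ L → Stair h H L C
  | prog {K : AddSubgroup G} {C : Set G} (g : G) (l : ℕ) : Stair h H K C →
      (∀ j : ℕ, 1 ≤ j → j ≤ h * l → j • g ∉ K) →
      Stair h H (K ⊔ AddSubgroup.zmultiples g)
        (C ∪ {x | ∃ j : ℕ, 1 ≤ j ∧ j ≤ l ∧ x - j • g ∈ K})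
  | half {K L : AddSubgroup G} {C T : Set G} : h = 2 → Stair h H K C → K ≤ L →
      (∀ x ∈ T, x ∈ L ∧ x ∉ K) → (∀ x ∈ T, ∀ k ∈ K, x + k ∈ T) →
      (∀ x ∈ L, x ∉ K → (x ∈ T ↔ -x ∉ T)) → Stair h H L (C ∪ T)

end defs

/-! ## Working notions -/

/-- recursive form of the `h`-fold sumset -/
def hs {G : Type} [AddCommGroup G] [DecidableEq G] : ℕ → Finset G → Finset G
  | 0, _ => {0}
  | n + 1, A => hs n A + A

/-- `a` is `h`-extreme in `A`: in every expression of `h • a` as a sum of `h` elements of `A`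
all summands equal `a`. -/
def Ext {G : Type} [AddCommGroup G] [DecidableEq G] (h : ℕ) (A : Finset G) (a : G) : Prop :=
  a ∈ A ∧ ∀ b ∈ A, h • a - b ∈ hs (h - 1) A → b = a

/-- the divisibility condition -/
def CondM (n m h : ℕ) : Prop := ∀ d, d ∣ n → h * ((m - 1) % d) ≤ d - 1

/-- `A` is an arithmetic progression -/
def IsAP {G : Type} [AddCommGroup G] [DecidableEq G] (A : Finset G) : Prop :=
  ∃ a g : G, A = (Finset.range A.card).image (fun j => a + j • g)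

section frag
variable {G : Type} [AddCommGroup G] [Fintype G] [DecidableEq G]

/-- admissible sets for `S` -/
def Adm (S X : Finset G) : Prop := 2 ≤ X.card ∧ (X + S).card + 2 ≤ Fintype.card G

/-- 2-fragments of `S`: admissible sets with `|X + S| - |X|` minimal -/
def Frag (S X : Finset G) : Prop :=
  Adm S X ∧ ∀ Y, Adm S Y → (X + S).card + Y.card ≤ (Y + S).card + X.card

/-- 2-atoms of `S`: 2-fragments of minimal size -/
def Atom (S X : Finset G) : Prop := Frag S X ∧ ∀ Y, Frag S Y → X.card ≤ Y.card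

/-- Sidon-like sets: proper translates meet in at most one point -/
def Sid (M : Finset G) : Prop := ∀ g : G, g ≠ 0 → (M ∩ M.image (fun x => x + g)).card ≤ 1

end frag

/-! ## Statements of the modules -/

/-- BAS -/
def StmBAS : Prop := ∀ (G : Type) [AddCommGroup G] [Fintype G] [DecidableEq G],
  (∀ (h : ℕ) (A : Finset G), sumset h A = hs h A) ∧
  (∀ (a b : ℕ) (A : Finset G), hs (a + b) A = hs a A + hs b A) ∧
  (∀ A : Finset G, hs 1 A = A) ∧
  (∀ A : Finset G, hs 2 A = A + A) ∧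
  (∀ (h : ℕ) (A : Finset G), A.Nonempty → (hs h A).Nonempty) ∧
  (∀ (h : ℕ) (A B : Finset G), A ⊆ B → hs h A ⊆ hs h B) ∧
  (∀ (h : ℕ) (A : Finset G) (c : G),
    hs h (A.image (fun x => x + c)) = (hs h A).image (fun x => x + h • c)) ∧
  (∀ (h : ℕ) (A : Finset G) (c a : G), 1 ≤ h → Ext h A a →
    Ext h (A.image (fun x => x + c)) (a + c)) ∧
  (∀ (h : ℕ) (A : Finset G) (a : G), 2 ≤ h → Ext h A a → Ext 2 A a) ∧
  (∀ (h : ℕ) (A : Finset G), Ext h A 0 → ∀ f : Fin h → G, (∀ i, f i ∈ A) → ∑ i, f i = 0 →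
    ∀ i, f i = 0)

/-- HOM -/
def StmHOM : Prop := ∀ (G G' : Type) [AddCommGroup G] [DecidableEq G]
  [AddCommGroup G'] [DecidableEq G'] (f : G →+ G') (h : ℕ) (A : Finset G),
  hs h (A.image f) = (hs h A).image f

/-- SK (Scherk-Kemperman) -/
def StmSK : Prop := ∀ (G : Type) [AddCommGroup G] [Fintype G] [DecidableEq G] (A B : Finset G),
  (0 : G) ∈ A → (0 : G) ∈ B → (∀ a ∈ A, ∀ b ∈ B, a + b = 0 → a = 0) →
  A.card + B.card ≤ (A + B).card + 1

/-- SKH -/
def StmSKH : Prop := ∀ (G : Type) [AddCommGroup G] [Fintype G] [DecidableEq G] (h : ℕ)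
  (A : Finset G) (a : G), 1 ≤ h → Ext h A a →
  h * (A.card - 1) + 1 ≤ (hs h A).card ∧
  (2 ≤ h → (hs h A).card = h * (A.card - 1) + 1 → (A + A).card + 1 = 2 * A.card)

/-- KNH -/
def StmKNH : Prop := ∀ (G : Type) [AddCommGroup G] [Fintype G] [DecidableEq G] (h : ℕ)
  (A : Finset G), 1 ≤ h → A.Nonempty →
  (h * (A + fs (stab (hs h A))).card
    ≤ (hs h A).card + (h - 1) * (fs (stab (hs h A))).card) ∧
  (stab (hs h A) = ⊥ → h * (A.card - 1) + 1 ≤ (hs h A).card) ∧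
  (stab (hs h A) = ⊥ → 2 ≤ h → (hs h A).card = h * (A.card - 1) + 1 →
    (A + A).card + 1 = 2 * A.card ∧ stab (A + A) = ⊥)

/-- QUO -/
def StmQUO : Prop := ∀ (G : Type) [AddCommGroup G] [Fintype G] [DecidableEq G]
  (H : AddSubgroup G) [Fintype (G ⧸ H)] [DecidableEq (G ⧸ H)] (A : Finset G),
  (A.image (QuotientAddGroup.mk' H)).card * (fs H).card = (A + fs H).card ∧
  (stab A = H → stab (A.image (QuotientAddGroup.mk' H)) = ⊥) ∧
  (fs H).card = Nat.card H ∧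
  Fintype.card (G ⧸ H) * (fs H).card = Fintype.card G

/-- NUM (pure arithmetic) -/
def StmNUM : Prop := ∀ (n m h : ℕ), 2 ≤ h → 1 ≤ m → 0 < n → CondM n m h →
  (∀ n' k m', n' ∣ n → 1 ≤ m' → m = k * n' + m' → CondM n' m' h) ∧
  (∀ d n' q, n = n' * d → 1 ≤ q → m ≤ q * d → h * (q * d) = h * m + (h - 1) * (d - 1) →
    CondM n' q h) ∧
  (2 ≤ m → 2 * m ≠ n) ∧
  (∀ d k, d ∣ n → m ≤ k * d → h * (m - 1) + 1 + (h - 1) * d ≤ h * (k * d))

/-- LOW -/
def StmLOW : Prop := ∀ (G : Type) [AddCommGroup G] [Fintype G] [DecidableEq G] (h : ℕ)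
  (A : Finset G), 2 ≤ h → A.Nonempty → CondM (Fintype.card G) A.card h →
  h * (A.card - 1) + 1 ≤ (hs h A).card ∧
  ((hs h A).card = h * (A.card - 1) + 1 →
    ∀ (H : AddSubgroup G) [Fintype (G ⧸ H)] [DecidableEq (G ⧸ H)], H = stab (hs h A) →
      h * (A + fs H).card = h * A.card + (h - 1) * (Nat.card H - 1) ∧
      (hs h (A.image (QuotientAddGroup.mk' H))).card
        = h * ((A.image (QuotientAddGroup.mk' H)).card - 1) + 1 ∧
      stab (hs h (A.image (QuotientAddGroup.mk' H))) = ⊥ ∧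
      CondM (Fintype.card (G ⧸ H)) (A.image (QuotientAddGroup.mk' H)).card h)

/-- UPP -/
def StmUPP : Prop := ∀ (G : Type) [AddCommGroup G] [Fintype G] [DecidableEq G] (h m : ℕ),
  1 ≤ h → 1 ≤ m → m ≤ Fintype.card G →
  ∃ A : Finset G, A.card = m ∧ (hs h A).card ≤ h * (m - 1) + 1

/-- SBG -/
def StmSBG : Prop := ∀ (G : Type) [AddCommGroup G] [Fintype G] (d : ℕ),
  d ∣ Fintype.card G → ∃ H : AddSubgroup G, Nat.card H = d

/-- RHO (uses UPP, SBG, LOW) -/
def StmRHO : Prop := ∀ (G : Type) [AddCommGroup G] [Fintype G] (h m : ℕ),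
  2 ≤ h → 1 ≤ m → m ≤ Fintype.card G →
  (rho G m h = h * (m - 1) + 1 ↔ CondM (Fintype.card G) m h)

/-- ATE -/
def StmATE : Prop := ∀ (G : Type) [AddCommGroup G] [Fintype G] [DecidableEq G]
  (S X : Finset G), Adm S X → ∃ M, (0 : G) ∈ M ∧ Atom S M

/-- DUA -/
def StmDUA : Prop := ∀ (G : Type) [AddCommGroup G] [Fintype G] [DecidableEq G]
  (S F M : Finset G), Atom S M → Frag S F → M.card + (F + S).card ≤ Fintype.card G

/-- INT (uses DUA) -/
def StmINT : Prop := ∀ (G : Type) [AddCommGroup G] [Fintype G] [DecidableEq G]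
  (S F M : Finset G), Atom S M → Frag S F → 2 ≤ (M ∩ F).card → M ⊆ F

/-- SID (uses INT) -/
def StmSID : Prop := ∀ (G : Type) [AddCommGroup G] [Fintype G] [DecidableEq G]
  (S M : Finset G), (0 : G) ∈ M → Atom S M → (∃ H : AddSubgroup G, M = fs H) ∨ Sid M

/-- SCN -/
def StmSCN : Prop := ∀ (G : Type) [AddCommGroup G] [Fintype G] [DecidableEq G]
  (M X : Finset G), Sid M →
  (2 ≤ X.card → 2 * M.card ≤ (X + M).card + 1) ∧ (3 ≤ X.card → 3 * M.card ≤ (X + M).card + 3)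

/-- SSB -/
def StmSSB : Prop := ∀ (G : Type) [AddCommGroup G] [Fintype G] [DecidableEq G]
  (M : Finset G) (L : AddSubgroup G), (0 : G) ∈ M → Sid M → L ≠ ⊥ →
  (M + fs L).card + 1 ≤ M.card + (fs L).card → M ⊆ fs L

/-- VOA (uses ATE, SID, SCN, SSB) -/
def StmVOA : Prop := ∀ (G : Type) [AddCommGroup G] [Fintype G] [DecidableEq G]
  (M S : Finset G), (0 : G) ∈ M → Sid M → 3 ≤ M.card →
  AddSubgroup.closure (M : Set G) = ⊤ → 2 ≤ S.card → (S + M).card + 1 ≤ S.card + M.card →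
  (S + M).card + 2 ≤ Fintype.card G → False

/-- SLM (uses Kneser, SSB) -/
def StmSLM : Prop := ∀ (G : Type) [AddCommGroup G] [Fintype G] [DecidableEq G]
  (M S : Finset G) (Q : AddSubgroup G), Q = AddSubgroup.closure (M : Set G) →
  (0 : G) ∈ M → Sid M → 3 ≤ M.card → S.Nonempty → (M + S).card + 1 ≤ M.card + S.card →
  M + S = S + fs Q ∨
  ∃ s ∈ S, ∃ S₀ : Finset G, (∀ x, x ∈ S₀ ↔ x ∈ S ∧ x - s ∈ Q) ∧
    (∀ x ∈ S, x ∉ S₀ → ∀ q ∈ Q, x + q ∈ S) ∧
    (S₀ + M).card + 1 = S₀.card + M.card ∧ (S₀ + M).card < (fs Q).card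

/-- ATT (uses SID, SLM, VOA) -/
def StmATT : Prop := ∀ (G : Type) [AddCommGroup G] [Fintype G] [DecidableEq G]
  (S M : Finset G), S.Nonempty → (0 : G) ∈ M → Atom S M → (M + S).card + 1 ≤ M.card + S.card →
  M.card = 2 ∨ ∃ H : AddSubgroup G, M = fs H

/-- PRG -/
def StmPRG : Prop := ∀ (G : Type) [AddCommGroup G] [Fintype G] [DecidableEq G]
  (A : Finset G) (g : G), A.Nonempty → g ≠ 0 → (A + {0, g}).card ≤ A.card + 1 →
  (A + fs (AddSubgroup.zmultiples g)).card + 1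
    ≤ A.card + (fs (AddSubgroup.zmultiples g)).card ∧
  (AddSubgroup.zmultiples g = ⊤ → A ≠ Finset.univ → IsAP A)

/-- VOS (uses ATE, ATT, PRG) -/
def StmVOS : Prop := ∀ (G : Type) [AddCommGroup G] [Fintype G] [DecidableEq G]
  (A : Finset G), (0 : G) ∈ A → 2 ≤ A.card →
  (A + A).card + 1 = 2 * A.card → (A + A).card + 2 ≤ Fintype.card G →
  IsAP A ∨ ∃ H : AddSubgroup G, H ≠ ⊥ ∧ H ≠ ⊤ ∧ (A + fs H).card + 1 ≤ A.card + (fs H).card

/-- SLU (uses SK, QUO) -/
def StmSLU : Prop := ∀ (G : Type) [AddCommGroup G] [Fintype G] [DecidableEq G]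
  (B B₀ : Finset G) (H : AddSubgroup G) [Fintype (G ⧸ H)] [DecidableEq (G ⧸ H)],
  Ext 2 B 0 → (B + B).card + 1 = 2 * B.card → (B + fs H).card + 1 ≤ B.card + (fs H).card →
  (∀ x, x ∈ B₀ ↔ x ∈ B ∧ x ∈ H) →
  (∀ b ∈ B, b ∉ H → ∀ k ∈ H, b + k ∈ B) ∧
  Ext 2 (B.image (QuotientAddGroup.mk' H)) 0 ∧
  (B.image (QuotientAddGroup.mk' H) + B.image (QuotientAddGroup.mk' H)).card + 1
    = 2 * (B.image (QuotientAddGroup.mk' H)).card ∧
  (B₀ + B₀).card + 1 = 2 * B₀.card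

/-- SLA (uses KNH, SKH, QUO, HOM) -/
def StmSLA : Prop := ∀ (G : Type) [AddCommGroup G] [Fintype G] [DecidableEq G] (h : ℕ)
  (A : Finset G) (H : AddSubgroup G), 2 ≤ h → A.Nonempty → stab (hs h A) = ⊥ →
  (hs h A).card = h * (A.card - 1) + 1 → H ≠ ⊥ → (A + fs H).card + 1 ≤ A.card + (fs H).card →
  ∃ a ∈ A, ∃ A₀ : Finset G, (∀ x, x ∈ A₀ ↔ x ∈ A ∧ x - a ∈ H) ∧
    (∀ b ∈ A, b ∉ A₀ → ∀ k ∈ H, b + k ∈ A) ∧
    stab (hs h A₀) = ⊥ ∧ (hs h A₀).card = h * (A₀.card - 1) + 1 ∧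
    (∀ c, Ext h A₀ c → Ext h A c)

/-- HLF -/
def StmHLF : Prop := ∀ (G : Type) [AddCommGroup G] [Fintype G] [DecidableEq G]
  (B : Finset G), Ext 2 B 0 → (B + B).card + 1 = 2 * B.card → (B + B).card = Fintype.card G →
  ∀ x : G, x ≠ 0 → (x ∈ B ↔ -x ∉ B)

/-- COA -/
def StmCOA : Prop := ∀ (G : Type) [AddCommGroup G] [Fintype G] [DecidableEq G]
  (B : Finset G), Ext 2 B 0 → (B + B).card + 1 = 2 * B.card →
  (B + B).card + 1 = Fintype.card G → ∃ g : G, g ≠ 0 ∧ (B + {0, g}).card ≤ B.card + 1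

/-- STA: functoriality of staircases -/
def StmSTA : Prop :=
  (∀ (G G' : Type) [AddCommGroup G] [AddCommGroup G'] (f : G →+ G') (h : ℕ)
    (H L : AddSubgroup G) (C : Set G), Function.Injective f → Stair h H L C →
    Stair h (H.map f) (L.map f) (f '' C)) ∧
  (∀ (G G' : Type) [AddCommGroup G] [AddCommGroup G'] (f : G →+ G') (h : ℕ)
    (H L : AddSubgroup G') (C : Set G'), Function.Surjective f → Stair h H L C →
    Stair h (H.comap f) (L.comap f) (f ⁻¹' C)) ∧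
  (∀ (G : Type) [AddCommGroup G] (h : ℕ) (H K L : AddSubgroup G) (C C' : Set G),
    1 ≤ h → Stair h H K C → Stair h K L C' → Stair h H L (C ∪ (C' \ K)))

/-- THR (uses BAS, VOS, PRG, SLU, HLF, COA, STA) -/
def StmTHR : Prop := ∀ (G : Type) [AddCommGroup G] [Fintype G] [DecidableEq G]
  (B : Finset G), Ext 2 B 0 → (B + B).card + 1 = 2 * B.card → Stair 2 ⊥ ⊤ (B : Set G)

/-- EXT (uses BAS, KNH, NUM, VOS, SLA) -/
def StmEXT : Prop := ∀ (G : Type) [AddCommGroup G] [Fintype G] [DecidableEq G] (h : ℕ)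
  (A : Finset G), 2 ≤ h → A.Nonempty → CondM (Fintype.card G) A.card h →
  stab (hs h A) = ⊥ → (hs h A).card = h * (A.card - 1) + 1 → ∃ a, Ext h A a

/-- REF -/
def StmREF : Prop := ∀ (G : Type) [AddCommGroup G] [Fintype G] (h : ℕ) (L : AddSubgroup G)
  (C : Set G), 2 ≤ h → Stair 2 ⊥ L C →
  (∀ f : Fin h → G, (∀ i, f i ∈ C) → ∑ i, f i = 0 → ∀ i, f i = 0) → Stair h ⊥ L C

/-- STC -/
def StmSTC : Prop := ∀ (G : Type) [AddCommGroup G] [Fintype G] [DecidableEq G] (h : ℕ)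
  (H L : AddSubgroup G) (C : Finset G), 1 ≤ h → Stair h H L (C : Set G) →
  (hs h C).card + (h - 1) * Nat.card H ≤ h * C.card

/-! ## The final statement -/

/-- FIN -/
def StmFIN : Prop := ∀ (G : Type) [AddCommGroup G] [Fintype G] (m h : ℕ),
  2 ≤ h → 1 ≤ m → m ≤ Fintype.card G →
  ((rho G m h = h * m - h + 1 ∧ h * m - h + 1 < Fintype.card G) ↔
    (h * m - h + 1 < Fintype.card G ∧
      ∀ d, d ∣ Fintype.card G → h * ((m - 1) % d) ≤ d - 1)) ∧
  ((rho G m h = h * m - h + 1 ∧ h * m - h + 1 < Fintype.card G) →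
    ∀ A : Finset G, A.card = m → ((sumset h A).card = h * m - h + 1 ↔
      ∃ (H L : AddSubgroup G) (C : Set G) (c : G), Stair h H L C ∧ (∀ a ∈ A, a - c ∈ C) ∧
        h * C.ncard = h * m + (h - 1) * (Nat.card H - 1)))

end Pool.Agent.T6.H65.KP
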