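import Mathlib
import Pool.Agent.T6.H65.KP.Defs

/-! Module ATT (helper80) of project KP (helper65). -/

set_option autoImplicit false

open scoped Pointwise
open Finset
open Pool.Agent.Helper549.Kneser

namespace Pool.Agent.T6.H65.KP.ModATT

section
variable {G : Type} [AddCommGroup G] [Fintype G] [DecidableEq G]

/-- VOA in a subgroup -/
theorem voa_sub (voa : StmVOA) (M S : Finset G) (h0 : (0 : G) ∈ M) (hM : Sid M) (h3 : 3 ≤ M.card)
    (h2 : 2 ≤ S.card) (hSQ : ∀ x ∈ S, x ∈ AddSubgroup.closure (M : Set G))
    (hc : (S + M).card + 1 ≤ S.card + M.card)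
    (hlt : (S + M).card + 2 ≤ (fs (AddSubgroup.closure (M : Set G))).card) : False := by
  classical
  obtain ⟨Q, hQ⟩ : ∃ Q, Q = AddSubgroup.closure (M : Set G) := ⟨_, rfl⟩
  rw [← hQ] at hSQ hlt
  have hMQ : ∀ x ∈ M, x ∈ Q := fun x hx => by
    rw [hQ]; exact AddSubgroup.subset_closure (mem_coe.2 hx)
  have himg : ∀ X : Finset G, (∀ x ∈ X, x ∈ Q) → (X.subtype (fun x => x ∈ Q)).image Q.subtype = X := by
    intro X hX
    ext x
    rw [mem_image]
    constructor
    · rintro ⟨y, hy, rfl⟩
      exact mem_subtype.1 hy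
    · intro hx
      exact ⟨⟨x, hX x hx⟩, mem_subtype.2 hx, rfl⟩
  have hinj : Function.Injective Q.subtype := Subtype.val_injective
  have hcard : ∀ X : Finset G, (∀ x ∈ X, x ∈ Q) → (X.subtype (fun x => x ∈ Q)).card = X.card := by
    intro X hX
    rw [← card_image_of_injective _ hinj, himg X hX]
  have hMi := himg M hMQ
  have hMc := hcard M hMQ
  have hSi := himg S hSQ
  have hSc := hcard S hSQ
  have hsum : (S.subtype (fun x => x ∈ Q) + M.subtype (fun x => x ∈ Q)).card = (S + M).card := by
    rw [← card_image_of_injective _ hinj, image_add, hSi, hMi]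
  have hQc : Fintype.card Q = (fs Q).card := by
    rw [Fintype.card_subtype]
    apply congrArg
    ext x
    rw [mem_fs, mem_filter]
    exact ⟨fun h => h.2, fun h => ⟨mem_univ _, h⟩⟩
  refine voa Q (M.subtype (fun x => x ∈ Q)) (S.subtype (fun x => x ∈ Q)) ?_ ?_ ?_ ?_ ?_ ?_ ?_
  · rw [mem_subtype]
    exact h0
  · intro g hg
    have hg' : (g : G) ≠ 0 := fun h => hg (Subtype.ext h)
    refine le_trans ?_ (hM (g : G) hg')
    apply card_le_card_of_injOn Q.subtype
    · intro x hx
      rw [mem_coe, mem_inter, mem_subtype, mem_image] at hx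
      obtain ⟨h1, y, hy, hyx⟩ := hx
      rw [mem_coe, mem_inter, mem_image]
      refine ⟨h1, y, mem_subtype.1 hy, ?_⟩
      rw [← hyx]
      rfl
    · exact hinj.injOn
  · rw [hMc]; exact h3
  · have h1 : ((M.subtype (fun x => x ∈ Q) : Finset Q) : Set Q) = ((↑) : Q → G) ⁻¹' (M : Set G) := by
      ext x
      simp [mem_subtype]
    rw [h1]
    subst hQ
    exact AddSubgroup.closure_closure_coe_preimage
  · rw [hSc]; exact h2
  · rw [hsum, hSc, hMc]; exact hc
  · rw [hsum, hQc]; exact hlt

end

theorem att (sid : StmSID) (slm : StmSLM) (voa : StmVOA) : StmATT := by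
  intro G _ _ _ S M hSne h0 hM hc
  rcases sid G S M h0 hM with h | hSid
  · exact Or.inr h
  by_contra hcon
  push Not at hcon
  obtain ⟨hne2, hnH⟩ := hcon
  have hM2 := hM.1.1.1
  have hMG := hM.1.1.2
  have hM3 : 3 ≤ M.card := by omega
  obtain ⟨Q, hQ⟩ : ∃ Q, Q = AddSubgroup.closure (M : Set G) := ⟨_, rfl⟩
  have hMQ : ∀ x ∈ M, x ∈ Q := fun x hx => by
    rw [hQ]; exact AddSubgroup.subset_closure (mem_coe.2 hx)
  have hMfs : M ⊆ fs Q := fun x hx => mem_fs.2 (hMQ x hx)
  have hQc := card_le_card hMfs
  rcases slm G M S Q hQ h0 hSid hM3 hSne hc with h1 | ⟨s, hs, S₀, mS₀, hper, hcS, hlt⟩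
  · -- case 1
    have h2 : fs Q + S = M + S := by rw [h1, add_comm]
    have hadm : Adm S (fs Q) := ⟨by omega, by rw [h2]; exact hMG⟩
    have h3 := hM.1.2 (fs Q) hadm
    rw [h2] at h3
    exact hnH Q (eq_of_subset_of_card_le hMfs (by omega))
  · -- case 2
    obtain ⟨R, hR⟩ : ∃ R, R = S \ S₀ := ⟨_, rfl⟩
    have mR : ∀ x, x ∈ R ↔ x ∈ S ∧ x ∉ S₀ := by intro x; rw [hR, mem_sdiff]
    have hS₀S : S₀ ⊆ S := fun x hx => ((mS₀ x).1 hx).1
    have hcard : R.card + S₀.card = S.card := by
      rw [hR]; exact card_sdiff_add_card_eq_card hS₀S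
    have hsS₀ : s ∈ S₀ := (mS₀ s).2 ⟨hs, by rw [sub_self]; exact Q.zero_mem⟩
    have hRper : ∀ x ∈ R, ∀ q ∈ Q, x + q ∈ R := by
      intro x hx q hq
      rw [mR] at hx ⊢
      refine ⟨hper x hx.1 hx.2 q hq, fun h => hx.2 ?_⟩
      rw [mS₀] at h ⊢
      refine ⟨hx.1, ?_⟩
      have := Q.sub_mem h.2 hq
      have e : x + q - s - q = x - s := by abel
      rwa [e] at this
    -- `M + S = R ∪ (S₀ + M)`
    have hMS : M + S ⊆ R ∪ (S₀ + M) := by
      intro y hy
      obtain ⟨m, hm, x, hx, rfl⟩ := mem_add.1 hy
      rw [add_comm m x]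
      by_cases hx0 : x ∈ S₀
      · exact mem_union_right _ (Finset.add_mem_add hx0 hm)
      · exact mem_union_left _ (hRper x ((mR x).2 ⟨hx, hx0⟩) m (hMQ m hm))
    have hMS2 : R ∪ (S₀ + M) ⊆ M + S := by
      intro y hy
      rcases mem_union.1 hy with h | h
      · have := Finset.add_mem_add h0 ((mR y).1 h).1
        rwa [zero_add] at this
      · obtain ⟨x, hx, m, hm, rfl⟩ := mem_add.1 h
        rw [add_comm x m]
        exact Finset.add_mem_add hm (hS₀S hx)
    have hdisj : Disjoint R (S₀ + M) := by
      rw [disjoint_left]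
      intro y hy hy2
      obtain ⟨x, hx, m, hm, rfl⟩ := mem_add.1 hy2
      rw [mR, mS₀] at hy
      apply hy.2
      refine ⟨hy.1, ?_⟩
      have := Q.add_mem ((mS₀ x).1 hx).2 (hMQ m hm)
      have e : x - s + m = x + m - s := by abel
      rwa [e] at this
    have hMSc : (M + S).card = R.card + (S₀ + M).card := by
      rw [Subset.antisymm hMS hMS2, card_union_of_disjoint hdisj]
    have hS₀pos : 0 < S₀.card := card_pos.2 ⟨s, hsS₀⟩
    by_cases h1 : S₀.card = 1
    · -- 2a
      obtain ⟨g, hgM, hg0⟩ : ∃ g ∈ M, g ≠ 0 := by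
        by_contra hcon
        push Not at hcon
        have : M ⊆ {0} := fun x hx => mem_singleton.2 (hcon x hx)
        have := card_le_card this
        rw [card_singleton] at this
        omega
      have hS₀s : ∀ x ∈ S₀, x = s := by
        intro x hx
        exact card_le_one.1 h1.le x hx s hsS₀
      have hY2 : ({0, g} : Finset G).card = 2 := card_pair (Ne.symm hg0)
      have hYM : ({0, g} : Finset G) ⊆ M := by
        intro x hx
        rw [mem_insert, mem_singleton] at hx
        rcases hx with rfl | rfl
        · exact h0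
        · exact hgM
      have hYS := card_le_card (add_subset_add_right hYM : ({0, g} : Finset G) + S ⊆ M + S)
      have hYc : (({0, g} : Finset G) + S).card ≤ R.card + 2 := by
        have hsub : ({0, g} : Finset G) + S ⊆ R ∪ {s, s + g} := by
          intro y hy
          obtain ⟨a, ha, x, hx, rfl⟩ := mem_add.1 hy
          have haQ : a ∈ Q := hMQ a (hYM ha)
          by_cases hx0 : x ∈ S₀
          · apply mem_union_right
            rw [hS₀s x hx0]
            rw [mem_insert, mem_singleton] at ha
            rcases ha with rfl | rfl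
            · simp
            · rw [add_comm]; simp
          · apply mem_union_left
            rw [add_comm a x]
            exact hRper x ((mR x).2 ⟨hx, hx0⟩) a haQ
        have h2 := card_le_card hsub
        have h3 := card_union_le R {s, s + g}
        have h4 : ({s, s + g} : Finset G).card ≤ 2 := card_le_two
        omega
      have hadm : Adm S {0, g} := ⟨hY2.ge, by omega⟩
      have hfr : Frag S {0, g} := by
        refine ⟨hadm, fun Z hZ => ?_⟩
        have := hM.1.2 Z hZ
        omega
      have := hM.2 _ hfr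
      omega
    · -- 2b
      have hS₀2 : 2 ≤ S₀.card := by omega
      obtain ⟨X, hX⟩ : ∃ X, X = (fs Q).image (fun h => s + h) := ⟨_, rfl⟩
      have hXc : X.card = (fs Q).card := by
        rw [hX, card_image_of_injective _ (add_right_injective s)]
      have hQS : fs Q + S ⊆ R ∪ X := by
        intro y hy
        obtain ⟨q, hq, x, hx, rfl⟩ := mem_add.1 hy
        rw [mem_fs] at hq
        by_cases hx0 : x ∈ S₀
        · apply mem_union_right
          rw [hX, mem_image]
          refine ⟨x - s + q, mem_fs.2 (Q.add_mem ((mS₀ x).1 hx0).2 hq), by abel⟩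
        · apply mem_union_left
          rw [add_comm q x]
          exact hRper x ((mR x).2 ⟨hx, hx0⟩) q hq
      have hQSc := card_le_card hQS
      have hun := card_union_le R X
      by_cases huniv : fs Q + S = Finset.univ
      · have hG : Fintype.card G ≤ R.card + X.card := by
          rw [← Finset.card_univ, ← huniv]
          omega
        -- VOA
        obtain ⟨S', hS'⟩ : ∃ S', S' = S₀.image (fun x => x + -s) := ⟨_, rfl⟩
        have hS'c : S'.card = S₀.card := by
          rw [hS', card_image_of_injective _ (add_left_injective (-s))]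
        have hS'M : (S' + M).card = (S₀ + M).card := by
          have e : S' + M = (S₀ + M).image (fun x => x + -s) := by
            rw [hS']
            ext y
            simp only [mem_add, mem_image]
            constructor
            · rintro ⟨a, ⟨x, hx, rfl⟩, m, hm, rfl⟩
              exact ⟨x + m, ⟨x, hx, m, hm, rfl⟩, by abel⟩
            · rintro ⟨b, ⟨x, hx, m, hm, rfl⟩, rfl⟩
              exact ⟨x + -s, ⟨x, hx, rfl⟩, m, hm, by abel⟩
          rw [e, card_image_of_injective _ (add_left_injective (-s))]
        have hcS' : (S' + M).card + 1 ≤ S'.card + M.card := by omega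
        have hlt' : (S' + M).card + 2 ≤ (fs Q).card := by omega
        refine voa_sub voa M S' h0 hSid hM3 (by omega) ?_ hcS' (by rw [← hQ]; exact hlt')
        intro x hx
        rw [hS', mem_image] at hx
        obtain ⟨y, hy, rfl⟩ := hx
        rw [← hQ, ← sub_eq_add_neg]
        exact ((mS₀ y).1 hy).2
      · obtain ⟨y, hy⟩ : ∃ y, y ∉ fs Q + S := by
          by_contra hcon
          push Not at hcon
          exact huniv (eq_univ_of_forall hcon)
        have hcomp : (fs Q + S).card + (fs Q).card ≤ Fintype.card G := by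
          have hd : Disjoint (fs Q + S) ((fs Q).image (fun h => y + h)) := by
            rw [disjoint_left]
            intro z hz hz2
            obtain ⟨q, hq, x, hx, rfl⟩ := mem_add.1 hz
            obtain ⟨q', hq', he⟩ := mem_image.1 hz2
            apply hy
            refine mem_add.2 ⟨q - q', mem_fs.2 (Q.sub_mem (mem_fs.1 hq) (mem_fs.1 hq')), x, hx, ?_⟩
            have : y = q + x - q' := by rw [← he]; abel
            rw [this]; abel
          have h2 := card_le_univ (fs Q + S ∪ (fs Q).image (fun h => y + h))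
          rwa [card_union_of_disjoint hd, card_image_of_injective _ (add_right_injective y)] at h2
        have hadm : Adm S (fs Q) := ⟨by omega, by omega⟩
        have h3 := hM.1.2 (fs Q) hadm
        omega

end Pool.Agent.T6.H65.KP.ModATT
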