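import Pool.Agent.T6.H65.KP.Defs

set_option autoImplicit false

open scoped Pointwise
open Finset
open Pool.Agent.Helper549.Kneser

namespace Pool.Agent.T6.H65.KP.ModBAS

variable {G : Type} [AddCommGroup G] [DecidableEq G]

theorem hs_zero (A : Finset G) : hs 0 A = {0} := rfl
theorem hs_succ (n : ℕ) (A : Finset G) : hs (n + 1) A = hs n A + A := rfl

theorem hs_one (A : Finset G) : hs 1 A = A := by
  rw [hs_succ, hs_zero, Finset.singleton_zero, zero_add]

theorem hs_two (A : Finset G) : hs 2 A = A + A := by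
  rw [hs_succ, hs_one]

theorem hs_add (a b : ℕ) (A : Finset G) : hs (a + b) A = hs a A + hs b A := by
  induction b with
  | zero =>
    show hs a A = hs a A + {0}
    rw [Finset.singleton_zero]
    exact (add_zero _).symm
  | succ n ih => rw [← Nat.add_assoc, hs_succ, ih, hs_succ, add_assoc]

theorem hs_nonempty (h : ℕ) (A : Finset G) (hA : A.Nonempty) : (hs h A).Nonempty := by
  induction h with
  | zero => exact ⟨0, by simp [hs_zero]⟩
  | succ n ih => rw [hs_succ]; exact ih.add hA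

theorem hs_mono (h : ℕ) {A B : Finset G} (hAB : A ⊆ B) : hs h A ⊆ hs h B := by
  induction h with
  | zero => exact Finset.Subset.refl _
  | succ n ih => rw [hs_succ, hs_succ]; exact Finset.add_subset_add ih hAB

theorem hs_mem_iff (h : ℕ) (A : Finset G) (x : G) :
    x ∈ hs h A ↔ ∃ f : Fin h → G, (∀ i, f i ∈ A) ∧ ∑ i, f i = x := by
  induction h generalizing x with
  | zero =>
    rw [hs_zero, Finset.mem_singleton]
    constructor
    · rintro rfl
      exact ⟨fun i => i.elim0, fun i => i.elim0, by simp⟩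
    · rintro ⟨f, _, hf⟩
      simpa using hf.symm
  | succ n ih =>
    rw [hs_succ, Finset.mem_add]
    constructor
    · rintro ⟨y, hy, a, ha, rfl⟩
      obtain ⟨f, hf, hfs⟩ := (ih y).mp hy
      refine ⟨Fin.snoc f a, ?_, ?_⟩
      · intro i
        refine Fin.lastCases ?_ ?_ i
        · simpa using ha
        · intro j; simpa using hf j
      · rw [Fin.sum_univ_castSucc]
        simp [hfs]
    · rintro ⟨f, hf, rfl⟩
      refine ⟨∑ i : Fin n, f i.castSucc, (ih _).mpr ⟨fun i => f i.castSucc, fun i => hf _, rfl⟩,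
        f (Fin.last n), hf _, ?_⟩
      rw [Fin.sum_univ_castSucc]

theorem hs_image (h : ℕ) (A : Finset G) (c : G) :
    hs h (A.image (fun x => x + c)) = (hs h A).image (fun x => x + h • c) := by
  induction h with
  | zero => simp [hs_zero]
  | succ n ih =>
    rw [hs_succ, hs_succ, ih]
    ext x
    simp only [Finset.mem_add, Finset.mem_image]
    constructor
    · rintro ⟨_, ⟨y, hy, rfl⟩, _, ⟨a, ha, rfl⟩, rfl⟩
      exact ⟨y + a, ⟨y, hy, a, ha, rfl⟩, by rw [succ_nsmul]; abel⟩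
    · rintro ⟨_, ⟨y, hy, a, ha, rfl⟩, rfl⟩
      exact ⟨y + n • c, ⟨y, hy, rfl⟩, a + c, ⟨a, ha, rfl⟩, by rw [succ_nsmul]; abel⟩

theorem ext_image (h : ℕ) (A : Finset G) (c a : G) (hh : 1 ≤ h) (hE : Ext h A a) :
    Ext h (A.image (fun x => x + c)) (a + c) := by
  refine ⟨Finset.mem_image.mpr ⟨a, hE.1, rfl⟩, ?_⟩
  intro b' hb' hs'
  obtain ⟨b, hb, rfl⟩ := Finset.mem_image.mp hb'
  rw [hs_image, Finset.mem_image] at hs'
  obtain ⟨y, hy, hyx⟩ := hs'
  obtain ⟨k, rfl⟩ : ∃ k, h = k + 1 := ⟨h - 1, by omega⟩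
  have hk : k + 1 - 1 = k := by omega
  rw [hk] at hy hyx
  have : (k + 1) • a - b = y := by
    have h1 : y = (k + 1) • (a + c) - (b + c) - k • c := by rw [← hyx]; abel
    rw [h1, succ_nsmul, succ_nsmul]
    rw [nsmul_add]; abel
  have h2 := hE.2 b hb (by rw [hk, this]; exact hy)
  rw [h2]

theorem nsmul_mem_hs (h : ℕ) (A : Finset G) (a : G) (ha : a ∈ A) : h • a ∈ hs h A := by
  rw [hs_mem_iff]
  exact ⟨fun _ => a, fun _ => ha, by simp⟩

theorem ext_two (h : ℕ) (A : Finset G) (a : G) (hh : 2 ≤ h) (hE : Ext h A a) : Ext 2 A a := by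
  refine ⟨hE.1, ?_⟩
  intro b hb hx
  have h21 : 2 - 1 = 1 := rfl
  rw [h21, hs_one] at hx
  apply hE.2 b hb
  obtain ⟨k, rfl⟩ : ∃ k, h = k + 2 := ⟨h - 2, by omega⟩
  have hk : k + 2 - 1 = k + 1 := by omega
  rw [hk, hs_succ, Finset.mem_add]
  refine ⟨k • a, nsmul_mem_hs k A a hE.1, 2 • a - b, hx, ?_⟩
  rw [add_nsmul]; abel

theorem ext_zero (h : ℕ) (A : Finset G) (hE : Ext h A 0) (f : Fin h → G) (hf : ∀ i, f i ∈ A)
    (hsum : ∑ i, f i = 0) (i : Fin h) : f i = 0 := by
  obtain ⟨k, rfl⟩ : ∃ k, h = k + 1 := ⟨h - 1, by have := i.2; omega⟩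
  apply hE.2 (f i) (hf i)
  have hk : k + 1 - 1 = k := by omega
  rw [hk, hs_mem_iff]
  refine ⟨fun j => f (i.succAbove j), fun j => hf _, ?_⟩
  rw [Fin.sum_univ_succAbove f i] at hsum
  rw [smul_zero, zero_sub]
  exact eq_neg_of_add_eq_zero_right hsum

theorem bas : StmBAS := by
  intro G _ _ _
  refine ⟨?_, hs_add, hs_one, hs_two, hs_nonempty, fun h A B hAB => hs_mono h hAB, hs_image,
    ext_image, ext_two, ext_zero⟩
  intro h A
  ext x
  rw [hs_mem_iff]
  unfold sumset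
  simp

end Pool.Agent.T6.H65.KP.ModBAS
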