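import Pool.Agent.T6.H65.KP.Defs

set_option autoImplicit false

open scoped Pointwise
open Finset
open Pool.Agent.Helper549.Kneser

namespace Pool.Agent.T6.H65.KP.ModCOA

theorem coa (bas : StmBAS) : StmCOA := by
  intro G _ _ _ B hE hc hu
  have h1 : hs 1 B = B := (bas G).2.2.1 B
  have hE2 : ∀ b ∈ B, -b ∈ B → b = 0 := by
    intro b hb hnb
    apply hE.2 b hb
    have e : (2 - 1 : ℕ) = 1 := rfl
    rw [e, h1, smul_zero, zero_sub]
    exact hnb
  have h0 : (0 : G) ∈ B := hE.1
  -- the missing element
  obtain ⟨x, hx⟩ : ∃ x, x ∉ B + B := by
    by_contra hcon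
    push Not at hcon
    have : B + B = univ := eq_univ_iff_forall.mpr hcon
    rw [this, card_univ] at hu
    omega
  have hx0 : x ≠ 0 := by
    rintro rfl
    apply hx
    rw [mem_add]
    exact ⟨0, h0, 0, h0, by simp⟩
  have hdisj : Disjoint B (B.image (fun b => x - b)) := by
    rw [disjoint_left]
    intro y hy hy'
    rw [mem_image] at hy'
    obtain ⟨b, hb, rfl⟩ := hy'
    apply hx
    rw [mem_add]
    exact ⟨x - b, hy, b, hb, by simp⟩
  have hinj : Function.Injective (fun b : G => x - b) := sub_right_injective
  have hcard : (B ∪ B.image (fun b => x - b)).card = Fintype.card G := by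
    rw [card_union_of_disjoint hdisj, card_image_of_injective _ hinj]
    omega
  have huniv : B ∪ B.image (fun b => x - b) = univ := by
    rw [← card_eq_iff_eq_univ]
    exact hcard
  refine ⟨x, hx0, ?_⟩
  have hsub : B + {0, x} ⊆ insert x B := by
    intro y hy
    rw [mem_add] at hy
    obtain ⟨b, hb, z, hz, rfl⟩ := hy
    rw [mem_insert, mem_singleton] at hz
    rw [mem_insert]
    rcases hz with rfl | rfl
    · right
      rw [add_zero]
      exact hb
    · by_cases hb0 : b = 0
      · left
        rw [hb0, zero_add]
      · right
        have hnb : -b ∉ B := fun h => hb0 (hE2 b hb h)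
        have hm : -b ∈ B ∪ B.image (fun b => z - b) := by
          rw [huniv]; exact mem_univ _
        rw [mem_union] at hm
        rcases hm with hm | hm
        · exact absurd hm hnb
        · rw [mem_image] at hm
          obtain ⟨b', hb', he⟩ := hm
          have : b + z = b' := by
            have : z = -b + b' := by rw [← he]; abel
            rw [this]; abel
          rw [this]
          exact hb'
  exact (card_le_card hsub).trans (card_insert_le _ _)

end Pool.Agent.T6.H65.KP.ModCOA
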