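import Pool.Agent.T6.H65.KP.Defs

/-!
# KP, module DUA (MP_4c924c_co)
-/

set_option autoImplicit false

open scoped Pointwise
open Finset

namespace Pool.Agent.T6.H65.KP.ModDUA

theorem dua : StmDUA := by
  intro G _ _ _ S F M hM hF
  classical
  set X : Finset G := (Finset.univ \ (F + S)).image (fun x => -x) with hX
  have hXc : X.card + (F + S).card = Fintype.card G := by
    rw [hX, Finset.card_image_of_injective _ neg_injective,
      Finset.card_sdiff_add_card_eq_card (Finset.subset_univ _), Finset.card_univ]
  obtain ⟨⟨hF1, hF2⟩, hF3⟩ := hF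
  have hdis : Disjoint (X + S) (F.image (fun x => -x)) := by
    rw [Finset.disjoint_left]
    intro z hz hz'
    obtain ⟨y, hy, s, hs, rfl⟩ := Finset.mem_add.1 hz
    obtain ⟨f, hf, hfe⟩ := Finset.mem_image.1 hz'
    obtain ⟨w, hw, hwe⟩ := Finset.mem_image.1 hy
    have hwn : w ∉ F + S := (Finset.mem_sdiff.1 hw).2
    apply hwn
    refine Finset.mem_add.2 ⟨f, hf, s, hs, ?_⟩
    have h1 : -f = -w + s := by rw [hfe, ← hwe]
    have h2 : f = w - s := by
      have := congrArg Neg.neg h1
      simpa [sub_eq_add_neg, add_comm] using this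
    rw [h2]
    abel
  have hcard : (X + S).card + F.card ≤ Fintype.card G := by
    have h1 : (F.image (fun x => -x)).card = F.card :=
      Finset.card_image_of_injective _ neg_injective
    rw [← h1, ← Finset.card_union_of_disjoint hdis]
    exact Finset.card_le_univ _
  have hadm : Adm S X := ⟨by omega, by omega⟩
  have hfrag : Frag S X := by
    refine ⟨hadm, fun Y hY => ?_⟩
    have := hF3 Y hY
    omega
  have := hM.2 X hfrag
  omega

end Pool.Agent.T6.H65.KP.ModDUA
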