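import Pool.Agent.T6.H65.KP.Defs

/-!
Existence of an extreme point (module EXT).
-/

set_option autoImplicit false

open scoped Pointwise
open Finset
open Pool.Agent.Helper549.Kneser

namespace Pool.Agent.T6.H65.KP.ModEXT

open Pool.Agent.T6.H65.KP

/-- the sumsets of a progression -/
theorem hs_ap {G : Type} [AddCommGroup G] [DecidableEq G] {A : Finset G} {a g : G} {l : ℕ}
    (hA : ∀ x, x ∈ A ↔ ∃ j ≤ l, a + j • g = x) : ∀ (n : ℕ) (x : G),
    x ∈ hs n A ↔ ∃ j ≤ n * l, n • a + j • g = x := by
  intro n
  induction n with
  | zero =>
    intro x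
    show x ∈ ({0} : Finset G) ↔ _
    rw [Finset.mem_singleton]
    constructor
    · rintro rfl
      exact ⟨0, by omega, by simp⟩
    · rintro ⟨j, hj, rfl⟩
      have : j = 0 := by omega
      subst this
      simp
  | succ n ih =>
    intro x
    show x ∈ hs n A + A ↔ _
    rw [Finset.mem_add]
    constructor
    · rintro ⟨y, hy, z, hz, rfl⟩
      obtain ⟨j, hj, rfl⟩ := (ih y).1 hy
      obtain ⟨i, hi, rfl⟩ := (hA z).1 hz
      refine ⟨j + i, by rw [add_mul, one_mul]; omega, ?_⟩
      rw [add_smul, add_smul, one_smul]
      abel
    · rintro ⟨j, hj, rfl⟩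
      rw [add_mul, one_mul] at hj
      refine ⟨n • a + (j - min j l) • g, (ih _).2 ⟨j - min j l, by omega, rfl⟩,
        a + (min j l) • g, (hA _).2 ⟨min j l, by omega, rfl⟩, ?_⟩
      have : j • g = (j - min j l) • g + (min j l) • g := by
        rw [← add_smul]
        congr 1
        omega
      rw [this, add_smul, one_smul]
      abel

theorem ext (bas : StmBAS) (hom : StmHOM) (knh : StmKNH) (num : StmNUM) (vos : StmVOS)
    (sla : StmSLA) (quo : StmQUO) : StmEXT := by
  have main : ∀ (n : ℕ) (G : Type) [AddCommGroup G] [Fintype G] [DecidableEq G],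
      Fintype.card G = n → ∀ (h : ℕ) (A : Finset G), 2 ≤ h → A.Nonempty →
        CondM (Fintype.card G) A.card h → stab (hs h A) = ⊥ →
        (hs h A).card = h * (A.card - 1) + 1 → ∃ a, Ext h A a := by
    intro n
    induction n using Nat.strong_induction_on with
    | _ n ih =>
    intro G _ _ _ hn h A hh hne hcond hstab hcard
    obtain ⟨b1, b2, b3, b4, b5, b6, b7, b8, b9, b10⟩ := bas G
    have hApos : 1 ≤ A.card := Finset.card_pos.2 hne
    by_cases hA1 : A.card = 1
    · obtain ⟨x, hx⟩ := Finset.card_eq_one.1 hA1
      refine ⟨x, by rw [hx]; exact Finset.mem_singleton_self x, fun b hb _ => ?_⟩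
      rw [hx, Finset.mem_singleton] at hb
      exact hb
    have hA2 : 2 ≤ A.card := by omega
    obtain ⟨k1, k2, k3⟩ := knh G h A (by omega) hne
    obtain ⟨hc2, hst2⟩ := k3 hstab hh hcard
    have hGpos : 0 < Fintype.card G := Fintype.card_pos_iff.2 ⟨0⟩
    obtain ⟨n1, n2, n3, n4⟩ := num (Fintype.card G) A.card h hh hApos hGpos hcond
    have hAle : A.card ≤ Fintype.card G := Finset.card_le_univ A
    have hle : (A + A).card ≤ Fintype.card G := Finset.card_le_univ _
    have hne1 : (A + A).card ≠ Fintype.card G := by
      intro he
      have hu : A + A = Finset.univ := (Finset.card_eq_iff_eq_univ _).1 he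
      obtain ⟨x, hx, y, hy, hxy⟩ := Finset.one_lt_card.1 (by omega : 1 < A.card)
      have : x - y ∈ stab (A + A) := mem_stab_of_forall (fun z _ => by rw [hu]; exact mem_univ _)
      rw [hst2, AddSubgroup.mem_bot, sub_eq_zero] at this
      exact hxy this
    have hne2 : (A + A).card + 1 ≠ Fintype.card G := by
      have := n3 hA2
      omega
    -- translation
    obtain ⟨a0, ha0⟩ := hne
    set A1 : Finset G := A.image (fun x => x + -a0) with hA1def
    have hinjT : ∀ c : G, Function.Injective (fun x : G => x + c) := fun c =>
      add_left_injective c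
    have c1 : A1.card = A.card := Finset.card_image_of_injective _ (hinjT _)
    have c2 : (A1 + A1).card = (A + A).card := by
      have := b7 2 A (-a0)
      rw [b4, b4] at this
      rw [hA1def, this, Finset.card_image_of_injective _ (hinjT _)]
    have h01 : (0 : G) ∈ A1 := by
      rw [hA1def, Finset.mem_image]
      exact ⟨a0, ha0, add_neg_cancel a0⟩
    rcases vos G A1 h01 (by omega) (by omega) (by omega) with hap | ⟨H, hH1, hH2, hH⟩
    · -- progression
      obtain ⟨a', g, hA1eq⟩ := hap
      have hmemA : ∀ x, x ∈ A ↔ ∃ j ≤ A.card - 1, (a' + a0) + j • g = x := by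
        intro x
        have e1 : x ∈ A ↔ x + -a0 ∈ A1 := by
          rw [hA1def, Finset.mem_image]
          constructor
          · intro hx; exact ⟨x, hx, rfl⟩
          · rintro ⟨y, hy, hyx⟩
            have := (hinjT (-a0)) hyx
            rw [← this]; exact hy
        rw [e1, hA1eq, Finset.mem_image]
        simp only [Finset.mem_range]
        constructor
        · rintro ⟨j, hj, hjx⟩
          refine ⟨j, by omega, ?_⟩
          have : x = a' + j • g + a0 := by rw [hjx, neg_add_cancel_right]
          rw [this]; abel
        · rintro ⟨j, hj, rfl⟩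
          exact ⟨j, by omega, by abel⟩
      set l := A.card - 1 with hl
      set α := a' + a0 with hα
      have hg : g ≠ 0 := by
        rintro rfl
        have : A ⊆ {α} := by
          intro x hx
          obtain ⟨j, _, rfl⟩ := (hmemA x).1 hx
          simp
        have := Finset.card_le_card this
        rw [Finset.card_singleton] at this
        omega
      have hhs := hs_ap hmemA
      refine ⟨α, (hmemA α).2 ⟨0, by omega, by simp⟩, fun b hb hmem => ?_⟩
      obtain ⟨i, hi, rfl⟩ := (hmemA b).1 hb
      obtain ⟨j, hj, hjx⟩ := (hhs (h - 1) _).1 hmem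
      have hij : (i + j) • g = 0 := by
        have e1 : h • α = (h - 1) • α + α := by
          conv_lhs => rw [show h = (h - 1) + 1 by omega]
          rw [add_smul, one_smul]
        rw [e1] at hjx
        have e2 : (h - 1) • α + α - (α + i • g) = (h - 1) • α - i • g := by abel
        rw [e2] at hjx
        have e3 : j • g = -(i • g) := by
          have : (h - 1) • α + j • g = (h - 1) • α + -(i • g) := by rw [hjx, sub_eq_add_neg]
          exact add_left_cancel this
        rw [add_smul, e3, add_neg_cancel]
      have hle2 : i + j ≤ h * l := by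
        have : h * l = (h - 1) * l + l := by
          conv_lhs => rw [show h = (h - 1) + 1 by omega]
          rw [add_mul, one_mul]
        omega
      rcases Nat.eq_zero_or_pos (i + j) with h0 | h0
      · have : i = 0 := by omega
        subst this
        simp
      · exfalso
        apply hg
        have : g ∈ stab (hs h A) := by
          apply mem_stab_of_forall
          intro x hx
          obtain ⟨k, hk, rfl⟩ := (hhs h x).1 hx
          rw [hhs h]
          refine ⟨(k + 1) % (i + j), ?_, ?_⟩
          · have := Nat.mod_lt (k + 1) h0
            omega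
          · have e1 : (k + 1) • g = ((k + 1) % (i + j)) • g := by
              conv_lhs => rw [← Nat.div_add_mod (k + 1) (i + j)]
              rw [add_smul, mul_comm, mul_smul, hij, smul_zero, zero_add]
            rw [← e1, add_smul, one_smul]
            abel
        rw [hstab, AddSubgroup.mem_bot] at this
        exact this
    · -- subgroup
      classical
      have hHA : (A + fs H).card + 1 ≤ A.card + (fs H).card := by
        have e : A1 + fs H = (A + fs H).image (fun x => x + -a0) := by
          ext x
          simp only [hA1def, Finset.mem_add, Finset.mem_image]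
          constructor
          · rintro ⟨_, ⟨y, hy, rfl⟩, z, hz, rfl⟩
            exact ⟨y + z, ⟨y, hy, z, hz, rfl⟩, by abel⟩
          · rintro ⟨_, ⟨y, hy, z, hz, rfl⟩, rfl⟩
            exact ⟨y + -a0, ⟨y, hy, rfl⟩, z, hz, by abel⟩
        rw [e, Finset.card_image_of_injective _ (hinjT _), c1] at hH
        exact hH
      obtain ⟨a, haA, A0, hA0, s1, s2, s3, s4⟩ := sla G h A H hh ⟨a0, ha0⟩ hstab hcard hH1 hHA
      have haA0 : a ∈ A0 := (hA0 a).2 ⟨haA, by rw [sub_self]; exact H.zero_mem⟩
      let _ : Fintype (G ⧸ H) := Fintype.ofFinite _
      obtain ⟨q1, q2, q3, q4⟩ := quo G H (A \ A0)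
      have hper : (A \ A0) + fs H = A \ A0 := by
        apply Finset.Subset.antisymm
        · intro x hx
          obtain ⟨b, hb, k, hk, rfl⟩ := Finset.mem_add.1 hx
          obtain ⟨hbA, hb0⟩ := Finset.mem_sdiff.1 hb
          have hk' := mem_fs.1 hk
          rw [Finset.mem_sdiff]
          refine ⟨s1 b hbA hb0 k hk', fun hbk => hb0 ?_⟩
          rw [hA0]
          refine ⟨hbA, ?_⟩
          have h1 := ((hA0 _).1 hbk).2
          have h2 := H.sub_mem h1 hk'
          have e : b + k - a - k = b - a := by abel
          rwa [e] at h2
        · intro x hx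
          rw [Finset.mem_add]
          exact ⟨x, hx, 0, mem_fs.2 H.zero_mem, add_zero x⟩
      rw [hper] at q1
      have hA0A : A0 ⊆ A := fun x hx => ((hA0 x).1 hx).1
      have hsplit : A.card = ((A \ A0).image (QuotientAddGroup.mk' H)).card * Nat.card H + A0.card := by
        rw [← q3, q1]
        have := Finset.card_sdiff_add_card_eq_card hA0A
        omega
      -- the set in the subgroup
      set B : Finset G := A0.image (fun x => x + -a) with hB
      have hBH : ∀ x ∈ B, x ∈ H := by
        intro x hx
        obtain ⟨y, hy, rfl⟩ := Finset.mem_image.1 hx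
        have := ((hA0 y).1 hy).2
        rwa [sub_eq_add_neg] at this
      set A2 : Finset H := B.subtype (fun x => x ∈ H) with hA2def
      have hA2m : ∀ x : H, x ∈ A2 ↔ (x : G) ∈ B := by
        intro x
        rw [hA2def, Finset.mem_subtype]
      have hinj : Function.Injective (H.subtype) := AddSubgroup.subtype_injective H
      have him : A2.image (H.subtype) = B := by
        ext x
        rw [Finset.mem_image]
        constructor
        · rintro ⟨y, hy, rfl⟩
          exact (hA2m y).1 hy
        · intro hx
          exact ⟨⟨x, hBH x hx⟩, (hA2m _).2 hx, rfl⟩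
      have hhsB : ∀ m : ℕ, hs m B = (hs m A2).image (H.subtype) := by
        intro m
        rw [← him]
        exact hom H G H.subtype m A2
      have cA2 : A2.card = A0.card := by
        rw [← Finset.card_image_of_injective A2 hinj, him, hB,
          Finset.card_image_of_injective _ (hinjT _)]
      have chs : (hs h A2).card = (hs h A0).card := by
        rw [← Finset.card_image_of_injective (hs h A2) hinj, ← hhsB, hB, b7,
          Finset.card_image_of_injective _ (hinjT _)]
      have hstA2 : stab (hs h A2) = ⊥ := by
        rw [eq_bot_iff]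
        intro k hk
        rw [AddSubgroup.mem_bot]
        have h1 : (k : G) ∈ stab (hs h A0) := by
          apply mem_stab_of_forall
          intro x hx
          have h2 : x + h • (-a) ∈ hs h B := by
            rw [hB, b7]
            exact Finset.mem_image_of_mem _ hx
          rw [hhsB] at h2
          obtain ⟨y, hy, hyx⟩ := Finset.mem_image.1 h2
          have h3 : y + k ∈ hs h A2 := stab_add hk hy
          have h4 : ((y + k : H) : G) ∈ hs h B := by
            rw [hhsB]
            exact Finset.mem_image_of_mem (H.subtype) h3
          rw [hB, b7] at h4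
          obtain ⟨w, hw, hwx⟩ := Finset.mem_image.1 h4
          have hyx' : (y : G) = x + h • (-a) := hyx
          have h5 : w = x + (k : G) := by
            have h6 : w + h • (-a) = x + (k : G) + h • (-a) := by
              have h7 : w + h • (-a) = ((y + k : H) : G) := hwx
              rw [h7, AddSubgroup.coe_add, hyx']
              abel
            exact (hinjT _) h6
          rw [← h5]
          exact hw
        rw [s2, AddSubgroup.mem_bot] at h1
        exact Subtype.ext h1
      have hlt : Fintype.card H < n := by
        have hcG : Nat.card H * H.index = Nat.card G := H.card_mul_index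
        have hHpos : 0 < Nat.card H := Nat.card_pos
        have hidxpos : 0 < H.index := by
          rw [AddSubgroup.index_eq_card H]
          exact Nat.card_pos
        have hi1 : H.index ≠ 1 := fun h => hH2 (AddSubgroup.index_eq_one.1 h)
        rw [← Nat.card_eq_fintype_card, ← hn, ← Nat.card_eq_fintype_card (α := G), ← hcG]
        nlinarith [Nat.lt_of_le_of_ne hidxpos (Ne.symm hi1)]
      have hdvd : Fintype.card H ∣ Fintype.card G := by
        rw [← Nat.card_eq_fintype_card, ← Nat.card_eq_fintype_card (α := G)]
        exact H.card_addSubgroup_dvd_card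
      have hA2pos : 1 ≤ A2.card := by
        rw [cA2]
        exact Finset.card_pos.2 ⟨a, haA0⟩
      have hcondH : CondM (Fintype.card H) A2.card h := by
        apply n1 (Fintype.card H) ((A \ A0).image (QuotientAddGroup.mk' H)).card A2.card hdvd hA2pos
        rw [cA2, ← Nat.card_eq_fintype_card]
        exact hsplit
      obtain ⟨c, hc1, hc2'⟩ := ih _ hlt H rfl h A2 hh (Finset.card_pos.1 hA2pos) hcondH hstA2
        (by rw [chs, s3, cA2])
      have hExtB : Ext h B (c : G) := by
        refine ⟨(hA2m c).1 hc1, fun b hb hmem => ?_⟩
        rw [hhsB] at hmem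
        obtain ⟨y, hy, hyx⟩ := Finset.mem_image.1 hmem
        have hb' : (⟨b, hBH b hb⟩ : H) ∈ A2 := (hA2m _).2 hb
        have hyc : y = h • c - ⟨b, hBH b hb⟩ := Subtype.ext hyx
        have := hc2' _ hb' (hyc ▸ hy)
        exact congrArg Subtype.val this
      have hExt0 := b8 h B a (c : G) (by omega) hExtB
      have hBA0 : B.image (fun x => x + a) = A0 := by
        rw [hB, Finset.image_image]
        have : ((fun x : G => x + a) ∘ fun x => x + -a) = id := by
          funext x
          simp
        rw [this, Finset.image_id]
      rw [hBA0] at hExt0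
      exact ⟨_, s4 _ hExt0⟩
  intro G _ _ _ h A h1 h2 h3 h4 h5
  exact main _ G rfl h A h1 h2 h3 h4 h5

end Pool.Agent.T6.H65.KP.ModEXT
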