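import Pool.Agent.T6.H65.KP.Defs

set_option autoImplicit false

open scoped Pointwise
open Finset
open Pool.Agent.Helper549.Kneser

namespace Pool.Agent.T6.H65.KP.ModHLF

theorem ext_two {G : Type} [AddCommGroup G] [DecidableEq G] {B : Finset G}
    (h1 : hs 1 B = B) (h : Ext 2 B 0) {b : G} (hb : b ∈ B) (hnb : -b ∈ B) : b = 0 := by
  apply h.2 b hb
  have e : (2 - 1 : ℕ) = 1 := rfl
  rw [e, h1, smul_zero, zero_sub]
  exact hnb

theorem hlf (bas : StmBAS) : StmHLF := by
  intro G _ _ _ B hE hc hu x hx
  have h1 : hs 1 B = B := (bas G).2.2.1 B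
  constructor
  · intro hxB hnx
    exact hx (ext_two h1 hE hxB hnx)
  · intro hnx
    by_contra hxB
    -- B and -B miss x, they meet in 0 only
    have hinter : B ∩ B.image (fun b => -b) ⊆ {0} := by
      intro y hy
      rw [mem_inter, mem_image] at hy
      obtain ⟨hy1, b, hb, rfl⟩ := hy
      have : b = 0 := ext_two h1 hE hb hy1
      simp [this]
    have hcard := card_union_add_card_inter B (B.image (fun b => -b))
    rw [card_image_of_injective _ neg_injective] at hcard
    have h2 : (B ∩ B.image (fun b => -b)).card ≤ 1 := by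
      simpa using card_le_card hinter
    have h3 : B ∪ B.image (fun b => -b) ⊆ univ.erase x := by
      intro y hy
      rw [mem_erase]
      refine ⟨?_, mem_univ _⟩
      rintro rfl
      rw [mem_union, mem_image] at hy
      rcases hy with hy | ⟨b, hb, hby⟩
      · exact hxB hy
      · apply hnx
        rw [← hby, neg_neg]
        exact hb
    have h4 := card_le_card h3
    rw [card_erase_of_mem (mem_univ _), card_univ] at h4
    have h5 : 0 < Fintype.card G := Fintype.card_pos
    omega

end Pool.Agent.T6.H65.KP.ModHLF
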