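import Pool.Agent.T6.H65.KP.Defs

set_option autoImplicit false

open scoped Pointwise
open Finset

namespace Pool.Agent.T6.H65.KP.ModHOM

theorem hom : StmHOM := by
  intro G G' _ _ _ _ f h A
  induction h with
  | zero => show ({0} : Finset G') = ({0} : Finset G).image f; simp
  | succ n ih =>
    show hs n (A.image f) + A.image f = (hs n A + A).image f
    rw [ih, Finset.image_add]

end Pool.Agent.T6.H65.KP.ModHOM
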