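import Mathlib
import Pool.Agent.T6.H65.KP.Defs

/-! Module INT (helper80) of project KP (helper65). -/

set_option autoImplicit false

open scoped Pointwise
open Finset
open Pool.Agent.Helper549.Kneser

namespace Pool.Agent.T6.H65.KP.ModINT

theorem int (dua : StmDUA) : StmINT := by
  intro G _ _ _ S F M hM hF hI
  by_contra hsub
  obtain ⟨I, hIdef⟩ : ∃ I, I = M ∩ F := ⟨_, rfl⟩
  rw [← hIdef] at hI
  have hIM : I ⊆ M := by rw [hIdef]; exact inter_subset_left
  have hIF : I ⊆ F := by rw [hIdef]; exact inter_subset_right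
  have hIcard : I.card < M.card := by
    apply Finset.card_lt_card
    exact ⟨hIM, fun h => hsub fun x hx => hIF (h hx)⟩
  have hIS : I + S ⊆ M + S := add_subset_add_right hIM
  have hISF : I + S ⊆ F + S := add_subset_add_right hIF
  have hMadm := hM.1.1.2
  have hc1 := card_le_card hIS
  have hIadm : Adm S I := ⟨hI, by omega⟩
  have hnF : ¬ Frag S I := fun h => absurd (hM.2 I h) (not_le.2 hIcard)
  have h1 : (M + S).card + I.card < (I + S).card + M.card := by
    by_contra hcon
    push Not at hcon
    apply hnF
    refine ⟨hIadm, fun Y hY => ?_⟩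
    have := hM.1.2 Y hY
    omega
  have h2 : (M ∪ F) + S = (M + S) ∪ (F + S) := Finset.union_add
  have h3 : I + S ⊆ (M + S) ∩ (F + S) := subset_inter hIS hISF
  have h4 : ((M ∪ F) + S).card + (I + S).card ≤ (M + S).card + (F + S).card := by
    rw [h2]
    have a1 := card_union_add_card_inter (M + S) (F + S)
    have a2 := card_le_card h3
    omega
  have h5 := dua G S F M hM hF
  have h6 := card_union_add_card_inter M F
  rw [← hIdef] at h6
  have hF2 := hF.1.1
  have hadm : Adm S (M ∪ F) := by
    refine ⟨?_, by omega⟩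
    have := card_le_card (subset_union_right : F ⊆ M ∪ F)
    omega
  have h7 := hF.2 (M ∪ F) hadm
  omega

end Pool.Agent.T6.H65.KP.ModINT
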