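import Pool.Agent.T6.H65.KP.Defs

set_option autoImplicit false

/-!
# Module KNH
-/

open scoped Pointwise
open Finset
open Pool.Agent.Helper549.Kneser

namespace Pool.Agent.T6.H65.KP.ModKNH

open Pool.Agent.T6.H65.KP

theorem stab_le_add {G : Type} [AddCommGroup G] [Fintype G] [DecidableEq G] (D C : Finset G) :
    stab C ≤ stab (D + C) := by
  intro g hg
  apply mem_stab_of_forall
  intro x hx
  obtain ⟨d, hd, c, hc, rfl⟩ := Finset.mem_add.1 hx
  rw [add_assoc]
  exact Finset.add_mem_add hd (stab_add hg hc)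

section

variable (bas : StmBAS) {G : Type} [AddCommGroup G] [Fintype G] [DecidableEq G]

include bas

theorem stab_le (h j : ℕ) (A : Finset G) (hj : j ≤ h) : stab (hs j A) ≤ stab (hs h A) := by
  have h1 := (bas G).2.1 (h - j) j A
  rw [Nat.sub_add_cancel hj] at h1
  rw [h1]
  exact stab_le_add _ _

theorem step (h j : ℕ) (A : Finset G) (hA : A.Nonempty) (hst : stab (hs h A) = ⊥)
    (hj : j + 1 ≤ h) : (hs j A).card + A.card ≤ (hs (j + 1) A).card + 1 := by
  have h1 : stab (hs j A + A) = ⊥ := by
    have h2 := stab_le bas h (j + 1) A hj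
    rw [hst] at h2
    exact le_bot_iff.1 h2
  exact kneser_aperiodic (hs j A) A ((bas G).2.2.2.2.1 j A hA) hA h1

theorem two (h : ℕ) (A : Finset G) (hA : A.Nonempty) (hst : stab (hs h A) = ⊥) :
    ∀ j, 1 ≤ j → j ≤ h → j * (A.card - 1) + 1 ≤ (hs j A).card := by
  intro j hj
  have hA1 : 1 ≤ A.card := hA.card_pos
  induction j, hj using Nat.le_induction with
  | base =>
    intro _
    rw [(bas G).2.2.1]
    omega
  | succ j hj ih =>
    intro hjh
    have h1 := ih (by omega)
    have h2 := step bas h j A hA hst hjh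
    have h3 : (j + 1) * (A.card - 1) = j * (A.card - 1) + (A.card - 1) := by ring
    omega

theorem three (h : ℕ) (A : Finset G) (hA : A.Nonempty) (hst : stab (hs h A) = ⊥) :
    ∀ j, 2 ≤ j → j ≤ h → (hs 2 A).card + (j - 2) * (A.card - 1) ≤ (hs j A).card := by
  intro j hj
  have hA1 : 1 ≤ A.card := hA.card_pos
  induction j, hj using Nat.le_induction with
  | base =>
    intro _
    simp
  | succ j hj ih =>
    intro hjh
    have h1 := ih (by omega)
    have h2 := step bas h j A hA hst hjh
    have h3 : (j + 1 - 2) * (A.card - 1) = (j - 2) * (A.card - 1) + (A.card - 1) := by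
      rw [show j + 1 - 2 = (j - 2) + 1 by omega]
      ring
    omega

end

/-- Module KNH. -/
theorem knh (bas : StmBAS) (hom : StmHOM) (quo : StmQUO) : StmKNH := by
  classical
  intro G _ _ _ h A hh hA
  refine ⟨?_, fun hst => two bas h A hA hst h hh le_rfl, fun hst h2 heq => ?_⟩
  · set H := stab (hs h A) with hH
    let _ : Fintype (G ⧸ H) := Fintype.ofFinite _
    obtain ⟨q1, -, -, -⟩ := quo G H A
    obtain ⟨q2, q3, -, -⟩ := quo G H (hs h A)
    have h1 : hs h (A.image (QuotientAddGroup.mk' H)) =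
        (hs h A).image (QuotientAddGroup.mk' H) := hom G (G ⧸ H) (QuotientAddGroup.mk' H) h A
    have h2 : stab (hs h (A.image (QuotientAddGroup.mk' H))) = ⊥ := by
      rw [h1]
      exact q3 hH.symm
    have h3 := two bas h (A.image (QuotientAddGroup.mk' H)) (hA.image _) h2 h hh le_rfl
    have h4 : hs h A + fs H = hs h A := add_fs_stab _ _ le_rfl
    rw [h4, ← h1] at q2
    have hpos : 1 ≤ (A.image (QuotientAddGroup.mk' H)).card := (hA.image _).card_pos
    rw [← q1]
    generalize (A.image (QuotientAddGroup.mk' H)).card = k at h3 hpos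
    generalize (hs h (A.image (QuotientAddGroup.mk' H))).card = s at h3 q2
    rw [← q2]
    obtain ⟨k', rfl⟩ : ∃ k', k = k' + 1 := ⟨k - 1, by omega⟩
    obtain ⟨h', rfl⟩ : ∃ h', h = h' + 1 := ⟨h - 1, by omega⟩
    simp only [Nat.add_sub_cancel] at h3 ⊢
    calc (h' + 1) * ((k' + 1) * (fs H).card) = ((h' + 1) * k' + 1 + h') * (fs H).card := by ring
      _ ≤ (s + h') * (fs H).card := Nat.mul_le_mul_right _ (by omega)
      _ = s * (fs H).card + h' * (fs H).card := by ring
  · have hA1 : 1 ≤ A.card := hA.card_pos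
    have h3 := three bas h A hA hst h h2 le_rfl
    have h4 := two bas h A hA hst 2 (by norm_num) h2
    have h5 : h * (A.card - 1) = (h - 2) * (A.card - 1) + 2 * (A.card - 1) := by
      rw [← Nat.add_mul, Nat.sub_add_cancel h2]
    have h6 : hs 2 A = A + A := (bas G).2.2.2.1 A
    have h7 := stab_le bas h 2 A h2
    rw [hst, h6] at h7
    rw [h6] at h3 h4
    refine ⟨by omega, le_bot_iff.1 h7⟩

end Pool.Agent.T6.H65.KP.ModKNH
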