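import Pool.Agent.T6.H65.KP.Defs

set_option autoImplicit false

/-!
# Module LOW
-/

open scoped Pointwise
open Finset
open Pool.Agent.Helper549.Kneser

namespace Pool.Agent.T6.H65.KP.ModLOW

open Pool.Agent.T6.H65.KP

/-- Module LOW. -/
theorem low (bas : StmBAS) (hom : StmHOM) (knh : StmKNH) (quo : StmQUO) (num : StmNUM) :
    StmLOW := by
  classical
  intro G _ _ _ h A hh hA hcond
  have hA1 : 1 ≤ A.card := hA.card_pos
  have hn : 0 < Fintype.card G := Fintype.card_pos
  obtain ⟨-, n2, -, n4⟩ := num (Fintype.card G) A.card h hh hA1 hn hcond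
  have hk1 := (knh G h A (by omega) hA).1
  have hsub : ∀ H : AddSubgroup G, A.card ≤ (A + fs H).card := by
    intro H
    apply Finset.card_le_card
    intro x hx
    have := Finset.add_mem_add hx (mem_fs.2 H.zero_mem : (0 : G) ∈ fs H)
    rwa [add_zero] at this
  have hfirst : h * (A.card - 1) + 1 ≤ (hs h A).card := by
    set H := stab (hs h A) with hH
    let _ : Fintype (G ⧸ H) := Fintype.ofFinite _
    obtain ⟨q1, -, -, q4⟩ := quo G H A
    have h1 := hsub H
    rw [← q1] at h1 hk1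
    have h2 := n4 (fs H).card (A.image (QuotientAddGroup.mk' H)).card
      ⟨Fintype.card (G ⧸ H), by rw [← q4]; ring⟩ h1
    omega
  refine ⟨hfirst, ?_⟩
  intro heq H _ _ hH
  obtain ⟨q1, -, q3, q4⟩ := quo G H A
  obtain ⟨r1, r2, -, -⟩ := quo G H (hs h A)
  rw [← hH] at hk1
  have h1 := hsub H
  have hd := fs_card_pos H
  have e1 : hs h (A.image (QuotientAddGroup.mk' H)) =
      (hs h A).image (QuotientAddGroup.mk' H) := hom G (G ⧸ H) (QuotientAddGroup.mk' H) h A
  have e2 : hs h A + fs H = hs h A := add_fs_stab _ _ (le_of_eq hH)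
  rw [e2, ← e1] at r1
  have hpos : 1 ≤ (A.image (QuotientAddGroup.mk' H)).card := (hA.image _).card_pos
  have h2 : A.card ≤ (A.image (QuotientAddGroup.mk' H)).card * (fs H).card := by
    rw [q1]; exact h1
  have h3 := n4 (fs H).card (A.image (QuotientAddGroup.mk' H)).card
    ⟨Fintype.card (G ⧸ H), by rw [← q4]; ring⟩ h2
  have h4 := n2 (fs H).card (Fintype.card (G ⧸ H)) (A.image (QuotientAddGroup.mk' H)).card
    q4.symm hpos h2
  have hst : stab (hs h (A.image (QuotientAddGroup.mk' H))) = ⊥ := by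
    rw [e1]
    exact r2 hH.symm
  rw [heq] at hk1 r1
  rw [← q3]
  rw [← q1] at hk1 ⊢
  generalize (A.image (QuotientAddGroup.mk' H)).card = k at *
  generalize (hs h (A.image (QuotientAddGroup.mk' H))).card = s at *
  generalize (fs H).card = d at *
  obtain ⟨k', rfl⟩ : ∃ k', k = k' + 1 := ⟨k - 1, by omega⟩
  obtain ⟨h', rfl⟩ : ∃ h', h = h' + 1 := ⟨h - 1, by omega⟩
  obtain ⟨m', hm'⟩ : ∃ m', A.card = m' + 1 := ⟨A.card - 1, by omega⟩
  obtain ⟨d', rfl⟩ : ∃ d', d = d' + 1 := ⟨d - 1, by omega⟩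
  rw [hm'] at *
  simp only [Nat.add_sub_cancel] at *
  have h5 : (h' + 1) * ((k' + 1) * (d' + 1)) = (h' + 1) * (m' + 1) + h' * d' := by nlinarith
  refine ⟨h5, ?_, hst, h4 h5⟩
  have h6 : s * (d' + 1) = ((h' + 1) * k' + 1) * (d' + 1) := by nlinarith
  exact Nat.eq_of_mul_eq_mul_right (Nat.succ_pos d') h6

end Pool.Agent.T6.H65.KP.ModLOW
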