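import Pool.Agent.T6.H65.KP.Defs

/-! Module NUM: arithmetic. -/

set_option autoImplicit false

namespace Pool.Agent.T6.H65.KP.ModNUM

theorem num : StmNUM := by
  intro n m h hh hm hn hC
  refine ⟨?_, ?_, ?_, ?_⟩
  · intro n' k m' hn' hm' hmk d hd
    have h1 : (m - 1) % d = (m' - 1) % d := by
      obtain ⟨c, rfl⟩ := hd
      have : m - 1 = (m' - 1) + d * (k * c) := by
        rw [hmk]
        have : k * (d * c) = d * (k * c) := by ring
        omega
      rw [this, Nat.add_mul_mod_self_left]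
    rw [← h1]
    exact hC d (hd.trans hn')
  · intro d n' q hnd hq hmq heq e he
    have hd0 : 0 < d := by
      rcases Nat.eq_zero_or_pos d with rfl | hd
      · simp at hnd; omega
      · exact hd
    have hn'0 : 0 < n' := by
      rcases Nat.eq_zero_or_pos n' with rfl | hd
      · simp at hnd; omega
      · exact hd
    have he0 : 0 < e := Nat.pos_of_dvd_of_pos he hn'0
    have hde : d * e ∣ n := by
      obtain ⟨c, rfl⟩ := he
      exact ⟨c, by rw [hnd]; ring⟩
    obtain ⟨d', rfl⟩ : ∃ d', d = d' + 1 := ⟨d - 1, by omega⟩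
    obtain ⟨h', rfl⟩ : ∃ h', h = h' + 1 := ⟨h - 1, by omega⟩
    obtain ⟨m', rfl⟩ : ∃ m', m = m' + 1 := ⟨m - 1, by omega⟩
    obtain ⟨q', rfl⟩ : ∃ q', q = q' + 1 := ⟨q - 1, by omega⟩
    simp only [Nat.add_sub_cancel] at heq ⊢
    obtain ⟨t, ht⟩ : ∃ t, (q' + 1) * (d' + 1) = (m' + 1) + t := ⟨_, (Nat.add_sub_cancel' hmq).symm⟩
    have h1 : (h' + 1) * t = h' * d' := by
      rw [ht] at heq
      nlinarith
    have h2 : t ≤ d' := by
      by_contra hcon
      have : (h' + 1) * (d' + 1) ≤ (h' + 1) * t := Nat.mul_le_mul_left _ (by omega)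
      nlinarith
    obtain ⟨s, hs⟩ : ∃ s, d' = t + s := ⟨_, (Nat.add_sub_cancel' h2).symm⟩
    have h3 : (h' + 1) * s = d' := by
      have : (h' + 1) * (t + s) = (h' + 1) * d' := by rw [hs]
      nlinarith
    have h4 : m' = q' * (d' + 1) + s := by
      have : (q' + 1) * (d' + 1) = q' * (d' + 1) + d' + 1 := by ring
      omega
    have hC' := hC _ hde
    rw [Nat.add_sub_cancel] at hC'
    have h5 : m' % ((d' + 1) * e) = (q' % e) * (d' + 1) + s := by
      have h6 : m' = ((q' % e) * (d' + 1) + s) + ((d' + 1) * e) * (q' / e) := by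
        have h7 : q' = e * (q' / e) + q' % e := (Nat.div_add_mod q' e).symm
        have h8 : q' * (d' + 1) = (e * (q' / e) + q' % e) * (d' + 1) := by rw [← h7]
        rw [h4, h8]
        ring
      rw [h6, Nat.add_mul_mod_self_left]
      apply Nat.mod_eq_of_lt
      have h9 : q' % e + 1 ≤ e := Nat.mod_lt _ he0
      have h10 : (q' % e + 1) * (d' + 1) ≤ e * (d' + 1) := Nat.mul_le_mul_right _ h9
      have h11 : (q' % e + 1) * (d' + 1) = (q' % e) * (d' + 1) + d' + 1 := by ring
      have h12 : e * (d' + 1) = (d' + 1) * e := by ring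
      omega
    rw [h5] at hC'
    have h13 : (h' + 1) * ((q' % e) * (d' + 1)) + d' ≤ (d' + 1) * e - 1 := by
      have : (h' + 1) * ((q' % e) * (d' + 1) + s) = (h' + 1) * ((q' % e) * (d' + 1)) + d' := by
        rw [mul_add, h3]
      omega
    obtain ⟨e', rfl⟩ : ∃ e', e = e' + 1 := ⟨e - 1, by omega⟩
    rw [Nat.add_sub_cancel]
    have h14 : (d' + 1) * (e' + 1) = (d' + 1) * e' + d' + 1 := by ring
    have h15 : (d' + 1) * ((h' + 1) * (q' % (e' + 1))) ≤ (d' + 1) * e' := by
      have : (d' + 1) * ((h' + 1) * (q' % (e' + 1))) =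
        (h' + 1) * ((q' % (e' + 1)) * (d' + 1)) := by ring
      omega
    exact Nat.le_of_mul_le_mul_left h15 (by omega)
  · intro h2 h3
    have := hC m ⟨2, by omega⟩
    rw [Nat.mod_eq_of_lt (by omega)] at this
    have h4 : 2 * (m - 1) ≤ h * (m - 1) := Nat.mul_le_mul_right _ hh
    omega
  · intro d k hd hmk
    have hd0 : 0 < d := Nat.pos_of_dvd_of_pos hd hn
    have h1 := hC d hd
    have h2 : (m - 1) = d * ((m - 1) / d) + (m - 1) % d := (Nat.div_add_mod _ _).symm
    set a := (m - 1) / d with ha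
    set r := (m - 1) % d with hr
    have h3 : a + 1 ≤ k := by
      by_contra hcon
      have : k ≤ a := by omega
      have : k * d ≤ a * d := Nat.mul_le_mul_right _ this
      have : a * d = d * a := by ring
      omega
    have h4 : h * ((a + 1) * d) ≤ h * (k * d) :=
      Nat.mul_le_mul_left _ (Nat.mul_le_mul_right _ h3)
    obtain ⟨h', rfl⟩ : ∃ h', h = h' + 1 := ⟨h - 1, by omega⟩
    rw [Nat.add_sub_cancel]
    have h5 : (h' + 1) * (m - 1) = (h' + 1) * (d * a) + (h' + 1) * r := by
      conv_lhs => rw [h2]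
      ring
    have h6 : (h' + 1) * ((a + 1) * d) = (h' + 1) * (d * a) + h' * d + d := by ring
    omega

end Pool.Agent.T6.H65.KP.ModNUM
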