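import Mathlib
import Pool.Agent.T6.H65.KP.Defs

/-! Module PRG (helper80) of project KP (helper65). -/

set_option autoImplicit false

open scoped Pointwise
open Finset
open Pool.Agent.Helper549.Kneser

namespace Pool.Agent.T6.H65.KP.ModPRG

section
variable {G : Type} [AddCommGroup G] [Fintype G] [DecidableEq G]

theorem mem_zm {g h : G} (hh : h ∈ AddSubgroup.zmultiples g) :
    ∃ j : ℕ, j < addOrderOf g ∧ j • g = h := by
  have := mem_zmultiples_iff_mem_range_addOrderOf.1 hh
  simpa using this

/-- the part with `⟨g⟩ = G` -/
theorem ap (A : Finset G) (g e : G) (he : e ∈ A) (hstep : ∀ a ∈ A, a ≠ e → a + g ∈ A)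
    (htop : AddSubgroup.zmultiples g = ⊤) (hne : A ≠ Finset.univ) : IsAP A := by
  have htop' : AddSubgroup.zmultiples (-g) = ⊤ := by rw [AddSubgroup.zmultiples_neg, htop]
  have hall : ∀ x : G, ∃ j : ℕ, j < addOrderOf (-g) ∧ e + j • (-g) = x := by
    intro x
    have h1 : x - e ∈ AddSubgroup.zmultiples (-g) := by rw [htop']; trivial
    obtain ⟨j, hj, hj2⟩ := mem_zm h1
    exact ⟨j, hj, by rw [hj2]; abel⟩
  have hex : ∃ j : ℕ, e + j • (-g) ∉ A := by
    by_contra hcon
    push Not at hcon
    apply hne
    ext x
    obtain ⟨j, -, rfl⟩ := hall x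
    exact iff_of_true (hcon j) (mem_univ _)
  obtain ⟨t, ht, hmin⟩ : ∃ t : ℕ, e + t • (-g) ∉ A ∧ ∀ j < t, e + j • (-g) ∈ A := by
    classical
    exact ⟨Nat.find hex, Nat.find_spec hex, fun j hj => not_not.1 (Nat.find_min hex hj)⟩
  have htN : t < addOrderOf (-g) := by
    obtain ⟨j, hj, hj2⟩ : ∃ j : ℕ, j < addOrderOf (-g) ∧ e + j • (-g) ∉ A := by
      obtain ⟨j, hj, hj2⟩ := hall (e + t • (-g))
      exact ⟨j, hj, by rw [hj2]; exact ht⟩
    by_contra hcon
    push Not at hcon
    exact hj2 (hmin j (by omega))
  have ht0 : 0 < t := by
    rcases Nat.eq_zero_or_pos t with h | h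
    · exfalso; apply ht; rw [h, zero_smul, add_zero]; exact he
    · exact h
  have hA : A = (range t).image (fun j => e + j • (-g)) := by
    ext a
    rw [mem_image]
    constructor
    · intro ha
      obtain ⟨j, hj, rfl⟩ := hall a
      by_cases hjt : j < t
      · exact ⟨j, mem_range.2 hjt, rfl⟩
      exfalso
      push Not at hjt
      have hdown : ∀ i : ℕ, i ≤ j - t → e + (j - i) • (-g) ∈ A := by
        intro i
        induction i with
        | zero => intro _; exact ha
        | succ i ih =>
          intro hi
          have h1 := ih (by omega)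
          have h2 : e + (j - i) • (-g) ≠ e := by
            intro hcon
            have h3 : (j - i) • (-g) = 0 := by
              have := congrArg (fun z => z - e) hcon
              simpa using this
            have h4 := addOrderOf_dvd_of_nsmul_eq_zero h3
            have h5 := Nat.le_of_dvd (by omega) h4
            omega
          have h3 := hstep _ h1 h2
          have h4 : j - i = (j - (i + 1)) + 1 := by omega
          rw [h4, add_smul, one_smul] at h3
          have h5 : e + ((j - (i + 1)) • (-g) + -g) + g = e + (j - (i + 1)) • (-g) := by abel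
          rwa [h5] at h3
      have h6 := hdown (j - t) le_rfl
      have h7 : j - (j - t) = t := by omega
      rw [h7] at h6
      exact ht h6
    · rintro ⟨j, hj, rfl⟩
      exact hmin j (mem_range.1 hj)
  have hcard : A.card = t := by
    rw [hA, card_image_of_injOn, card_range]
    intro i hi j hj hij
    have h1 : i • (-g) = j • (-g) := add_left_cancel hij
    have hi' : i < t := by simpa using hi
    have hj' : j < t := by simpa using hj
    exact nsmul_injOn_Iio_addOrderOf (Set.mem_Iio.2 (by omega)) (Set.mem_Iio.2 (by omega)) h1
  refine ⟨e, -g, ?_⟩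
  rw [hcard]
  exact hA

end

theorem prg : StmPRG := by
  intro G _ _ _ A g hA hg hc
  obtain ⟨E, hE⟩ : ∃ E, E = A.filter (fun a => a + g ∉ A) := ⟨_, rfl⟩
  have mE : ∀ x, x ∈ E ↔ x ∈ A ∧ x + g ∉ A := by
    intro x; rw [hE, mem_filter]
  have hEc : E.card ≤ 1 := by
    have h1 : A ∪ E.image (fun x => x + g) ⊆ A + {0, g} := by
      intro x hx
      rcases mem_union.1 hx with h | h
      · have := Finset.add_mem_add h (mem_insert_self (0 : G) {g})
        rwa [add_zero] at this
      · obtain ⟨y, hy, rfl⟩ := mem_image.1 h
        exact Finset.add_mem_add ((mE y).1 hy).1 (by simp)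
    have h2 : Disjoint A (E.image (fun x => x + g)) := by
      rw [disjoint_left]
      intro x hx hx2
      obtain ⟨y, hy, rfl⟩ := mem_image.1 hx2
      exact ((mE y).1 hy).2 hx
    have h3 := card_le_card h1
    rw [card_union_of_disjoint h2, card_image_of_injective _ (add_left_injective g)] at h3
    omega
  rcases Nat.le_one_iff_eq_zero_or_eq_one.1 hEc with h0 | h1
  · rw [card_eq_zero] at h0
    have hst : g ∈ stab A := by
      apply mem_stab_of_forall
      intro a ha
      by_contra hcon
      have : a ∈ E := (mE a).2 ⟨ha, hcon⟩
      rw [h0] at this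
      simp at this
    have hle : AddSubgroup.zmultiples g ≤ stab A := AddSubgroup.zmultiples_le_of_mem hst
    constructor
    · rw [add_fs_stab A _ hle]
      have := fs_card_pos (AddSubgroup.zmultiples g)
      omega
    · intro htop hne
      exfalso
      apply hne
      obtain ⟨a, ha⟩ := hA
      ext x
      have h2 : x - a ∈ stab A := by
        apply hle
        rw [htop]
        trivial
      have h3 := stab_add h2 ha
      have h4 : a + (x - a) = x := by abel
      rw [h4] at h3
      simp [h3]
  · obtain ⟨e, he⟩ := card_eq_one.1 h1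
    have heA : e ∈ A ∧ e + g ∉ A := (mE e).1 (by rw [he]; exact mem_singleton_self e)
    have hstep : ∀ a ∈ A, a ≠ e → a + g ∈ A := by
      intro a ha hae
      by_contra hcon
      have : a ∈ E := (mE a).2 ⟨ha, hcon⟩
      rw [he, mem_singleton] at this
      exact hae this
    constructor
    · obtain ⟨X, hX⟩ : ∃ X, X = (fs (AddSubgroup.zmultiples g)).image (fun h => e + h) := ⟨_, rfl⟩
      have hXc : X.card = (fs (AddSubgroup.zmultiples g)).card := by
        rw [hX, card_image_of_injective _ (add_right_injective e)]
      have hsub : A + fs (AddSubgroup.zmultiples g) ⊆ A ∪ X := by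
        intro y hy
        obtain ⟨a, ha, h, hh, rfl⟩ := mem_add.1 hy
        rw [mem_fs] at hh
        by_cases hae : a - e ∈ AddSubgroup.zmultiples g
        · apply mem_union_right
          rw [hX, mem_image]
          exact ⟨a - e + h, mem_fs.2 (AddSubgroup.add_mem _ hae hh), by abel⟩
        · apply mem_union_left
          obtain ⟨j, -, rfl⟩ := mem_zm hh
          clear hh hy
          induction j with
          | zero => rw [zero_smul, add_zero]; exact ha
          | succ j ih =>
            have h2 : a + j • g ≠ e := by
              intro hcon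
              apply hae
              have h3 : a - e = -(j • g) := by rw [← hcon]; abel
              rw [h3]
              exact AddSubgroup.neg_mem _ (AddSubgroup.nsmul_mem_zmultiples g j)
            have h3 := hstep _ ih h2
            rw [add_smul, one_smul, ← add_assoc]
            exact h3
      have h2 := card_le_card hsub
      have h3 := card_union_add_card_inter A X
      have h4 : 0 < (A ∩ X).card := by
        apply card_pos.2
        refine ⟨e, mem_inter.2 ⟨heA.1, ?_⟩⟩
        rw [hX, mem_image]
        exact ⟨0, mem_fs.2 (AddSubgroup.zero_mem _), add_zero e⟩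
      omega
    · intro htop hne
      exact ap A g e heA.1 hstep htop hne

end Pool.Agent.T6.H65.KP.ModPRG
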