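import Pool.Agent.T6.H65.KP.Defs

/-! Module QUO: cards and cosets. -/

set_option autoImplicit false

open scoped Pointwise
open Finset
open Pool.Agent.Helper549.Kneser

namespace Pool.Agent.T6.H65.KP.ModQUO

theorem card_fs {G : Type} [AddCommGroup G] [Fintype G] (H : AddSubgroup G) :
    (fs H).card = Nat.card H := by
  classical
  rw [Nat.card_eq_fintype_card]
  exact (Fintype.card_of_subtype (p := fun x => x ∈ H) (fs H) fun x => mem_fs).symm

theorem quo : StmQUO := by
  intro G _ _ _ H _ _ A
  have hmk : ∀ x y : G, QuotientAddGroup.mk' H x = QuotientAddGroup.mk' H y ↔ -x + y ∈ H := by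
    intro x y
    exact QuotientAddGroup.eq
  refine ⟨?_, ?_, card_fs H, ?_⟩
  · have h1 : ∀ x ∈ A + fs H, QuotientAddGroup.mk' H x ∈ A.image (QuotientAddGroup.mk' H) := by
      intro x hx
      obtain ⟨a, ha, k, hk, rfl⟩ := Finset.mem_add.1 hx
      refine Finset.mem_image.2 ⟨a, ha, ?_⟩
      rw [hmk]
      simpa using mem_fs.1 hk
    rw [Finset.card_eq_sum_card_fiberwise h1]
    rw [Finset.sum_const_nat (m := (fs H).card)]
    intro y hy
    obtain ⟨a, ha, rfl⟩ := Finset.mem_image.1 hy
    have h2 : (A + fs H).filter (fun x => QuotientAddGroup.mk' H x = QuotientAddGroup.mk' H a) =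
        (fs H).image (fun k => a + k) := by
      ext x
      rw [Finset.mem_filter, Finset.mem_image]
      constructor
      · rintro ⟨-, hx⟩
        refine ⟨-a + x, mem_fs.2 ((hmk a x).1 hx.symm), by simp⟩
      · rintro ⟨k, hk, rfl⟩
        refine ⟨Finset.add_mem_add ha hk, ?_⟩
        rw [eq_comm, hmk]
        simpa using mem_fs.1 hk
    rw [h2, Finset.card_image_of_injective _ (add_right_injective a)]
  · intro hst
    rw [eq_bot_iff]
    intro g' hg'
    obtain ⟨g, rfl⟩ := QuotientAddGroup.mk'_surjective H g'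
    have hg : g ∈ stab A := by
      refine mem_stab_of_forall fun x hx => ?_
      have h1 : QuotientAddGroup.mk' H x + QuotientAddGroup.mk' H g ∈
          A.image (QuotientAddGroup.mk' H) :=
        stab_add hg' (Finset.mem_image_of_mem _ hx)
      rw [← map_add] at h1
      obtain ⟨a, ha, h2⟩ := Finset.mem_image.1 h1
      rw [hmk] at h2
      have h3 : -a + (x + g) ∈ stab A := by rw [hst]; exact h2
      have := stab_add h3 ha
      simpa using this
    rw [hst] at hg
    rw [AddSubgroup.mem_bot]
    exact (QuotientAddGroup.eq_zero_iff g).2 hg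
  · rw [card_fs, ← Nat.card_eq_fintype_card, ← Nat.card_eq_fintype_card]
    exact (AddSubgroup.card_eq_card_quotient_mul_card_addSubgroup H).symm

end Pool.Agent.T6.H65.KP.ModQUO
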