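import Pool.Agent.T6.H65.KP.Defs

set_option autoImplicit false

open scoped Pointwise
open Finset
open Pool.Agent.Helper549.Kneser

namespace Pool.Agent.T6.H65.KP.ModRHO

/-- the size of a preimage -/
theorem card_pre (quo : StmQUO) {G : Type} [AddCommGroup G] [Fintype G] [DecidableEq G]
    (H : AddSubgroup G) [Fintype (G ⧸ H)] [DecidableEq (G ⧸ H)] (T : Finset (G ⧸ H)) :
    (univ.filter (fun x : G => QuotientAddGroup.mk' H x ∈ T)).card = T.card * (fs H).card := by
  have h1 := (quo G H (univ.filter (fun x : G => QuotientAddGroup.mk' H x ∈ T))).1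
  have h2 : (univ.filter (fun x : G => QuotientAddGroup.mk' H x ∈ T)).image
      (QuotientAddGroup.mk' H) = T := by
    ext y
    rw [mem_image]
    constructor
    · rintro ⟨x, hx, rfl⟩
      exact (mem_filter.mp hx).2
    · intro hy
      obtain ⟨x, rfl⟩ := QuotientAddGroup.mk'_surjective H y
      exact ⟨x, mem_filter.mpr ⟨mem_univ _, hy⟩, rfl⟩
  have h3 : univ.filter (fun x : G => QuotientAddGroup.mk' H x ∈ T) + fs H =
      univ.filter (fun x : G => QuotientAddGroup.mk' H x ∈ T) := by
    apply add_fs_stab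
    intro g hg x
    have e : QuotientAddGroup.mk' H (x + g) = QuotientAddGroup.mk' H x := by
      rw [map_add]
      have : QuotientAddGroup.mk' H g = 0 := by
        rw [QuotientAddGroup.mk'_apply, QuotientAddGroup.eq_zero_iff]
        exact hg
      rw [this, add_zero]
    rw [mem_filter, mem_filter, e]
    simp
  rw [h2, h3] at h1
  exact h1.symm

theorem rho (bas : StmBAS) (hom : StmHOM) (quo : StmQUO) (low : StmLOW) (upp : StmUPP)
    (sbg : StmSBG) : StmRHO := by
  classical
  intro G _ _ h m hh hm hmG
  have hsum : ∀ A : Finset G, sumset h A = hs h A := fun A => (bas G).1 h A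
  constructor
  · intro hrho
    by_contra hcon
    unfold CondM at hcon
    push Not at hcon
    obtain ⟨d, hdn, hd⟩ := hcon
    have hn0 : 0 < Fintype.card G := by omega
    have hd0 : 0 < d := Nat.pos_of_dvd_of_pos hdn hn0
    obtain ⟨H, hH⟩ := sbg G d hdn
    obtain ⟨-, -, hq3, hq4⟩ := quo G H (∅ : Finset G)
    rw [hq3, hH] at hq4
    set r := (m - 1) % d with hr
    set q := (m - 1) / d with hq
    have hdiv : d * q + r = m - 1 := Nat.div_add_mod (m - 1) d
    have hqn : q + 1 ≤ Fintype.card (G ⧸ H) := by
      have : q < Fintype.card (G ⧸ H) := by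
        rw [hq]
        apply Nat.div_lt_of_lt_mul
        rw [mul_comm, hq4]
        omega
      omega
    obtain ⟨A', hA', hA'2⟩ := upp (G ⧸ H) h (q + 1) (by omega) (Nat.le_add_left 1 q) hqn
    have hP := card_pre quo H A'
    rw [hq3, hH, hA'] at hP
    have hrd : r < d := Nat.mod_lt _ hd0
    have hmP : m ≤ (univ.filter (fun x : G => QuotientAddGroup.mk' H x ∈ A')).card := by
      rw [hP]
      have : (q + 1) * d = d * q + d := by ring
      omega
    obtain ⟨A, hAP, hAm⟩ := exists_subset_card_eq hmP
    have hAimg : A.image (QuotientAddGroup.mk' H) ⊆ A' := by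
      intro y hy
      rw [mem_image] at hy
      obtain ⟨x, hx, rfl⟩ := hy
      exact (mem_filter.mp (hAP hx)).2
    have hsub : hs h A ⊆ univ.filter (fun x : G => QuotientAddGroup.mk' H x ∈ hs h A') := by
      intro x hx
      rw [mem_filter]
      refine ⟨mem_univ _, ?_⟩
      have h1 : QuotientAddGroup.mk' H x ∈ (hs h A).image (QuotientAddGroup.mk' H) :=
        mem_image_of_mem _ hx
      rw [← hom G (G ⧸ H) (QuotientAddGroup.mk' H) h A] at h1
      exact (bas (G ⧸ H)).2.2.2.2.2.1 h _ _ hAimg h1
    have hcard := card_le_card hsub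
    rw [card_pre quo H (hs h A'), hq3, hH] at hcard
    have hle : KP.rho G m h ≤ (hs h A).card := by
      apply Nat.sInf_le
      exact ⟨A, hAm, by rw [hsum]⟩
    rw [hrho] at hle
    have h5 : (hs h A').card * d ≤ (h * (q + 1 - 1) + 1) * d := Nat.mul_le_mul_right d hA'2
    have h6 : (h * (q + 1 - 1) + 1) * d = h * (d * q) + d := by
      rw [Nat.add_sub_cancel]; ring
    have h7 : h * (m - 1) = h * (d * q) + h * r := by
      rw [← hdiv]; ring
    omega
  · intro hC
    obtain ⟨A, hA, hA2⟩ := upp G h m (by omega) hm hmG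
    have hlow : ∀ B : Finset G, B.card = m → h * (m - 1) + 1 ≤ (hs h B).card := by
      intro B hB
      have hBn : B.Nonempty := card_pos.mp (by omega)
      have := (low G h B hh hBn (by rw [hB]; exact hC)).1
      rwa [hB] at this
    have hmem : h * (m - 1) + 1 ∈
        {k | ∃ A : Finset G, A.card = m ∧ (sumset h A).card = k} := by
      refine ⟨A, hA, ?_⟩
      rw [hsum]
      exact le_antisymm hA2 (hlow A hA)
    apply le_antisymm
    · exact Nat.sInf_le hmem
    · obtain ⟨B, hB, hB2⟩ := Nat.sInf_mem (⟨_, hmem⟩ :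
        {k | ∃ A : Finset G, A.card = m ∧ (sumset h A).card = k}.Nonempty)
      rw [hsum] at hB2
      have := hlow B hB
      rw [hB2] at this
      exact this

end Pool.Agent.T6.H65.KP.ModRHO
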