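import Pool.Agent.T6.H65.KP.Defs

/-!
Project KP (MP_4c924c_co), module SBG: subgroups of every order dividing the group order.
-/

set_option autoImplicit false

open scoped Pointwise

namespace Pool.Agent.T6.H65.KP.ModSBG

theorem aux (n : ℕ) : ∀ (G : Type) [AddCommGroup G] [Finite G], Nat.card G = n → ∀ d, d ∣ n →
    ∃ H : AddSubgroup G, Nat.card H = d := by
  induction n using Nat.strong_induction_on with
  | _ n ih =>
    intro G _ _ hG d hd
    by_cases h1 : d = 1
    · exact ⟨⊥, by rw [h1]; simp⟩
    have hp : (d.minFac).Prime := Nat.minFac_prime h1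
    have _i : Fact (d.minFac).Prime := ⟨hp⟩
    have hpn : d.minFac ∣ Nat.card G := by rw [hG]; exact (Nat.minFac_dvd d).trans hd
    obtain ⟨x, hx⟩ := exists_prime_addOrderOf_dvd_card' (G := G) d.minFac hpn
    set N := AddSubgroup.zmultiples x with hN
    have hNc : Nat.card N = d.minFac := by rw [hN, Nat.card_zmultiples, hx]
    have hcard := AddSubgroup.card_eq_card_quotient_mul_card_addSubgroup N
    rw [hNc, hG] at hcard
    obtain ⟨d', hd'⟩ := Nat.minFac_dvd d
    have hpos : 0 < d.minFac := hp.pos
    have hnpos : 0 < n := by rw [← hG]; exact Nat.card_pos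
    have hqpos : 0 < Nat.card (G ⧸ N) := Nat.card_pos
    have hdd : d' ∣ Nat.card (G ⧸ N) := by
      have h2 : d.minFac * d' ∣ d.minFac * Nat.card (G ⧸ N) := by
        rw [← hd', mul_comm _ (Nat.card (G ⧸ N)), ← hcard]
        exact hd
      exact Nat.dvd_of_mul_dvd_mul_left hpos h2
    have hlt : Nat.card (G ⧸ N) < n := by
      rw [hcard]
      exact lt_mul_of_one_lt_right hqpos hp.one_lt
    obtain ⟨H', hH'⟩ := ih _ hlt (G ⧸ N) rfl d' hdd
    refine ⟨H'.comap (QuotientAddGroup.mk' N), ?_⟩
    have e1 := (H'.comap (QuotientAddGroup.mk' N)).card_mul_index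
    have e2 := H'.card_mul_index
    rw [AddSubgroup.index_comap_of_surjective _ (QuotientAddGroup.mk'_surjective N), hG, hcard,
      ← e2, hH'] at e1
    have hidx : 0 < H'.index := Nat.pos_of_ne_zero AddSubgroup.index_ne_zero_of_finite
    have e3 : Nat.card (H'.comap (QuotientAddGroup.mk' N)) * H'.index =
        (d.minFac * d') * H'.index := by
      rw [e1]; ring
    rw [Nat.eq_of_mul_eq_mul_right hidx e3, ← hd']

theorem sbg : StmSBG := by
  intro G _ _ d hd
  exact aux (Nat.card G) G rfl d (by rw [Nat.card_eq_fintype_card]; exact hd)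

end Pool.Agent.T6.H65.KP.ModSBG
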