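import Pool.Agent.T6.H65.KP.Defs

/-!
# KP, module SCN (MP_4c924c_co)
-/

set_option autoImplicit false

open scoped Pointwise
open Finset

namespace Pool.Agent.T6.H65.KP.ModSCN

variable {G : Type} [AddCommGroup G] [Fintype G] [DecidableEq G]

/-- translate of `M` by `x` -/
def tr (M : Finset G) (x : G) : Finset G := M.image (fun m => x + m)

theorem tr_card (M : Finset G) (x : G) : (tr M x).card = M.card :=
  Finset.card_image_of_injective _ (add_right_injective x)

theorem tr_sub {M X : Finset G} {x : G} (hx : x ∈ X) : tr M x ⊆ X + M := by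
  intro z hz
  obtain ⟨m, hm, rfl⟩ := Finset.mem_image.1 hz
  exact Finset.add_mem_add hx hm

theorem tr_inter {M : Finset G} (hM : Sid M) {x y : G} (hxy : x ≠ y) :
    (tr M x ∩ tr M y).card ≤ 1 := by
  have h1 : tr M x ∩ tr M y ⊆ (M ∩ M.image (fun z => z + (y - x))).image (fun z => x + z) := by
    intro z hz
    obtain ⟨hz1, hz2⟩ := Finset.mem_inter.1 hz
    obtain ⟨m, hm, rfl⟩ := Finset.mem_image.1 hz1
    obtain ⟨m', hm', he⟩ := Finset.mem_image.1 hz2
    refine Finset.mem_image.2 ⟨m, Finset.mem_inter.2 ⟨hm, Finset.mem_image.2 ⟨m', hm', ?_⟩⟩, rfl⟩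

    have : m = y + m' - x := by rw [he]; abel
    rw [this]; abel
  refine (Finset.card_le_card h1).trans (Finset.card_image_le.trans ?_)
  exact hM (y - x) (sub_ne_zero.2 hxy.symm)

theorem scn : StmSCN := by
  intro G _ _ _ M X hM
  classical
  have two : ∀ x y : G, x ≠ y → 2 * M.card ≤ (tr M x ∪ tr M y).card + 1 := by
    intro x y hxy
    have h1 := Finset.card_union_add_card_inter (tr M x) (tr M y)
    have h2 := tr_inter hM hxy
    rw [tr_card, tr_card] at h1
    omega
  constructor
  · intro hX
    obtain ⟨x, hx, y, hy, hxy⟩ := Finset.one_lt_card.1 hX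
    have h1 := two x y hxy
    have h2 : (tr M x ∪ tr M y).card ≤ (X + M).card :=
      Finset.card_le_card (Finset.union_subset (tr_sub hx) (tr_sub hy))
    omega
  · intro hX
    obtain ⟨x, hx, y, hy, z, hz, hxy, hxz, hyz⟩ := Finset.two_lt_card.1 hX
    have h1 := two x y hxy
    have h2 := Finset.card_union_add_card_inter (tr M x ∪ tr M y) (tr M z)
    have h3 : ((tr M x ∪ tr M y) ∩ tr M z).card ≤ 2 := by
      rw [Finset.union_inter_distrib_right]
      refine (Finset.card_union_le _ _).trans ?_
      have := tr_inter hM hxz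
      have := tr_inter hM hyz
      omega
    have h4 : (tr M x ∪ tr M y ∪ tr M z).card ≤ (X + M).card :=
      Finset.card_le_card (Finset.union_subset
        (Finset.union_subset (tr_sub hx) (tr_sub hy)) (tr_sub hz))
    rw [tr_card] at h2
    omega

end Pool.Agent.T6.H65.KP.ModSCN
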