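import Mathlib
import Pool.Agent.T6.H65.KP.Defs

/-! Module SID (helper80) of project KP (helper65). -/

set_option autoImplicit false

open scoped Pointwise
open Finset
open Pool.Agent.Helper549.Kneser

namespace Pool.Agent.T6.H65.KP.ModSID

section
variable {G : Type} [AddCommGroup G] [Fintype G] [DecidableEq G]

theorem card_tr (X : Finset G) (g : G) : (X.image (fun x => x + g)).card = X.card :=
  card_image_of_injective _ (add_left_injective g)

theorem add_tr (X S : Finset G) (g : G) :
    X.image (fun x => x + g) + S = (X + S).image (fun x => x + g) := by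
  ext y
  simp only [mem_add, mem_image]
  constructor
  · rintro ⟨a, ⟨x, hx, rfl⟩, s, hs, rfl⟩
    exact ⟨x + s, ⟨x, hx, s, hs, rfl⟩, by abel⟩
  · rintro ⟨b, ⟨x, hx, s, hs, rfl⟩, rfl⟩
    exact ⟨x + g, ⟨x, hx, rfl⟩, s, hs, by abel⟩

theorem frag_tr (S X : Finset G) (g : G) (h : Frag S X) : Frag S (X.image (fun x => x + g)) := by
  have c1 := card_tr X g
  have c2 : (X.image (fun x => x + g) + S).card = (X + S).card := by rw [add_tr, card_tr]
  obtain ⟨⟨h1, h2⟩, h3⟩ := h
  refine ⟨⟨by omega, by omega⟩, fun Y hY => ?_⟩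
  have := h3 Y hY
  omega

end

theorem sid (int : StmINT) : StmSID := by
  intro G _ _ _ S M h0 hM
  by_cases hS : Sid M
  · exact Or.inr hS
  left
  unfold Sid at hS
  push Not at hS
  obtain ⟨g, hg, hc⟩ := hS
  have key : ∀ a : G, 2 ≤ (M ∩ M.image (fun x => x + a)).card → M = M.image (fun x => x + a) := by
    intro a ha
    apply eq_of_subset_of_card_le (int G S _ M hM (frag_tr S M a hM.1) ha)
    rw [card_tr]
  have hMg := key g hc
  have hgP : g ∈ stab M := by
    apply mem_stab_of_forall
    intro x hx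
    rw [hMg]
    exact mem_image_of_mem _ hx
  have hfs : fs (stab M) ⊆ M := by
    intro p hp
    have := stab_add (mem_fs.1 hp) h0
    rwa [zero_add] at this
  have h2 : 2 ≤ (fs (stab M)).card := by
    have : ({0, g} : Finset G) ⊆ fs (stab M) := by
      intro x hx
      rw [mem_insert, mem_singleton] at hx
      rcases hx with rfl | rfl
      · exact mem_fs.2 (stab M).zero_mem
      · exact mem_fs.2 hgP
    have h3 := card_le_card this
    rwa [card_pair (Ne.symm hg)] at h3
  refine ⟨stab M, Subset.antisymm ?_ hfs⟩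
  intro a ha
  have hsub : fs (stab M) ⊆ M ∩ M.image (fun x => x + -a) := by
    intro p hp
    refine mem_inter.2 ⟨hfs hp, mem_image.2 ⟨a + p, stab_add (mem_fs.1 hp) ha, by abel⟩⟩
  have hMa := key (-a) (h2.trans (card_le_card hsub))
  apply mem_fs.2
  apply mem_stab_of_forall
  intro x hx
  rw [hMa] at hx
  obtain ⟨y, hy, rfl⟩ := mem_image.1 hx
  have e : y + -a + a = y := by abel
  rw [e]
  exact hy

end Pool.Agent.T6.H65.KP.ModSID
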