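import Pool.Agent.T6.H65.KP.Defs

/-! Module SK (helper24): Scherk-Kemperman. -/

set_option autoImplicit false

open scoped Pointwise
open Finset
open Pool.Agent.Helper549.Kneser

namespace Pool.Agent.T6.H65.KP.ModSK

variable {G : Type} [AddCommGroup G] [Fintype G] [DecidableEq G]

theorem card_sum_ge (H : AddSubgroup G) (A : Finset G) (h0 : (0 : G) ∈ A) :
    A.card + (fs H).card ≤ (A + fs H).card + (A ∩ fs H).card := by
  have h1 : (A \ fs H) ∪ fs H ⊆ A + fs H := by
    intro x hx
    rcases Finset.mem_union.1 hx with hx | hx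
    · have := Finset.add_mem_add (Finset.mem_sdiff.1 hx).1 (mem_fs.2 H.zero_mem)
      rwa [add_zero] at this
    · have := Finset.add_mem_add h0 hx
      rwa [zero_add] at this
  have h2 : ((A \ fs H) ∪ fs H).card = (A \ fs H).card + (fs H).card :=
    Finset.card_union_of_disjoint Finset.sdiff_disjoint
  have h3 : (A \ fs H).card + (A ∩ fs H).card = A.card := Finset.card_sdiff_add_card_inter A (fs H)
  have h4 := Finset.card_le_card h1
  omega

theorem sk : StmSK := by
  intro G _ _ _ A B hA hB hAB
  set H := stab (A + B) with hH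
  have hk := kneser' A B ⟨0, hA⟩ ⟨0, hB⟩
  rw [← hH] at hk
  have h1 := card_sum_ge H A hA
  have h2 := card_sum_ge H B hB
  have h3 : (A ∩ fs H).card + (B ∩ fs H).card ≤ (fs H).card + 1 := by
    have hn : ((B ∩ fs H).image (fun x => -x)).card = (B ∩ fs H).card :=
      Finset.card_image_of_injective _ neg_injective
    have hi : ((A ∩ fs H) ∩ (B ∩ fs H).image (fun x => -x)).card ≤ 1 := by
      rw [Finset.card_le_one]
      have : ∀ x ∈ (A ∩ fs H) ∩ (B ∩ fs H).image (fun x => -x), x = 0 := by
        intro x hx
        rw [Finset.mem_inter, Finset.mem_image] at hx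
        obtain ⟨h5, b, hb, h6⟩ := hx
        refine hAB x (Finset.mem_inter.1 h5).1 b (Finset.mem_inter.1 hb).1 ?_
        rw [← h6]
        simp
      intro a ha b hb
      rw [this a ha, this b hb]
    have hu : (A ∩ fs H) ∪ (B ∩ fs H).image (fun x => -x) ⊆ fs H := by
      intro x hx
      rcases Finset.mem_union.1 hx with hx | hx
      · exact (Finset.mem_inter.1 hx).2
      · rw [Finset.mem_image] at hx
        obtain ⟨b, hb, rfl⟩ := hx
        exact mem_fs.2 (H.neg_mem (mem_fs.1 (Finset.mem_inter.1 hb).2))
    have h5 := Finset.card_union_add_card_inter (A ∩ fs H) ((B ∩ fs H).image (fun x => -x))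
    have h6 := Finset.card_le_card hu
    omega
  omega

end Pool.Agent.T6.H65.KP.ModSK
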