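import Pool.Agent.T6.H65.KP.Defs

/-!
Project KP (MP_4c924c_co), module SKH: `h`-fold sumsets of sets with an `h`-extreme element.
-/

set_option autoImplicit false

open scoped Pointwise
open Finset

namespace Pool.Agent.T6.H65.KP.ModSKH

variable {G : Type} [AddCommGroup G] [Fintype G] [DecidableEq G]

theorem zero_mem_hs {A : Finset G} (h0 : (0 : G) ∈ A) (j : ℕ) : (0 : G) ∈ hs j A := by
  induction j with
  | zero => simp [hs]
  | succ n ih =>
    have := Finset.add_mem_add ih h0
    rw [add_zero] at this
    exact this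

theorem hs_le {A : Finset G} (h0 : (0 : G) ∈ A) {i j : ℕ} (hij : i ≤ j) : hs i A ⊆ hs j A := by
  induction j, hij using Nat.le_induction with
  | base => exact Finset.Subset.refl _
  | succ n _ ih =>
    refine ih.trans fun x hx => ?_
    have := Finset.add_mem_add hx h0
    rw [add_zero] at this
    exact this

theorem step (sk : StmSK) {A : Finset G} {h : ℕ} (hE : Ext h A 0) {j : ℕ} (hj : j < h) :
    (hs j A).card + A.card ≤ (hs (j + 1) A).card + 1 := by
  have h0 : (0 : G) ∈ A := hE.1
  refine sk G (hs j A) A (zero_mem_hs h0 j) h0 fun x hx b hb hxb => ?_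
  have hb0 : b = 0 := by
    refine hE.2 b hb ?_
    have h1 : h • (0 : G) - b = x := by
      rw [smul_zero, zero_sub]
      exact (eq_neg_of_add_eq_zero_left hxb).symm
    rw [h1]
    exact hs_le h0 (by omega) hx
  rw [hb0, add_zero] at hxb
  exact hxb

theorem steps (sk : StmSK) {A : Finset G} {h : ℕ} (hE : Ext h A 0) {i j : ℕ} (hij : i ≤ j)
    (hj : j ≤ h) : (hs i A).card + (j - i) * (A.card - 1) ≤ (hs j A).card := by
  induction j, hij using Nat.le_induction with
  | base => simp
  | succ n hn ih =>
    have h1 := ih (by omega)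
    have h2 := step sk hE (j := n) (by omega)
    have h3 : 1 ≤ A.card := Finset.card_pos.2 ⟨0, hE.1⟩
    have h4 : n + 1 - i = (n - i) + 1 := by omega
    rw [h4, add_mul, one_mul]
    omega

theorem zero_case (sk : StmSK) {A : Finset G} {h : ℕ} (h1 : 1 ≤ h) (hE : Ext h A 0) :
    h * (A.card - 1) + 1 ≤ (hs h A).card ∧
    (2 ≤ h → (hs h A).card = h * (A.card - 1) + 1 → (hs 2 A).card + 1 = 2 * A.card) := by
  have hpos : 1 ≤ A.card := Finset.card_pos.2 ⟨0, hE.1⟩
  have e0 : (hs 0 A).card = 1 := by simp [hs]
  have e1 := steps sk hE (i := 0) (j := h) (Nat.zero_le _) le_rfl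
  rw [e0, Nat.sub_zero] at e1
  refine ⟨by omega, fun h2 heq => ?_⟩
  have e2 := steps sk hE (i := 2) (j := h) h2 le_rfl
  have e3 := steps sk hE (i := 0) (j := 2) (Nat.zero_le _) h2
  rw [e0, Nat.sub_zero] at e3
  have e4 : h * (A.card - 1) = 2 * (A.card - 1) + (h - 2) * (A.card - 1) := by
    rw [← add_mul]
    congr 1
    omega
  omega

theorem skh (bas : StmBAS) (sk : StmSK) : StmSKH := by
  intro G _ _ _ h A a h1 hE
  obtain ⟨-, -, -, b2, -, -, b6, b7, -⟩ := bas G
  have hE' : Ext h (A.image (fun x => x + -a)) 0 := by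
    have := b7 h A (-a) a h1 hE
    rwa [add_neg_cancel] at this
  have hinj : ∀ c : G, Function.Injective fun x : G => x + c := fun c => add_left_injective c
  have c1 : (A.image (fun x => x + -a)).card = A.card :=
    Finset.card_image_of_injective _ (hinj _)
  have c2 : ∀ j, (hs j (A.image (fun x => x + -a))).card = (hs j A).card := fun j => by
    rw [b6]
    exact Finset.card_image_of_injective _ (hinj _)
  have key := zero_case sk h1 hE'
  rw [c1, c2, c2, b2] at key
  exact key

end Pool.Agent.T6.H65.KP.ModSKH
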