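import Pool.Agent.T6.H65.KP.SLCommon

/-!
# Project KP, module SLA: slices of a minimiser with aperiodic `h`-fold sumset
-/

set_option autoImplicit false
set_option linter.unusedSectionVars false

open scoped Pointwise
open Finset
open Pool.Agent.Helper549.Kneser
open Pool.Agent.T6.H65.KP.SLCommon

namespace Pool.Agent.T6.H65.KP.ModSLA

section
variable {G : Type} [AddCommGroup G] [Fintype G] [DecidableEq G]
variable {A A₀ : Finset G} {H : AddSubgroup G} {a : G}

theorem hs_mono (hA : A₀ ⊆ A) : ∀ j, hs j A₀ ⊆ hs j A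
  | 0 => subset_rfl
  | j + 1 => Finset.add_subset_add (hs_mono hA j) hA

theorem H1 (hA₀ : ∀ x, x ∈ A₀ ↔ x ∈ A ∧ x - a ∈ H)
    (hfull : ∀ b ∈ A, b ∉ A₀ → ∀ k ∈ H, b + k ∈ A) :
    ∀ (j : ℕ) (x : G), x ∈ hs j A → x ∈ hs j A₀ ∨ ∀ k ∈ H, x + k ∈ hs j A
  | 0, x, hx => Or.inl hx
  | j + 1, x, hx => by
    obtain ⟨y, hy, b, hb, rfl⟩ := Finset.mem_add.1 hx
    by_cases hb0 : b ∈ A₀
    · rcases H1 hA₀ hfull j y hy with h | h
      · exact Or.inl (Finset.mem_add.2 ⟨y, h, b, hb0, rfl⟩)
      · right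
        intro k hk
        exact Finset.mem_add.2 ⟨y + k, h k hk, b, hb, by abel⟩
    · right
      intro k hk
      exact Finset.mem_add.2 ⟨y, hy, b + k, hfull b hb hb0 k hk, by abel⟩

theorem hs0_sub (hA₀ : ∀ x, x ∈ A₀ ↔ x ∈ A ∧ x - a ∈ H) :
    ∀ (j : ℕ) (x : G), x ∈ hs j A₀ → x - j • a ∈ H
  | 0, x, hx => by
    have : x = 0 := Finset.mem_singleton.1 hx
    rw [this, zero_smul, sub_zero]
    exact H.zero_mem
  | j + 1, x, hx => by
    obtain ⟨y, hy, b, hb, rfl⟩ := Finset.mem_add.1 hx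
    have h1 := H.add_mem (hs0_sub hA₀ j y hy) ((hA₀ b).1 hb).2
    have e : y - j • a + (b - a) = y + b - (j + 1) • a := by
      rw [succ_nsmul]
      abel
    rwa [e] at h1

theorem hs_a (ha : a ∈ A₀) : ∀ j : ℕ, j • a ∈ hs j A₀
  | 0 => by
    rw [zero_smul]
    exact Finset.mem_singleton.2 rfl
  | j + 1 => by
    rw [succ_nsmul]
    exact Finset.add_mem_add (hs_a ha j) ha

/-- if the coset of `h a` is full, then the sumset is periodic -/
theorem notfull (hA₀ : ∀ x, x ∈ A₀ ↔ x ∈ A ∧ x - a ∈ H)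
    (hfull : ∀ b ∈ A, b ∉ A₀ → ∀ k ∈ H, b + k ∈ A) (h : ℕ) (hst : stab (hs h A) = ⊥)
    (hH : H ≠ ⊥) (x : G) (hx : x - h • a ∈ H) (hf : ∀ k ∈ H, x + k ∈ hs h A) : False := by
  apply hH
  rw [eq_bot_iff, ← hst]
  intro g hg
  apply mem_stab_of_forall
  intro y hy
  rcases H1 hA₀ hfull h y hy with h1 | h1
  · have h2 := hs0_sub hA₀ h y h1
    have h3 := hf (y - x + g) (by
      have := H.add_mem (H.sub_mem h2 hx) hg
      have e : y - h • a - (x - h • a) + g = y - x + g := by abel
      rwa [e] at this)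
    have e : x + (y - x + g) = y + g := by abel
    rwa [e] at h3
  · exact h1 g hg

/-- the parts of the conclusion on the `h`-fold sumset -/
theorem part2 (hom : StmHOM) (skh : StmSKH) (knh : StmKNH) (quo : StmQUO)
    (hA₀ : ∀ x, x ∈ A₀ ↔ x ∈ A ∧ x - a ∈ H) (ha : a ∈ A)
    (hfull : ∀ b ∈ A, b ∉ A₀ → ∀ k ∈ H, b + k ∈ A) (h : ℕ) (h2 : 2 ≤ h)
    (hst : stab (hs h A) = ⊥) (hcard : (hs h A).card = h * (A.card - 1) + 1) (hH : H ≠ ⊥) :
    stab (hs h A₀) = ⊥ ∧ (hs h A₀).card = h * (A₀.card - 1) + 1 ∧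
      ∀ c, Ext h A₀ c → Ext h A c := by
  have haA0 : a ∈ A₀ := (hA₀ a).2 ⟨ha, by rw [sub_self]; exact H.zero_mem⟩
  have hsub : A₀ ⊆ A := fun x hx => ((hA₀ x).1 hx).1
  obtain ⟨m, rfl⟩ : ∃ m, h = m + 1 := ⟨h - 1, by omega⟩
  -- mixed sums do not meet the coset of `h a`
  have mix : ∀ b ∈ A, ∀ y ∈ hs m A, y + b - (m + 1) • a ∈ H → b ∈ A₀ ∧ y ∈ hs m A₀ := by
    intro b hb y hy hyb
    have hb0 : b ∈ A₀ := by
      by_contra hb0
      exact notfull hA₀ hfull (m + 1) hst hH (y + b) hyb fun k hk =>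
        Finset.mem_add.2 ⟨y, hy, b + k, hfull b hb hb0 k hk, by abel⟩
    refine ⟨hb0, ?_⟩
    rcases H1 hA₀ hfull m y hy with h1 | h1
    · exact h1
    · exact (notfull hA₀ hfull (m + 1) hst hH (y + b) hyb fun k hk =>
        Finset.mem_add.2 ⟨y + k, h1 k hk, b, hb, by abel⟩).elim
  have hst0 : stab (hs (m + 1) A₀) = ⊥ := by
    rw [eq_bot_iff]
    intro g hg
    rw [← hst]
    have hgH : g ∈ H := by
      have h1 := stab_add hg (hs_a haA0 (m + 1))
      have h3 := hs0_sub hA₀ (m + 1) _ h1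
      rwa [add_sub_cancel_left] at h3
    apply mem_stab_of_forall
    intro y hy
    rcases H1 hA₀ hfull (m + 1) y hy with h1 | h1
    · exact hs_mono hsub _ (stab_add hg h1)
    · exact h1 g hgH
  refine ⟨hst0, ?_, ?_⟩
  · classical
    have : Fintype (G ⧸ H) := Fintype.ofFinite _
    have hext : Ext (m + 1) (A.image (QuotientAddGroup.mk' H)) ((QuotientAddGroup.mk' H) a) := by
      refine ⟨Finset.mem_image_of_mem _ ha, ?_⟩
      intro b' hb' hh
      obtain ⟨b, hb, rfl⟩ := Finset.mem_image.1 hb'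
      rw [show m + 1 - 1 = m from rfl, hom G (G ⧸ H) (QuotientAddGroup.mk' H) m A] at hh
      obtain ⟨y, hy, hyb⟩ := Finset.mem_image.1 hh
      have h1 : y + b - (m + 1) • a ∈ H := by
        rw [← QuotientAddGroup.eq_zero_iff]
        have : (QuotientAddGroup.mk' H) (y + b - (m + 1) • a) = 0 := by
          rw [map_sub, map_add, hyb, map_nsmul]
          abel
        exact this
      obtain ⟨h3, -⟩ := mix b hb y hy h1
      have h4 := ((hA₀ b).1 h3).2
      have h5 : (QuotientAddGroup.mk' H) (b - a) = 0 := (QuotientAddGroup.eq_zero_iff _).2 h4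
      rw [map_sub] at h5
      exact sub_eq_zero.1 h5
    have k1 := (skh (G ⧸ H) (m + 1) _ _ (by omega) hext).1
    have k2 := (knh G (m + 1) A₀ (by omega) ⟨a, haA0⟩).2.1 hst0
    rw [hom G (G ⧸ H) (QuotientAddGroup.mk' H) (m + 1) A] at k1
    have q1 := (quo G H A).1
    have q2 := (quo G H (hs (m + 1) A)).1
    -- the sumset outside of the coset
    have d1 : hs (m + 1) A = hs (m + 1) A₀ ∪ ((hs (m + 1) A + fs H) \ co H ((m + 1) • a)) := by
      ext x
      rw [Finset.mem_union, Finset.mem_sdiff, mem_co]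
      constructor
      · intro hx
        by_cases hxa : x - (m + 1) • a ∈ H
        · left
          obtain ⟨y, hy, b, hb, rfl⟩ := Finset.mem_add.1 hx
          obtain ⟨h3, h4⟩ := mix b hb y hy hxa
          exact Finset.mem_add.2 ⟨y, h4, b, h3, rfl⟩
        · exact Or.inr ⟨sub_add _ _ hx, hxa⟩
      · rintro (hx | ⟨hx, hxa⟩)
        · exact hs_mono hsub _ hx
        · obtain ⟨y, hy, k, hk, rfl⟩ := Finset.mem_add.1 hx
          rw [mem_fs] at hk
          rcases H1 hA₀ hfull (m + 1) y hy with h1 | h1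
          · exfalso
            apply hxa
            have h3 := H.add_mem (hs0_sub hA₀ (m + 1) y h1) hk
            have e : y - (m + 1) • a + k = y + k - (m + 1) • a := by abel
            rwa [e] at h3
          · exact h1 k hk
    have d2 : Disjoint (hs (m + 1) A₀) ((hs (m + 1) A + fs H) \ co H ((m + 1) • a)) := by
      rw [Finset.disjoint_left]
      intro x hx hx'
      exact (Finset.mem_sdiff.1 hx').2 (mem_co.2 (hs0_sub hA₀ (m + 1) x hx))
    have haa : (m + 1) • a ∈ hs (m + 1) A := hs_mono hsub _ (hs_a haA0 (m + 1))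
    have d3 := Finset.card_sdiff_of_subset (co_sub (H := H) haa)
    have d4 : (hs (m + 1) A).card = (hs (m + 1) A₀).card +
        ((hs (m + 1) A + fs H) \ co H ((m + 1) • a)).card := by
      conv_lhs => rw [d1]
      exact Finset.card_union_of_disjoint d2
    rw [d3, card_co, ← q2] at d4
    -- the set itself
    have f1 : A = A₀ ∪ ((A + fs H) \ co H a) := by
      ext x
      rw [Finset.mem_union, Finset.mem_sdiff, mem_co, hA₀]
      constructor
      · intro hx
        by_cases hxa : x - a ∈ H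
        · exact Or.inl ⟨hx, hxa⟩
        · exact Or.inr ⟨sub_add _ _ hx, hxa⟩
      · rintro (hx | ⟨hx, hxa⟩)
        · exact hx.1
        · obtain ⟨y, hy, k, hk, rfl⟩ := Finset.mem_add.1 hx
          rw [mem_fs] at hk
          refine hfull y hy (fun hy0 => hxa ?_) k hk
          have h3 := H.add_mem ((hA₀ y).1 hy0).2 hk
          have e : y - a + k = y + k - a := by abel
          rwa [e] at h3
    have f2 : Disjoint A₀ ((A + fs H) \ co H a) := by
      rw [Finset.disjoint_left]
      intro x hx hx'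
      exact (Finset.mem_sdiff.1 hx').2 (mem_co.2 ((hA₀ x).1 hx).2)
    have f3 := Finset.card_sdiff_of_subset (co_sub (H := H) ha)
    have f4 : A.card = A₀.card + ((A + fs H) \ co H a).card := by
      conv_lhs => rw [f1]
      exact Finset.card_union_of_disjoint f2
    rw [f3, card_co, ← q1] at f4
    -- arithmetic
    have p1 : 1 ≤ A₀.card := Finset.card_pos.2 ⟨a, haA0⟩
    have p2 : 1 ≤ (A.image (QuotientAddGroup.mk' H)).card :=
      Finset.card_pos.2 ⟨_, Finset.mem_image_of_mem _ ha⟩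
    have p3 : 1 ≤ ((hs (m + 1) A).image (QuotientAddGroup.mk' H)).card :=
      Finset.card_pos.2 ⟨_, Finset.mem_image_of_mem _ haa⟩
    obtain ⟨x1, hx1⟩ : ∃ x, A₀.card = x + 1 := ⟨A₀.card - 1, by omega⟩
    obtain ⟨x2, hx2⟩ : ∃ x, (A.image (QuotientAddGroup.mk' H)).card = x + 1 :=
      ⟨(A.image (QuotientAddGroup.mk' H)).card - 1, by omega⟩
    obtain ⟨x3, hx3⟩ : ∃ x, ((hs (m + 1) A).image (QuotientAddGroup.mk' H)).card = x + 1 :=
      ⟨((hs (m + 1) A).image (QuotientAddGroup.mk' H)).card - 1, by omega⟩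
    rw [hx1] at f4 k2 ⊢
    rw [hx2] at f4 k1
    rw [hx3] at d4 k1
    rw [Nat.add_sub_cancel] at k1 k2 ⊢
    have g1 : (x2 + 1) * (fs H).card - (fs H).card = x2 * (fs H).card := by
      rw [add_mul, one_mul, Nat.add_sub_cancel]
    have g2 : (x3 + 1) * (fs H).card - (fs H).card = x3 * (fs H).card := by
      rw [add_mul, one_mul, Nat.add_sub_cancel]
    rw [g1] at f4
    rw [g2] at d4
    have g3 : A.card - 1 = x1 + x2 * (fs H).card := by omega
    rw [hcard, g3] at d4
    have g4 : (m + 1) * x2 * (fs H).card ≤ x3 * (fs H).card :=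
      Nat.mul_le_mul_right _ (by omega)
    have g5 : (m + 1) * (x1 + x2 * (fs H).card) = (m + 1) * x1 + (m + 1) * x2 * (fs H).card := by
      ring
    rw [g5] at d4
    omega
  · rintro c ⟨hc1, hc2⟩
    refine ⟨hsub hc1, ?_⟩
    intro b hb hbc
    rw [show m + 1 - 1 = m from rfl] at hbc hc2
    have h1 : (m + 1) • c - b + b - (m + 1) • a ∈ H := by
      have := H.nsmul_mem ((hA₀ c).1 hc1).2 (m + 1)
      rw [nsmul_sub] at this
      rwa [sub_add_cancel]
    obtain ⟨h3, h4⟩ := mix b hb _ hbc h1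
    exact hc2 b h3 h4

end

theorem sla (bas : StmBAS) (hom : StmHOM) (_sk : StmSK) (skh : StmSKH) (knh : StmKNH)
    (quo : StmQUO) : StmSLA := by
  intro G _ _ _ h A H h2 hne hst hcard hH hAH
  obtain ⟨-, -, -, bas2, -⟩ := bas G
  obtain ⟨hAA, hstAA⟩ := (knh G h A (by omega) hne).2.2 hst h2 hcard
  have hn : 0 < (fs H).card := fs_card_pos H
  -- a small slice
  have hsmall : ∃ a ∈ A, 2 * (sl A H a).card ≤ (fs H).card := by
    by_contra hcon
    push Not at hcon
    apply hH
    rw [eq_bot_iff, ← hstAA]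
    intro g hg
    apply mem_stab_of_forall
    intro y hy
    obtain ⟨b, hb, c, hc, rfl⟩ := Finset.mem_add.1 hy
    by_cases hbc : b - c ∈ H
    · have h1 := hcon b hb
      obtain ⟨u, hu, v, hv, -, -, huv⟩ := pig (A := A) (H := H) (x := b) (y := b)
        (z := b + c + g) (by omega) (by
          have := H.sub_mem hg hbc
          have e : g - (b - c) = b + c + g - b - b := by abel
          rwa [e] at this)
      exact Finset.mem_add.2 ⟨u, hu, v, hv, huv⟩
    · obtain ⟨u, hu, v, hv, -, -, huv⟩ := pig (z := b + c + g) (holes hAH hb hc hbc) (by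
        have e : b + c + g - b - c = g := by abel
        rwa [e])
      exact Finset.mem_add.2 ⟨u, hu, v, hv, huv⟩
  obtain ⟨a, ha, hsa⟩ := hsmall
  -- sums that are not in the slice of `a` twice are full
  have full : ∀ p ∈ A, ∀ q ∈ A, ¬ (p - a ∈ H ∧ q - a ∈ H) → ∀ k ∈ H, p + q + k ∈ A + A := by
    intro b hb c hc hnot g hg
    by_cases hbc : b - c ∈ H
    · have hba : b - a ∉ H := by
        intro hba
        apply hnot
        refine ⟨hba, ?_⟩
        have := H.sub_mem hba hbc
        have e : b - a - (b - c) = c - a := by abel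
        rwa [e] at this
      have h1 := holes hAH hb ha hba
      obtain ⟨u, hu, v, hv, -, -, huv⟩ := pig (A := A) (H := H) (x := b) (y := b)
        (z := b + c + g) (by omega) (by
          have := H.sub_mem hg hbc
          have e : g - (b - c) = b + c + g - b - b := by abel
          rwa [e] at this)
      exact Finset.mem_add.2 ⟨u, hu, v, hv, huv⟩
    · obtain ⟨u, hu, v, hv, -, -, huv⟩ := pig (z := b + c + g) (holes hAH hb hc hbc) (by
        have e : b + c + g - b - c = g := by abel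
        rwa [e])
      exact Finset.mem_add.2 ⟨u, hu, v, hv, huv⟩
  -- uniqueness
  have uniq : ∀ b ∈ A, ∀ c ∈ A, b + c - (a + a) ∈ H → b - a ∈ H ∧ c - a ∈ H := by
    intro b hb c hc hbc
    by_contra hcon
    apply hH
    rw [eq_bot_iff, ← hstAA]
    intro g hg
    apply mem_stab_of_forall
    intro y hy
    obtain ⟨p, hp, q, hq, rfl⟩ := Finset.mem_add.1 hy
    by_cases hpq : p - a ∈ H ∧ q - a ∈ H
    · have h1 := full b hb c hc hcon (p + q - (b + c) + g) (by
        have h3 := H.add_mem (H.sub_mem (H.add_mem hpq.1 hpq.2) hbc) hg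
        have e : p - a + (q - a) - (b + c - (a + a)) + g = p + q - (b + c) + g := by abel
        rwa [e] at h3)
      have e : b + c + (p + q - (b + c) + g) = p + q + g := by abel
      rwa [e] at h1
    · exact full p hp q hq hpq g hg
  -- the slice of `a`
  have hA₀ : ∀ x, x ∈ sl A H a ↔ x ∈ A ∧ x - a ∈ H := fun x => mem_sl
  set A₀ := sl A H a with hA₀def
  have haA0 : a ∈ A₀ := (hA₀ a).2 ⟨ha, by rw [sub_self]; exact H.zero_mem⟩
  have hsub : A₀ ⊆ A := fun x hx => ((hA₀ x).1 hx).1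
  have hA00 : ∀ x ∈ A₀ + A₀, x - (a + a) ∈ H := by
    intro x hx
    obtain ⟨u, hu, v, hv, rfl⟩ := Finset.mem_add.1 hx
    have := H.add_mem ((hA₀ u).1 hu).2 ((hA₀ v).1 hv).2
    have e : u - a + (v - a) = u + v - (a + a) := by abel
    rwa [e] at this
  have hst0 : stab (A₀ + A₀) = ⊥ := by
    rw [eq_bot_iff]
    intro g hg
    rw [← hstAA]
    have hgH : g ∈ H := by
      have h1 := hA00 _ (stab_add hg (Finset.add_mem_add haA0 haA0))
      rwa [add_sub_cancel_left] at h1
    apply mem_stab_of_forall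
    intro y hy
    obtain ⟨p, hp, q, hq, rfl⟩ := Finset.mem_add.1 hy
    by_cases hpq : p - a ∈ H ∧ q - a ∈ H
    · have h1 : p + q ∈ A₀ + A₀ :=
        Finset.add_mem_add ((hA₀ p).2 ⟨hp, hpq.1⟩) ((hA₀ q).2 ⟨hq, hpq.2⟩)
      exact Finset.add_subset_add hsub hsub (stab_add hg h1)
    · exact full p hp q hq hpq g hgH
  have k0 := kneser_aperiodic A₀ A₀ ⟨a, haA0⟩ ⟨a, haA0⟩ hst0
  -- the quotient
  have hfull : ∀ b ∈ A, b ∉ A₀ → ∀ k ∈ H, b + k ∈ A := by
    classical
    have : Fintype (G ⧸ H) := Fintype.ofFinite _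
    have hext : Ext 2 (A.image (QuotientAddGroup.mk' H)) ((QuotientAddGroup.mk' H) a) := by
      refine ⟨Finset.mem_image_of_mem _ ha, ?_⟩
      intro b' hb' hh
      obtain ⟨b, hb, rfl⟩ := Finset.mem_image.1 hb'
      rw [show 2 - 1 = 1 from rfl, hom G (G ⧸ H) (QuotientAddGroup.mk' H) 1 A] at hh
      obtain ⟨y, hy, hyb⟩ := Finset.mem_image.1 hh
      obtain ⟨z, hz, c, hc, rfl⟩ := Finset.mem_add.1 hy
      have hz0 : z = 0 := Finset.mem_singleton.1 hz
      subst hz0
      rw [zero_add] at hyb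
      have h1 : b + c - (a + a) ∈ H := by
        rw [← QuotientAddGroup.eq_zero_iff]
        have : (QuotientAddGroup.mk' H) (b + c - (a + a)) = 0 := by
          rw [map_sub, map_add, map_add, hyb, two_nsmul]
          abel
        exact this
      have h4 := (uniq b hb c hc h1).1
      have h5 : (QuotientAddGroup.mk' H) (b - a) = 0 := (QuotientAddGroup.eq_zero_iff _).2 h4
      rw [map_sub] at h5
      exact sub_eq_zero.1 h5
    have k1 := (skh (G ⧸ H) 2 _ _ (by omega) hext).1
    rw [hom G (G ⧸ H) (QuotientAddGroup.mk' H) 2 A, bas2] at k1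
    have q1 := (quo G H A).1
    have q2 := (quo G H (A + A)).1
    have d2 : Disjoint (A₀ + A₀) ((A + A + fs H) \ co H (a + a)) := by
      rw [Finset.disjoint_left]
      intro x hx hx'
      exact (Finset.mem_sdiff.1 hx').2 (mem_co.2 (hA00 x hx))
    have d1 : (A₀ + A₀) ∪ ((A + A + fs H) \ co H (a + a)) ⊆ A + A := by
      refine Finset.union_subset (Finset.add_subset_add hsub hsub) ?_
      intro x hx
      rw [Finset.mem_sdiff, mem_co] at hx
      obtain ⟨hx1, hx2⟩ := hx
      obtain ⟨y, hy, k, hk, rfl⟩ := Finset.mem_add.1 hx1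
      obtain ⟨p, hp, q, hq, rfl⟩ := Finset.mem_add.1 hy
      rw [mem_fs] at hk
      refine full p hp q hq (fun hpq => hx2 ?_) k hk
      have := H.add_mem (H.add_mem hpq.1 hpq.2) hk
      have e : p - a + (q - a) + k = p + q + k - (a + a) := by abel
      rwa [e] at this
    have d3 := Finset.card_le_card d1
    have haa : a + a ∈ A + A := Finset.add_mem_add ha ha
    rw [Finset.card_union_of_disjoint d2, Finset.card_sdiff_of_subset (co_sub (H := H) haa),
      card_co, ← q2] at d3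
    have f1 : A = A₀ ∪ (A \ co H a) := by
      ext x
      rw [Finset.mem_union, Finset.mem_sdiff, mem_co, hA₀]
      tauto
    have f2 : Disjoint A₀ (A \ co H a) := by
      rw [Finset.disjoint_left]
      intro x hx hx'
      exact (Finset.mem_sdiff.1 hx').2 (mem_co.2 ((hA₀ x).1 hx).2)
    have f4 : A.card = A₀.card + (A \ co H a).card := by
      conv_lhs => rw [f1]
      exact Finset.card_union_of_disjoint f2
    have f5 : A \ co H a ⊆ (A + fs H) \ co H a := Finset.sdiff_subset_sdiff (sub_add A H) le_rfl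
    have f6 := Finset.card_sdiff_of_subset (co_sub (H := H) ha)
    have f7 := Finset.card_le_card f5
    rw [card_co, ← q1] at f6
    have p2 : 1 ≤ (A.image (QuotientAddGroup.mk' H)).card :=
      Finset.card_pos.2 ⟨_, Finset.mem_image_of_mem _ ha⟩
    have p3 : 1 ≤ ((A + A).image (QuotientAddGroup.mk' H)).card :=
      Finset.card_pos.2 ⟨_, Finset.mem_image_of_mem _ haa⟩
    obtain ⟨x2, hx2⟩ : ∃ x, (A.image (QuotientAddGroup.mk' H)).card = x + 1 :=
      ⟨(A.image (QuotientAddGroup.mk' H)).card - 1, by omega⟩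
    obtain ⟨x3, hx3⟩ : ∃ x, ((A + A).image (QuotientAddGroup.mk' H)).card = x + 1 :=
      ⟨((A + A).image (QuotientAddGroup.mk' H)).card - 1, by omega⟩
    rw [hx2] at f6 k1
    rw [hx3] at d3 k1
    rw [Nat.add_sub_cancel] at k1
    have g1 : (x2 + 1) * (fs H).card - (fs H).card = x2 * (fs H).card := by
      rw [add_mul, one_mul, Nat.add_sub_cancel]
    have g2 : (x3 + 1) * (fs H).card - (fs H).card = x3 * (fs H).card := by
      rw [add_mul, one_mul, Nat.add_sub_cancel]
    rw [g1] at f6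
    rw [g2] at d3
    have g4 : 2 * x2 * (fs H).card ≤ x3 * (fs H).card := Nat.mul_le_mul_right _ (by omega)
    have g5 : 2 * x2 * (fs H).card = 2 * (x2 * (fs H).card) := by ring
    rw [g5] at g4
    have f8 : A \ co H a = (A + fs H) \ co H a :=
      Finset.eq_of_subset_of_card_le f5 (by omega)
    intro b hb hb0 k hk
    have hba : b - a ∉ H := fun hba => hb0 ((hA₀ b).2 ⟨hb, hba⟩)
    have h1 : b + k ∈ (A + fs H) \ co H a := by
      rw [Finset.mem_sdiff, mem_co]
      refine ⟨Finset.mem_add.2 ⟨b, hb, k, mem_fs.2 hk, rfl⟩, fun hh => hba ?_⟩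
      have := H.sub_mem hh hk
      have e : b + k - a - k = b - a := by abel
      rwa [e] at this
    rw [← f8] at h1
    exact (Finset.mem_sdiff.1 h1).1
  obtain ⟨r1, r2, r3⟩ := part2 hom skh knh quo hA₀ ha hfull h h2 hst hcard hH
  exact ⟨a, ha, A₀, hA₀, hfull, r1, r2, r3⟩

end Pool.Agent.T6.H65.KP.ModSLA
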