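import Mathlib
import Pool.Agent.T6.H65.KP.Defs

/-! Module SLM (helper80) of project KP (helper65). -/

set_option autoImplicit false

open scoped Pointwise
open Finset
open Pool.Agent.Helper549.Kneser

namespace Pool.Agent.T6.H65.KP.ModSLM

section
variable {G : Type} [AddCommGroup G] [Fintype G] [DecidableEq G]

theorem claim (ssb : StmSSB) (M X : Finset G) (s : G) (h0 : (0 : G) ∈ M) (hS : Sid M)
    (hX : X.Nonempty) (hXs : ∀ x ∈ X, x - s ∈ AddSubgroup.closure (M : Set G)) :
    (∀ y, y - s ∈ AddSubgroup.closure (M : Set G) → y ∈ X + M) ∨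
      X.card + M.card ≤ (X + M).card + 1 := by
  by_contra hcon
  push Not at hcon
  obtain ⟨⟨y, hy1, hy2⟩, hc⟩ := hcon
  have hMn : M.Nonempty := ⟨0, h0⟩
  have hk := kneser' X M hX hMn
  obtain ⟨P, hP⟩ : ∃ P, P = stab (X + M) := ⟨_, rfl⟩
  rw [← hP] at hk
  have hXP : X.card ≤ (X + fs P).card := by
    apply card_le_card
    intro x hx
    have := Finset.add_mem_add hx (mem_fs.2 P.zero_mem)
    rwa [add_zero] at this
  have hPne : P ≠ ⊥ := by
    intro hb
    have h1 : fs P = {0} := by
      ext x
      rw [mem_fs, hb, AddSubgroup.mem_bot, mem_singleton]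
    rw [h1] at hk hXP
    have h2 : M + ({0} : Finset G) = M := add_zero M
    rw [h2, card_singleton] at hk
    omega
  have hsub : M ⊆ fs P := ssb G M P h0 hS hPne (by omega)
  have hQP : AddSubgroup.closure (M : Set G) ≤ P := by
    rw [AddSubgroup.closure_le]
    intro x hx
    exact mem_fs.1 (hsub (mem_coe.1 hx))
  obtain ⟨x, hx⟩ := hX
  have hxM : x ∈ X + M := by
    have := Finset.add_mem_add hx h0
    rwa [add_zero] at this
  have hq : y - x ∈ P := by
    apply hQP
    have := AddSubgroup.sub_mem _ hy1 (hXs x hx)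
    have e : y - s - (x - s) = y - x := by abel
    rwa [e] at this
  rw [hP] at hq
  have := stab_add hq hxM
  have e : x + (y - x) = y := by abel
  rw [e] at this
  exact hy2 this

end

theorem slm (ssb : StmSSB) : StmSLM := by
  intro G _ _ _ M S Q hQ h0 hSid h3 hS hc
  subst hQ
  classical
  have hMQ : ∀ x ∈ M, x ∈ AddSubgroup.closure (M : Set G) := fun x hx =>
    AddSubgroup.subset_closure (mem_coe.2 hx)
  by_cases hall : ∀ s ∈ S, ∀ y, y - s ∈ AddSubgroup.closure (M : Set G) → y ∈ S + M
  · left
    apply Subset.antisymm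
    · rw [add_comm]
      apply add_subset_add_left
      intro x hx
      exact mem_fs.2 (hMQ x hx)
    · intro y hy
      obtain ⟨s, hs, q, hq, rfl⟩ := mem_add.1 hy
      rw [add_comm M S]
      apply hall s hs
      have e : s + q - s = q := by abel
      rw [e]
      exact mem_fs.1 hq
  · right
    push Not at hall
    obtain ⟨s, hs, y₀, hy1, hy2⟩ := hall
    obtain ⟨S₀, hS₀⟩ : ∃ S₀, S₀ = S.filter (fun x => x - s ∈ AddSubgroup.closure (M : Set G)) :=
      ⟨_, rfl⟩
    obtain ⟨R, hR⟩ : ∃ R, R = S.filter (fun x => ¬ (x - s ∈ AddSubgroup.closure (M : Set G))) :=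
      ⟨_, rfl⟩
    have mS₀ : ∀ x, x ∈ S₀ ↔ x ∈ S ∧ x - s ∈ AddSubgroup.closure (M : Set G) := by
      intro x; rw [hS₀, mem_filter]
    have mR : ∀ x, x ∈ R ↔ x ∈ S ∧ ¬ (x - s ∈ AddSubgroup.closure (M : Set G)) := by
      intro x; rw [hR, mem_filter]
    have hcard : S₀.card + R.card = S.card := by
      rw [hS₀, hR]; exact card_filter_add_card_filter_not _
    have hsS₀ : s ∈ S₀ := (mS₀ s).2 ⟨hs, by rw [sub_self]; exact AddSubgroup.zero_mem _⟩
    have hcl := claim ssb M S₀ s h0 hSid ⟨s, hsS₀⟩ (fun x hx => ((mS₀ x).1 hx).2)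
    have hcl2 : S₀.card + M.card ≤ (S₀ + M).card + 1 := by
      rcases hcl with h | h
      · exfalso
        apply hy2
        have h1 : S₀ + M ⊆ S + M := add_subset_add_right fun x hx => ((mS₀ x).1 hx).1
        exact h1 (h y₀ hy1)
      · exact h
    have hlt : (S₀ + M).card < (fs (AddSubgroup.closure (M : Set G))).card := by
      have h1 : S₀ + M ⊂ (fs (AddSubgroup.closure (M : Set G))).image (fun q => s + q) := by
        refine ⟨?_, ?_⟩
        · intro z hz
          obtain ⟨x, hx, m, hm, rfl⟩ := mem_add.1 hz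
          refine mem_image.2 ⟨x - s + m, mem_fs.2 ?_, by abel⟩
          exact AddSubgroup.add_mem _ ((mS₀ x).1 hx).2 (hMQ m hm)
        · intro hcon
          have h2 : y₀ ∈ (fs (AddSubgroup.closure (M : Set G))).image (fun q => s + q) :=
            mem_image.2 ⟨y₀ - s, mem_fs.2 hy1, by abel⟩
          have h3 := hcon h2
          have h4 : S₀ + M ⊆ S + M := add_subset_add_right fun x hx => ((mS₀ x).1 hx).1
          exact hy2 (h4 h3)
      have h2 := card_lt_card h1
      rwa [card_image_of_injective _ (add_right_injective s)] at h2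
    have hdisj : Disjoint (S₀ + M) (R + M) := by
      rw [disjoint_left]
      intro z hz1 hz2
      obtain ⟨x, hx, m, hm, rfl⟩ := mem_add.1 hz1
      obtain ⟨x', hx', m', hm', he⟩ := mem_add.1 hz2
      apply ((mR x').1 hx').2
      have h1 : x' - s = (x - s) + m - m' := by
        have : x' = x + m - m' := by rw [← he]; abel
        rw [this]; abel
      rw [h1]
      exact AddSubgroup.sub_mem _ (AddSubgroup.add_mem _ ((mS₀ x).1 hx).2 (hMQ m hm)) (hMQ m' hm')
    have hun : M + S = (S₀ + M) ∪ (R + M) := by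
      rw [← union_add, add_comm]
      congr 1
      ext x
      rw [mem_union, mS₀, mR]
      tauto
    have hsum : (M + S).card = (S₀ + M).card + (R + M).card := by
      rw [hun, card_union_of_disjoint hdisj]
    have hRsub : R ⊆ R + M := by
      intro x hx
      have := Finset.add_mem_add hx h0
      rwa [add_zero] at this
    have hRle := card_le_card hRsub
    have hReq : R = R + M := by
      apply eq_of_subset_of_card_le hRsub
      omega
    have hstab : AddSubgroup.closure (M : Set G) ≤ stab R := by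
      rw [AddSubgroup.closure_le]
      intro m hm
      apply mem_stab_of_forall
      intro x hx
      rw [hReq]
      exact Finset.add_mem_add hx (mem_coe.1 hm)
    refine ⟨s, hs, S₀, mS₀, ?_, by omega, hlt⟩
    intro x hx hx0 q hq
    have hxR : x ∈ R := by
      rw [mR]
      refine ⟨hx, fun h => hx0 ((mS₀ x).2 ⟨hx, h⟩)⟩
    exact ((mR _).1 (stab_add (hstab hq) hxR)).1

end Pool.Agent.T6.H65.KP.ModSLM
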