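import Pool.Agent.T6.H65.KP.SLCommon

/-!
# Project KP, module SLU: the slices of an extreme set with `|B + B| = 2 |B| - 1`
-/

set_option autoImplicit false
set_option linter.unusedSectionVars false

open scoped Pointwise
open Finset
open Pool.Agent.Helper549.Kneser
open Pool.Agent.T6.H65.KP.SLCommon

namespace Pool.Agent.T6.H65.KP.ModSLU

theorem slu (bas : StmBAS) (sk : StmSK) (quo : StmQUO) : StmSLU := by
  intro G _ _ _ B B₀ H _ _ hE hBB hH hB₀
  obtain ⟨-, -, bas1, -⟩ := bas G
  obtain ⟨-, -, bas1', -⟩ := bas (G ⧸ H)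
  have h0 : (0 : G) ∈ B := hE.1
  have ext : ∀ b ∈ B, -b ∈ B → b = 0 := by
    intro b hb hb'
    apply hE.2 b hb
    rw [smul_zero, zero_sub, show (2 - 1 : ℕ) = 1 from rfl, bas1]
    exact hb'
  have hn : 0 < (fs H).card := fs_card_pos H
  have hsl0 : sl B H 0 = B₀ := by
    ext x
    rw [mem_sl, hB₀, sub_zero]
  have h00 : (0 : G) ∈ sl B H 0 := mem_sl.2 ⟨h0, by rw [sub_zero]; exact H.zero_mem⟩
  -- the slice in `H` has at most half of the elements
  have F4 : 2 * (sl B H 0).card ≤ (fs H).card + 1 := by
    set P := (sl B H 0).erase 0 with hP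
    have hPc : P.card + 1 = (sl B H 0).card := Finset.card_erase_add_one h00
    have hd : Disjoint P (P.image Neg.neg) := by
      rw [Finset.disjoint_left]
      intro u hu hu'
      obtain ⟨v, hv, hvu⟩ := Finset.mem_image.1 hu'
      have hu1 := Finset.mem_erase.1 hu
      have hv1 := Finset.mem_erase.1 hv
      apply hv1.1
      apply ext v (mem_sl.1 hv1.2).1
      rw [hvu]
      exact (mem_sl.1 hu1.2).1
    have hs : P ∪ P.image Neg.neg ⊆ (co H 0).erase 0 := by
      refine Finset.union_subset ?_ ?_
      · intro u hu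
        have hu1 := Finset.mem_erase.1 hu
        exact Finset.mem_erase.2 ⟨hu1.1, sl_sub_co hu1.2⟩
      · intro u hu
        obtain ⟨v, hv, hvu⟩ := Finset.mem_image.1 hu
        have hv1 := Finset.mem_erase.1 hv
        rw [← hvu]
        refine Finset.mem_erase.2 ⟨neg_ne_zero.2 hv1.1, mem_co.2 ?_⟩
        have := (mem_sl.1 hv1.2).2
        rw [sub_zero] at this ⊢
        exact H.neg_mem this
    have h1 := Finset.card_le_card hs
    rw [Finset.card_union_of_disjoint hd, Finset.card_image_of_injective _ neg_injective] at h1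
    have h2 : ((co H 0).erase 0).card + 1 = (co H 0).card :=
      Finset.card_erase_add_one (mem_co.2 (by rw [sub_zero]; exact H.zero_mem))
    rw [card_co] at h2
    omega
  -- uniqueness modulo `H`
  have uniq : ∀ b ∈ B, ∀ c ∈ B, b + c ∈ H → b ∈ H := by
    intro b hb c hc hbc
    by_contra hbH
    by_cases hd : b - c ∈ H
    · have h2b : b + b ∈ H := by
        have := H.add_mem hbc hd
        have e : b + c + (b - c) = b + b := by abel
        rwa [e] at this
      have hdis : Disjoint (sl B H b) ((sl B H b).image Neg.neg) := by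
        rw [Finset.disjoint_left]
        intro u hu hu'
        obtain ⟨v, hv, hvu⟩ := Finset.mem_image.1 hu'
        have hu1 := mem_sl.1 hu
        have hv1 := mem_sl.1 hv
        have hv0 : v = 0 := ext v hv1.1 (by rw [hvu]; exact hu1.1)
        apply hbH
        have := hv1.2
        rw [hv0, zero_sub] at this
        exact (H.neg_mem_iff).1 this
      have hs : sl B H b ∪ (sl B H b).image Neg.neg ⊆ co H b := by
        refine Finset.union_subset sl_sub_co ?_
        intro u hu
        obtain ⟨v, hv, hvu⟩ := Finset.mem_image.1 hu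
        rw [mem_co, ← hvu]
        have := H.neg_mem (H.add_mem (mem_sl.1 hv).2 h2b)
        have e : -(v - b + (b + b)) = -v - b := by abel
        rwa [e] at this
      have h1 := Finset.card_le_card hs
      rw [Finset.card_union_of_disjoint hdis, Finset.card_image_of_injective _ neg_injective,
        card_co] at h1
      have h2 := holes hH hb h0 (by rw [sub_zero]; exact hbH)
      omega
    · obtain ⟨u, hu, v, hv, hub, hvc, huv⟩ := pig (z := 0) (holes hH hb hc hd) (by
        have := H.neg_mem hbc
        have e : -(b + c) = 0 - b - c := by abel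
        rwa [e] at this)
      have hv' : v = -u := eq_neg_of_add_eq_zero_right huv
      have hu0 : u = 0 := ext u hu (by rw [← hv']; exact hv)
      apply hbH
      rw [hu0, zero_sub] at hub
      exact (H.neg_mem_iff).1 hub
  have hE' : Ext 2 (B.image (QuotientAddGroup.mk' H)) 0 := by
    refine ⟨Finset.mem_image.2 ⟨0, h0, map_zero _⟩, ?_⟩
    intro b' hb' h
    obtain ⟨b, hb, rfl⟩ := Finset.mem_image.1 hb'
    rw [smul_zero, zero_sub, show (2 - 1 : ℕ) = 1 from rfl, bas1'] at h
    obtain ⟨c, hc, hcb⟩ := Finset.mem_image.1 h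
    have hbc : b + c ∈ H := by
      have h1 : (QuotientAddGroup.mk' H) (b + c) = 0 := by
        rw [map_add, hcb, add_neg_cancel]
      exact (QuotientAddGroup.eq_zero_iff (b + c)).1 h1
    exact (QuotientAddGroup.eq_zero_iff b).2 (uniq b hb c hc hbc)
  -- full cosets in `B + B`
  have full : (B + B + fs H) \ fs H ⊆ B + B := by
    intro z hz
    rw [Finset.mem_sdiff] at hz
    obtain ⟨hz1, hz2⟩ := hz
    obtain ⟨y, hy, k, hk, rfl⟩ := Finset.mem_add.1 hz1
    obtain ⟨b, hb, c, hc, rfl⟩ := Finset.mem_add.1 hy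
    rw [mem_fs] at hz2 hk
    by_cases hbc : b - c ∈ H
    · have hbH : b ∉ H := by
        intro hbH
        apply hz2
        have hcH : c ∈ H := by
          have := H.sub_mem hbH hbc
          rwa [sub_sub_cancel] at this
        exact H.add_mem (H.add_mem hbH hcH) hk
      have h1 := holes hH hb h0 (by rw [sub_zero]; exact hbH)
      obtain ⟨u, hu, v, hv, -, -, huv⟩ := pig (A := B) (H := H) (x := b) (y := b)
        (z := b + c + k) (by omega) (by
          have := H.sub_mem hk hbc
          have e : k - (b - c) = b + c + k - b - b := by abel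
          rwa [e] at this)
      exact Finset.mem_add.2 ⟨u, hu, v, hv, huv⟩
    · obtain ⟨u, hu, v, hv, -, -, huv⟩ := pig (z := b + c + k) (holes hH hb hc hbc) (by
        have e : b + c + k - b - c = k := by abel
        rwa [e])
      exact Finset.mem_add.2 ⟨u, hu, v, hv, huv⟩
  have hBsub : B₀ ⊆ B := fun x hx => ((hB₀ x).1 hx).1
  have hBH : B₀ ⊆ fs H := fun x hx => mem_fs.2 ((hB₀ x).1 hx).2
  have hB0B0 : B₀ + B₀ ⊆ fs H := by
    intro x hx
    obtain ⟨u, hu, v, hv, rfl⟩ := Finset.mem_add.1 hx
    exact mem_fs.2 (H.add_mem (mem_fs.1 (hBH hu)) (mem_fs.1 (hBH hv)))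
  have hfs1 : fs H ⊆ B + fs H := by
    intro x hx
    exact Finset.mem_add.2 ⟨0, h0, x, hx, zero_add x⟩
  have hfs2 : fs H ⊆ B + B + fs H := by
    intro x hx
    exact Finset.mem_add.2 ⟨0, Finset.mem_add.2 ⟨0, h0, 0, h0, add_zero 0⟩, x, hx, zero_add x⟩
  have C1 : (B₀ + B₀).card + ((B + B + fs H).card - (fs H).card) ≤ (B + B).card := by
    rw [← Finset.card_sdiff_of_subset hfs2]
    have hd : Disjoint (B₀ + B₀) ((B + B + fs H) \ fs H) := by
      rw [Finset.disjoint_left]
      intro x hx hx'
      exact (Finset.mem_sdiff.1 hx').2 (hB0B0 hx)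
    rw [← Finset.card_union_of_disjoint hd]
    exact Finset.card_le_card (Finset.union_subset (Finset.add_subset_add hBsub hBsub) full)
  have hBu : B = B₀ ∪ (B \ fs H) := by
    ext x
    rw [Finset.mem_union, Finset.mem_sdiff, hB₀, mem_fs]
    tauto
  have hBd : Disjoint B₀ (B \ fs H) := by
    rw [Finset.disjoint_left]
    intro x hx hx'
    exact (Finset.mem_sdiff.1 hx').2 (hBH hx)
  have hBc : B.card = B₀.card + (B \ fs H).card := by
    conv_lhs => rw [hBu]
    exact Finset.card_union_of_disjoint hBd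
  have hsd : B \ fs H ⊆ (B + fs H) \ fs H := Finset.sdiff_subset_sdiff (sub_add B H) le_rfl
  have hsdc : ((B + fs H) \ fs H).card = (B + fs H).card - (fs H).card :=
    Finset.card_sdiff_of_subset hfs1
  have C2 := Finset.card_le_card hsd
  rw [hsdc] at C2
  have hq1 := (quo G H B).1
  have hq2 := (quo G H (B + B)).1
  rw [Finset.image_add] at hq2
  have s1 := sk G B₀ B₀ ((hB₀ 0).2 ⟨h0, H.zero_mem⟩) ((hB₀ 0).2 ⟨h0, H.zero_mem⟩) (by
    intro a ha b hb hab
    have : b = -a := eq_neg_of_add_eq_zero_right hab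
    exact ext a (hBsub ha) (by rw [← this]; exact hBsub hb))
  have s2 := sk (G ⧸ H) (B.image (QuotientAddGroup.mk' H)) (B.image (QuotientAddGroup.mk' H))
    hE'.1 hE'.1 (by
    intro a ha b hb hab
    apply hE'.2 a ha
    rw [smul_zero, zero_sub, show (2 - 1 : ℕ) = 1 from rfl, bas1']
    have : b = -a := eq_neg_of_add_eq_zero_right hab
    rw [← this]
    exact hb)
  have c1 : (fs H).card ≤ (B + fs H).card := Finset.card_le_card hfs1
  have c2 : (fs H).card ≤ (B + B + fs H).card := Finset.card_le_card hfs2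
  have s3 : 2 * (B + fs H).card ≤ (B + B + fs H).card + (fs H).card := by
    rw [← hq1, ← hq2]
    nlinarith
  have e1 : 2 * (B + fs H).card = (B + B + fs H).card + (fs H).card := by omega
  have e2 : (B₀ + B₀).card + 1 = 2 * B₀.card := by omega
  have e3 : (B \ fs H).card = ((B + fs H) \ fs H).card := by omega
  have e4 : (B.image (QuotientAddGroup.mk' H) + B.image (QuotientAddGroup.mk' H)).card + 1
      = 2 * (B.image (QuotientAddGroup.mk' H)).card := by
    rw [← hq1, ← hq2] at e1
    have : ((B.image (QuotientAddGroup.mk' H) + B.image (QuotientAddGroup.mk' H)).card + 1) *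
        (fs H).card = (2 * (B.image (QuotientAddGroup.mk' H)).card) * (fs H).card := by
      linarith
    exact Nat.eq_of_mul_eq_mul_right hn this
  refine ⟨?_, hE', e4, e2⟩
  intro b hb hbH k hk
  have e5 : B \ fs H = (B + fs H) \ fs H := Finset.eq_of_subset_of_card_le hsd e3.ge
  have h1 : b + k ∈ (B + fs H) \ fs H := by
    rw [Finset.mem_sdiff]
    refine ⟨Finset.mem_add.2 ⟨b, hb, k, mem_fs.2 hk, rfl⟩, fun h => hbH ?_⟩
    have := H.sub_mem (mem_fs.1 h) hk
    rwa [add_sub_cancel_right] at this
  rw [← e5] at h1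
  exact (Finset.mem_sdiff.1 h1).1

end Pool.Agent.T6.H65.KP.ModSLU
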