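import Pool.Agent.T6.H65.KP.Defs

/-!
# Project KP, module SSB: Sidon-like sets and subgroups
-/

set_option autoImplicit false

open scoped Pointwise
open Finset
open Pool.Agent.Helper549.Kneser

namespace Pool.Agent.T6.H65.KP.ModSSB

theorem ssb : StmSSB := by
  intro G _ _ _ M L h0 hS hL hc
  obtain ⟨d, hdL, hd0⟩ := (AddSubgroup.ne_bot_iff_exists_ne_zero.1 hL : ∃ a : L, a ≠ 0) |>.elim
    fun a ha => (⟨a.1, a.2, fun h => ha (Subtype.ext h)⟩ : ∃ d : G, d ∈ L ∧ d ≠ 0)
  have h1 := hS d hd0
  have h2 : (M.image (fun x => x + d)).card = M.card :=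
    Finset.card_image_of_injective _ (add_left_injective d)
  have h3 : M ∪ M.image (fun x => x + d) ⊆ M + fs L := by
    intro y hy
    rcases Finset.mem_union.1 hy with h | h
    · exact Finset.mem_add.2 ⟨y, h, 0, mem_fs.2 L.zero_mem, add_zero y⟩
    · obtain ⟨x, hx, rfl⟩ := Finset.mem_image.1 h
      exact Finset.mem_add.2 ⟨x, hx, d, mem_fs.2 hdL, rfl⟩
  have h4 := Finset.card_le_card h3
  have h5 := Finset.card_union_add_card_inter M (M.image (fun x => x + d))
  intro x hx
  by_contra hxL
  have hxL' : x ∉ L := fun h => hxL (mem_fs.2 h)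
  have h6 : fs L ∪ (fs L).image (fun y => x + y) ⊆ M + fs L := by
    intro y hy
    rcases Finset.mem_union.1 hy with h | h
    · exact Finset.mem_add.2 ⟨0, h0, y, h, zero_add y⟩
    · obtain ⟨z, hz, rfl⟩ := Finset.mem_image.1 h
      exact Finset.mem_add.2 ⟨x, hx, z, hz, rfl⟩
  have h7 : Disjoint (fs L) ((fs L).image (fun y => x + y)) := by
    rw [Finset.disjoint_left]
    intro y hy hy2
    obtain ⟨z, hz, rfl⟩ := Finset.mem_image.1 hy2
    apply hxL'
    have := L.sub_mem (mem_fs.1 hy) (mem_fs.1 hz)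
    simpa using this
  have h8 : ((fs L).image (fun y => x + y)).card = (fs L).card :=
    Finset.card_image_of_injective _ (add_right_injective x)
  have h9 := Finset.card_le_card h6
  rw [Finset.card_union_of_disjoint h7] at h9
  omega

end Pool.Agent.T6.H65.KP.ModSSB
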