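import Pool.Agent.T6.H65.KP.Defs

/-!
Functoriality of staircases (module STA).
-/

set_option autoImplicit false

namespace Pool.Agent.T6.H65.KP.ModSTA

open Pool.Agent.T6.H65.KP

theorem stair_map {G G' : Type} [AddCommGroup G] [AddCommGroup G'] (f : G →+ G') (h : ℕ)
    (hf : Function.Injective f) {H L : AddSubgroup G} {C : Set G} (hs : Stair h H L C) :
    Stair h (H.map f) (L.map f) (f '' C) := by
  induction hs with
  | base => exact Stair.base
  | grow _ hKL ih => exact Stair.grow ih (AddSubgroup.map_mono hKL)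
  | @prog K C g l _ hcond ih =>
    have h1 : ∀ j : ℕ, 1 ≤ j → j ≤ h * l → j • f g ∉ K.map f := by
      intro j hj1 hj2 hmem
      obtain ⟨k, hk, hfk⟩ := AddSubgroup.mem_map.1 hmem
      rw [← map_nsmul] at hfk
      have : k = j • g := hf hfk
      exact hcond j hj1 hj2 (this ▸ hk)
    have h2 := Stair.prog (f g) l ih h1
    have e1 : (K ⊔ AddSubgroup.zmultiples g).map f = K.map f ⊔ AddSubgroup.zmultiples (f g) := by
      rw [AddSubgroup.map_sup, AddMonoidHom.map_zmultiples]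
    have e2 : f '' (C ∪ {x | ∃ j : ℕ, 1 ≤ j ∧ j ≤ l ∧ x - j • g ∈ K}) =
        f '' C ∪ {x | ∃ j : ℕ, 1 ≤ j ∧ j ≤ l ∧ x - j • f g ∈ K.map f} := by
      rw [Set.image_union]
      congr 1
      ext y
      constructor
      · rintro ⟨x, ⟨j, hj1, hj2, hj⟩, rfl⟩
        refine ⟨j, hj1, hj2, ?_⟩
        rw [← map_nsmul, ← map_sub]
        exact AddSubgroup.mem_map_of_mem f hj
      · rintro ⟨j, hj1, hj2, hj⟩
        obtain ⟨k, hk, hfk⟩ := AddSubgroup.mem_map.1 hj
        refine ⟨k + j • g, ⟨j, hj1, hj2, by rwa [add_sub_cancel_right]⟩, ?_⟩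
        rw [map_add, map_nsmul, hfk, sub_add_cancel]
    rw [e1, e2]
    exact h2
  | @half K L C T h2 _ hKL hT1 hT2 hT3 ih =>
    rw [Set.image_union]
    refine Stair.half h2 ih (AddSubgroup.map_mono hKL) ?_ ?_ ?_
    · rintro _ ⟨x, hx, rfl⟩
      obtain ⟨h3, h4⟩ := hT1 x hx
      refine ⟨AddSubgroup.mem_map_of_mem f h3, ?_⟩
      intro h5
      obtain ⟨k, hk, hfk⟩ := AddSubgroup.mem_map.1 h5
      exact h4 (hf hfk ▸ hk)
    · rintro _ ⟨x, hx, rfl⟩ _ ⟨k, hk, rfl⟩
      exact ⟨x + k, hT2 x hx k hk, map_add f x k⟩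
    · intro y hy hyK
      obtain ⟨x, hx, rfl⟩ := AddSubgroup.mem_map.1 hy
      have hxK : x ∉ K := fun h => hyK (AddSubgroup.mem_map_of_mem f h)
      rw [hf.mem_set_image, ← map_neg, hf.mem_set_image]
      exact hT3 x hx hxK

theorem stair_comap {G G' : Type} [AddCommGroup G] [AddCommGroup G'] (f : G →+ G') (h : ℕ)
    (hf : Function.Surjective f) {H L : AddSubgroup G'} {C : Set G'} (hs : Stair h H L C) :
    Stair h (H.comap f) (L.comap f) (f ⁻¹' C) := by
  induction hs with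
  | base => exact Stair.base
  | grow _ hKL ih => exact Stair.grow ih (AddSubgroup.comap_mono hKL)
  | @prog K C g l _ hcond ih =>
    obtain ⟨g', rfl⟩ := hf g
    have h1 : ∀ j : ℕ, 1 ≤ j → j ≤ h * l → j • g' ∉ K.comap f := by
      intro j hj1 hj2 hmem
      rw [AddSubgroup.mem_comap, map_nsmul] at hmem
      exact hcond j hj1 hj2 hmem
    have h2 := Stair.prog g' l ih h1
    have e1 : (K ⊔ AddSubgroup.zmultiples (f g')).comap f =
        K.comap f ⊔ AddSubgroup.zmultiples g' := by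
      ext x
      rw [AddSubgroup.mem_comap, AddSubgroup.mem_sup, AddSubgroup.mem_sup]
      constructor
      · rintro ⟨k, hk, z, hz, hkz⟩
        obtain ⟨n, rfl⟩ := AddSubgroup.mem_zmultiples_iff.1 hz
        refine ⟨x - n • g', ?_, n • g', AddSubgroup.mem_zmultiples_iff.2 ⟨n, rfl⟩,
          sub_add_cancel _ _⟩
        rw [AddSubgroup.mem_comap, map_sub, map_zsmul, ← hkz, add_sub_cancel_right]
        exact hk
      · rintro ⟨k, hk, z, hz, rfl⟩
        obtain ⟨n, rfl⟩ := AddSubgroup.mem_zmultiples_iff.1 hz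
        refine ⟨f k, hk, n • f g', AddSubgroup.mem_zmultiples_iff.2 ⟨n, rfl⟩, ?_⟩
        rw [map_add, map_zsmul]
    have e2 : f ⁻¹' (C ∪ {x | ∃ j : ℕ, 1 ≤ j ∧ j ≤ l ∧ x - j • f g' ∈ K}) =
        f ⁻¹' C ∪ {x | ∃ j : ℕ, 1 ≤ j ∧ j ≤ l ∧ x - j • g' ∈ K.comap f} := by
      rw [Set.preimage_union]
      congr 1
      ext y
      constructor
      · rintro ⟨j, hj1, hj2, hj⟩
        refine ⟨j, hj1, hj2, ?_⟩
        rw [AddSubgroup.mem_comap, map_sub, map_nsmul]
        exact hj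
      · rintro ⟨j, hj1, hj2, hj⟩
        refine ⟨j, hj1, hj2, ?_⟩
        rw [AddSubgroup.mem_comap, map_sub, map_nsmul] at hj
        exact hj
    rw [e1, e2]
    exact h2
  | @half K L C T h2 _ hKL hT1 hT2 hT3 ih =>
    rw [Set.preimage_union]
    refine Stair.half h2 ih (AddSubgroup.comap_mono hKL) ?_ ?_ ?_
    · intro x hx
      exact hT1 (f x) hx
    · intro x hx k hk
      show f (x + k) ∈ T
      rw [map_add]
      exact hT2 (f x) hx (f k) hk
    · intro x hx hxK
      show f x ∈ T ↔ ¬ f (-x) ∈ T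
      rw [map_neg]
      exact hT3 (f x) hx hxK

theorem stair_le {G : Type} [AddCommGroup G] {h : ℕ} {K L : AddSubgroup G} {C : Set G}
    (hs : Stair h K L C) : K ≤ L := by
  induction hs with
  | base => exact le_rfl
  | grow _ hKL ih => exact ih.trans hKL
  | prog g l _ _ ih => exact ih.trans le_sup_left
  | half _ _ hKL _ _ _ ih => exact ih.trans hKL

theorem stair_comp {G : Type} [AddCommGroup G] {h : ℕ} (h1 : 1 ≤ h) {H K L : AddSubgroup G}
    {C C' : Set G} (hs : Stair h H K C) (hs' : Stair h K L C') : Stair h H L (C ∪ (C' \ K)) := by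
  induction hs' with
  | base =>
    rw [Set.sdiff_self, Set.union_empty]
    exact hs
  | grow _ hKL ih => exact Stair.grow ih hKL
  | @prog K1 D g l hD hcond ih =>
    have hK := stair_le hD
    have h2 := Stair.prog g l ih hcond
    have e : C ∪ ((D ∪ {x | ∃ j : ℕ, 1 ≤ j ∧ j ≤ l ∧ x - j • g ∈ K1}) \ K) =
        (C ∪ (D \ K)) ∪ {x | ∃ j : ℕ, 1 ≤ j ∧ j ≤ l ∧ x - j • g ∈ K1} := by
      ext x
      constructor
      · rintro (hx | ⟨hx | hx, hxK⟩)
        · exact Or.inl (Or.inl hx)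
        · exact Or.inl (Or.inr ⟨hx, hxK⟩)
        · exact Or.inr hx
      · rintro ((hx | ⟨hx, hxK⟩) | hx)
        · exact Or.inl hx
        · exact Or.inr ⟨Or.inl hx, hxK⟩
        · refine Or.inr ⟨Or.inr hx, fun hxK => ?_⟩
          obtain ⟨j, hj1, hj2, hj⟩ := hx
          have h3 : j • g ∈ K1 := by
            have := K1.sub_mem (hK hxK) hj
            rwa [sub_sub_cancel] at this
          exact hcond j hj1 (hj2.trans (Nat.le_mul_of_pos_left l h1)) h3
    rw [e]
    exact h2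
  | @half K1 L D T h2 hD hKL hT1 hT2 hT3 ih =>
    have hK := stair_le hD
    have h3 := Stair.half h2 ih hKL hT1 hT2 hT3
    have e : C ∪ ((D ∪ T) \ K) = (C ∪ (D \ K)) ∪ T := by
      ext x
      constructor
      · rintro (hx | ⟨hx | hx, hxK⟩)
        · exact Or.inl (Or.inl hx)
        · exact Or.inl (Or.inr ⟨hx, hxK⟩)
        · exact Or.inr hx
      · rintro ((hx | ⟨hx, hxK⟩) | hx)
        · exact Or.inl hx
        · exact Or.inr ⟨Or.inl hx, hxK⟩
        · exact Or.inr ⟨Or.inr hx, fun hxK => (hT1 x hx).2 (hK hxK)⟩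
    rw [e]
    exact h3

theorem sta : StmSTA :=
  ⟨fun _ _ _ _ f h _ _ _ hf hs => stair_map f h hf hs,
    fun _ _ _ _ f h _ _ _ hf hs => stair_comap f h hf hs,
    fun _ _ _ _ _ _ _ _ h1 hs hs' => stair_comp h1 hs hs'⟩

end Pool.Agent.T6.H65.KP.ModSTA
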