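import Pool.Agent.T6.H65.KP.Defs

set_option autoImplicit false

/-!
# Module STC
-/

open scoped Pointwise
open Finset
open Pool.Agent.Helper549.Kneser

namespace Pool.Agent.T6.H65.KP.ModSTC

open Pool.Agent.T6.H65.KP

section

variable {G : Type} [AddCommGroup G] [Fintype G] [DecidableEq G]

/-- The union of the cosets `j • g + K`, `1 ≤ j ≤ N`. -/
noncomputable def T (K : AddSubgroup G) (g : G) (N : ℕ) : Finset G :=
  (Finset.Icc 1 N).biUnion fun j => (fs K).image fun x => x + j • g

theorem mem_T {K : AddSubgroup G} {g : G} {N : ℕ} {x : G} :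
    x ∈ T K g N ↔ ∃ j, 1 ≤ j ∧ j ≤ N ∧ x - j • g ∈ K := by
  unfold T
  simp only [mem_biUnion, Finset.mem_Icc, mem_image, mem_fs]
  constructor
  · rintro ⟨j, hj, y, hy, rfl⟩
    exact ⟨j, hj.1, hj.2, by simpa using hy⟩
  · rintro ⟨j, hj, hj2, hx⟩
    exact ⟨j, ⟨hj, hj2⟩, _, hx, by abel⟩

theorem card_T_le (K : AddSubgroup G) (g : G) (N : ℕ) : (T K g N).card ≤ N * (fs K).card := by
  unfold T
  refine card_biUnion_le.trans ?_
  calc ∑ j ∈ Finset.Icc 1 N, ((fs K).image fun x => x + j • g).card
      ≤ ∑ _j ∈ Finset.Icc 1 N, (fs K).card :=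
        Finset.sum_le_sum fun j _ => card_image_le
    _ = N * (fs K).card := by simp

theorem card_T (K : AddSubgroup G) (g : G) (N : ℕ) (h : ∀ j, 1 ≤ j → j ≤ N → j • g ∉ K) :
    (T K g N).card = N * (fs K).card := by
  unfold T
  rw [card_biUnion]
  · rw [Finset.sum_congr rfl (g := fun _ => (fs K).card)]
    · simp
    · intro j _
      exact card_image_of_injective _ (add_left_injective _)
  · have key : ∀ i j, i < j → j ≤ N →
        Disjoint ((fs K).image fun x => x + i • g) ((fs K).image fun x => x + j • g) := by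
      intro i j hij hj
      rw [Finset.disjoint_left]
      intro x hx hx'
      obtain ⟨y, hy, rfl⟩ := mem_image.1 hx
      obtain ⟨z, hz, hzz⟩ := mem_image.1 hx'
      apply h (j - i) (by omega) (by omega)
      have e1 : (j - i) • g = y - z := by
        have e2 : (j - i) • g + i • g = j • g := by
          rw [← add_nsmul, Nat.sub_add_cancel hij.le]
        have e3 : (j - i) • g = j • g - i • g := by rw [← e2]; abel
        rw [e3]
        have e4 : z + j • g = y + i • g := hzz
        have e5 : j • g = y + i • g - z := by rw [← e4]; abel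
        rw [e5]; abel
      rw [e1]
      exact K.sub_mem (mem_fs.1 hy) (mem_fs.1 hz)
    intro i hi j hj hij
    rcases lt_or_gt_of_ne hij with h1 | h1
    · exact key i j h1 (Finset.mem_Icc.1 hj).2
    · exact (key j i h1 (Finset.mem_Icc.1 hi).2).symm

omit [Fintype G] in
theorem hs_mem (K : AddSubgroup G) (A : Finset G) (hA : ∀ x ∈ A, x ∈ K) :
    ∀ n, ∀ x ∈ hs n A, x ∈ K := by
  intro n
  induction n with
  | zero =>
    intro x hx
    rw [hs, mem_singleton] at hx
    rw [hx]
    exact K.zero_mem
  | succ n ih =>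
    intro x hx
    rw [hs] at hx
    obtain ⟨y, hy, z, hz, rfl⟩ := Finset.mem_add.1 hx
    exact K.add_mem (ih y hy) (hA z hz)

theorem hs_sub (K : AddSubgroup G) (g : G) (l : ℕ) (C : Finset G) (hC : ∀ x ∈ C, x ∈ K) :
    ∀ n, hs n (C ∪ T K g l) ⊆ hs n C ∪ T K g (n * l) := by
  intro n
  induction n with
  | zero =>
    intro x hx
    exact mem_union_left _ hx
  | succ n ih =>
    intro x hx
    rw [hs] at hx
    obtain ⟨y, hy, z, hz, rfl⟩ := Finset.mem_add.1 hx
    have hy' := ih hy
    rw [mem_union, mem_T] at hy' hz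
    rw [mem_union, mem_T]
    have e0 : (n + 1) * l = n * l + l := by ring
    rcases hy' with hy' | ⟨j, hj1, hj2, hyj⟩
    · rcases hz with hz | ⟨i, hi1, hi2, hzi⟩
      · left
        rw [hs]
        exact Finset.add_mem_add hy' hz
      · right
        refine ⟨i, hi1, by omega, ?_⟩
        rw [add_sub_assoc]
        exact K.add_mem (hs_mem K C hC n y hy') hzi
    · right
      rcases hz with hz | ⟨i, hi1, hi2, hzi⟩
      · refine ⟨j, hj1, by omega, ?_⟩
        have : y + z - j • g = (y - j • g) + z := by abel
        rw [this]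
        exact K.add_mem hyj (hC z hz)
      · refine ⟨j + i, by omega, by omega, ?_⟩
        have : y + z - (j + i) • g = (y - j • g) + (z - i • g) := by
          rw [add_nsmul]; abel
        rw [this]
        exact K.add_mem hyj hzi

theorem hs_fs (H : AddSubgroup G) : ∀ n, 1 ≤ n → hs n (fs H) = fs H := by
  intro n hn
  induction n, hn using Nat.le_induction with
  | base => rw [hs, hs, Finset.singleton_zero, zero_add]
  | succ n hn ih =>
    rw [hs, ih]
    ext x
    rw [Finset.mem_add]
    constructor
    · rintro ⟨y, hy, z, hz, rfl⟩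
      exact mem_fs.2 (H.add_mem (mem_fs.1 hy) (mem_fs.1 hz))
    · intro hx
      exact ⟨x, hx, 0, mem_fs.2 H.zero_mem, add_zero x⟩

theorem card_fs (H : AddSubgroup G) : (fs H).card = Nat.card H := by
  rw [← Fintype.card_coe, ← Nat.card_eq_fintype_card]
  exact Nat.card_congr (Equiv.subtypeEquivRight fun x => mem_fs)

open Classical in
/-- The finset of a set. -/
noncomputable def tf (C : Set G) : Finset G := univ.filter fun x => x ∈ C

omit [AddCommGroup G] [DecidableEq G] in
theorem mem_tf {C : Set G} {x : G} : x ∈ tf C ↔ x ∈ C := by simp [tf]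

/-- The inductive statement. -/
theorem main (h : ℕ) (hh : 1 ≤ h) (H L : AddSubgroup G) (C : Set G) (hst : Stair h H L C) :
    ((∀ x ∈ H, x ∈ C) ∧ ∀ x ∈ C, x ∈ L) ∧
      (hs h (tf C)).card + (h - 1) * (fs H).card ≤ h * (tf C).card := by
  induction hst with
  | base =>
    refine ⟨⟨fun x hx => hx, fun x hx => hx⟩, ?_⟩
    have h1 : tf (H : Set G) = fs H := by
      ext x
      rw [mem_tf, mem_fs]
      rfl
    rw [h1, hs_fs H h hh]
    obtain ⟨k, rfl⟩ : ∃ k, h = k + 1 := ⟨h - 1, by omega⟩
    rw [Nat.add_sub_cancel]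
    apply le_of_eq
    ring
  | grow _ hKL ih =>
    exact ⟨⟨ih.1.1, fun x hx => hKL (ih.1.2 x hx)⟩, ih.2⟩
  | @prog K C g l _ hj ih =>
    obtain ⟨⟨i1, i2⟩, i3⟩ := ih
    have hT : tf (C ∪ {x | ∃ j : ℕ, 1 ≤ j ∧ j ≤ l ∧ x - j • g ∈ K}) = tf C ∪ T K g l := by
      ext x
      rw [mem_tf, mem_union, mem_tf, mem_T]
      rfl
    refine ⟨⟨fun x hx => Or.inl (i1 x hx), ?_⟩, ?_⟩
    · rintro x (hx | ⟨j, _, _, hx⟩)
      · exact (le_sup_left : K ≤ K ⊔ AddSubgroup.zmultiples g) (i2 x hx)
      · have h1 : x = (x - j • g) + j • g := by abel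
        rw [h1]
        apply AddSubgroup.add_mem
        · exact (le_sup_left : K ≤ K ⊔ AddSubgroup.zmultiples g) hx
        · exact AddSubgroup.nsmul_mem _
            ((le_sup_right : AddSubgroup.zmultiples g ≤ K ⊔ AddSubgroup.zmultiples g)
              (AddSubgroup.mem_zmultiples g)) j
    · rw [hT]
      have hll : l ≤ h * l := Nat.le_mul_of_pos_left l hh
      have hdisj : Disjoint (tf C) (T K g l) := by
        rw [Finset.disjoint_left]
        intro x hx hx'
        obtain ⟨j, h1, h2, h3⟩ := mem_T.1 hx'
        apply hj j h1 (by omega)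
        have h4 : j • g = x - (x - j • g) := by abel
        rw [h4]
        exact K.sub_mem (i2 x (mem_tf.1 hx)) h3
      rw [card_union_of_disjoint hdisj, card_T K g l (fun j h1 h2 => hj j h1 (by omega))]
      have h1 := Finset.card_le_card
        (hs_sub K g l (tf C) (fun x hx => i2 x (mem_tf.1 hx)) h)
      have h2 := Finset.card_union_le (hs h (tf C)) (T K g (h * l))
      have h3 := card_T_le K g (h * l)
      have h4 : h * ((tf C).card + l * (fs K).card) = h * (tf C).card + h * l * (fs K).card := by
        ring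
      omega
  | @half K L C S h2 _ hKL hS1 hS2 hS3 ih =>
    subst h2
    obtain ⟨⟨i1, i2⟩, i3⟩ := ih
    refine ⟨⟨fun x hx => Or.inl (i1 x hx), ?_⟩, ?_⟩
    · rintro x (hx | hx)
      · exact hKL (i2 x hx)
      · exact (hS1 x hx).1
    · have hU : tf (C ∪ S) = tf C ∪ tf S := by
        ext x
        rw [mem_tf, mem_union, mem_tf, mem_tf]
        rfl
      have hdisj : Disjoint (tf C) (tf S) := by
        rw [Finset.disjoint_left]
        intro x hx hx'
        exact (hS1 x (mem_tf.1 hx')).2 (i2 x (mem_tf.1 hx))
      have hD : (fs L \ fs K).card = 2 * (tf S).card := by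
        have h1 : fs L \ fs K = tf S ∪ (tf S).image (fun x => -x) := by
          ext x
          rw [mem_sdiff, mem_fs, mem_fs, mem_union, mem_tf, mem_image]
          constructor
          · rintro ⟨h1, h2⟩
            by_cases hx : x ∈ S
            · exact Or.inl hx
            · right
              refine ⟨-x, ?_, neg_neg x⟩
              rw [mem_tf]
              by_contra h3
              exact hx ((hS3 x h1 h2).2 h3)
          · rintro (h1 | ⟨y, hy, rfl⟩)
            · exact hS1 x h1
            · have h2 := hS1 y (mem_tf.1 hy)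
              exact ⟨L.neg_mem h2.1, fun h3 => h2.2 (by simpa using K.neg_mem h3)⟩
        rw [h1, card_union_of_disjoint, card_image_of_injective _ neg_injective]
        · ring
        · rw [Finset.disjoint_left]
          intro x hx hx'
          obtain ⟨y, hy, rfl⟩ := mem_image.1 hx'
          have h2 := hS1 _ (mem_tf.1 hx)
          have h3 := (hS3 _ h2.1 h2.2).1 (mem_tf.1 hx)
          rw [neg_neg] at h3
          exact h3 (mem_tf.1 hy)
      have hsub : hs 2 (tf C ∪ tf S) ⊆ hs 2 (tf C) ∪ (fs L \ fs K) := by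
        have e2 : ∀ A : Finset G, hs 2 A = A + A := by
          intro A
          rw [hs, hs, hs, Finset.singleton_zero, zero_add]
        rw [e2, e2]
        intro x hx
        obtain ⟨y, hy, z, hz, rfl⟩ := Finset.mem_add.1 hx
        rw [mem_union, mem_tf, mem_tf] at hy hz
        rw [mem_union, mem_sdiff, mem_fs, mem_fs]
        rcases hy with hy | hy
        · rcases hz with hz | hz
          · left
            exact Finset.add_mem_add (mem_tf.2 hy) (mem_tf.2 hz)
          · right
            refine ⟨L.add_mem (hKL (i2 y hy)) (hS1 z hz).1, fun h1 => (hS1 z hz).2 ?_⟩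
            have h3 : z = (y + z) - y := by abel
            rw [h3]
            exact K.sub_mem h1 (i2 y hy)
        · right
          rcases hz with hz | hz
          · refine ⟨L.add_mem (hS1 y hy).1 (hKL (i2 z hz)), fun h1 => (hS1 y hy).2 ?_⟩
            have h3 : y = (y + z) - z := by abel
            rw [h3]
            exact K.sub_mem h1 (i2 z hz)
          · refine ⟨L.add_mem (hS1 y hy).1 (hS1 z hz).1, fun h1 => ?_⟩
            have h3 : -y = z + -(y + z) := by abel
            have h4 : -y ∈ S := by
              rw [h3]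
              exact hS2 z hz _ (K.neg_mem h1)
            exact (hS3 y (hS1 y hy).1 (hS1 y hy).2).1 hy h4
      rw [hU, card_union_of_disjoint hdisj]
      have h1 := Finset.card_le_card hsub
      have h2 := Finset.card_union_le (hs 2 (tf C)) (fs L \ fs K)
      omega

end

/-- Module STC. -/
theorem stc (_bas : StmBAS) : StmSTC := by
  intro G _ _ _ h H L C hh hst
  have h1 := (main h hh H L (C : Set G) hst).2
  have h2 : tf (C : Set G) = C := by
    ext x
    rw [mem_tf]
    simp
  rw [h2, card_fs] at h1
  exact h1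

end Pool.Agent.T6.H65.KP.ModSTC
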