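import Pool.Agent.T6.H65.KP.Defs

/-!
The structure of the extremal sets with an extreme point, `h = 2` (module THR).
-/

set_option autoImplicit false

open scoped Pointwise
open Finset
open Pool.Agent.Helper549.Kneser

namespace Pool.Agent.T6.H65.KP.ModTHR

open Pool.Agent.T6.H65.KP

theorem ext2_iff (bas : StmBAS) {G : Type} [AddCommGroup G] [Fintype G] [DecidableEq G]
    (B : Finset G) : Ext 2 B 0 ↔ (0 ∈ B ∧ ∀ b ∈ B, -b ∈ B → b = 0) := by
  have h1 : hs (2 - 1) B = B := (bas G).2.2.1 B
  unfold Ext
  rw [h1, smul_zero]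
  simp only [zero_sub]

/-- the case of a progression -/
theorem stair_ap {G : Type} [AddCommGroup G] [Fintype G] [DecidableEq G] {B : Finset G}
    (h0 : 0 ∈ B) (hE : ∀ b ∈ B, -b ∈ B → b = 0) (h2 : 2 ≤ B.card) (hap : IsAP B) :
    Stair 2 ⊥ ⊤ (B : Set G) := by
  obtain ⟨a, g, hB⟩ := hap
  have hmem : ∀ x, x ∈ B ↔ ∃ j < B.card, a + j • g = x := by
    intro x
    conv_lhs => rw [hB]
    simp only [Finset.mem_image, Finset.mem_range]
  have hg : g ≠ 0 := by
    rintro rfl
    have : B ⊆ {a} := by
      intro x hx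
      obtain ⟨j, _, rfl⟩ := (hmem x).1 hx
      simp
    have := Finset.card_le_card this
    rw [Finset.card_singleton] at this
    omega
  -- normal form
  obtain ⟨g', hg'⟩ : ∃ g' : G, ∀ x, x ∈ B ↔ ∃ j < B.card, j • g' = x := by
    obtain ⟨i, hi, hi0⟩ := (hmem 0).1 h0
    rcases Nat.eq_zero_or_pos i with hi1 | hi1
    · subst hi1
      rw [zero_smul, add_zero] at hi0
      subst hi0
      refine ⟨g, fun x => ?_⟩
      rw [hmem]
      simp only [zero_add]
    · by_cases hil : i + 1 < B.card
      · exfalso
        apply hg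
        apply hE g
        · rw [hmem]
          refine ⟨i + 1, hil, ?_⟩
          rw [add_smul, one_smul, ← add_assoc, hi0, zero_add]
        · rw [hmem]
          refine ⟨i - 1, by omega, ?_⟩
          have : i • g = (i - 1) • g + g := by
            conv_lhs => rw [show i = (i - 1) + 1 by omega]
            rw [add_smul, one_smul]
          rw [this, ← add_assoc] at hi0
          exact eq_neg_of_add_eq_zero_left hi0
      · have hil' : i = B.card - 1 := by omega
        refine ⟨-g, fun x => ?_⟩
        have ha : a = -(i • g) := eq_neg_of_add_eq_zero_left hi0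
        have hsum : ∀ j ≤ i, a + j • g = (i - j) • (-g) := by
          intro j hj
          have : i • g = (i - j) • g + j • g := by
            rw [← add_smul]
            congr 1
            omega
          rw [ha, this, smul_neg, neg_add]
          abel
        rw [hmem]
        constructor
        · rintro ⟨j, hj, rfl⟩
          exact ⟨i - j, by omega, (hsum j (by omega)).symm⟩
        · rintro ⟨j, hj, rfl⟩
          refine ⟨i - j, by omega, ?_⟩
          rw [hsum (i - j) (by omega)]
          congr 1
          omega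
  have hBim : B = (Finset.range B.card).image (fun j => j • g') := by
    ext x
    rw [hg', Finset.mem_image]
    simp only [Finset.mem_range]
  have hinj : Set.InjOn (fun j : ℕ => j • g') (Finset.range B.card : Set ℕ) := by
    rw [← Finset.card_image_iff, ← hBim, Finset.card_range]
  set l := B.card - 1 with hl
  have hcond : ∀ j : ℕ, 1 ≤ j → j ≤ 2 * l → j • g' ∉ (⊥ : AddSubgroup G) := by
    intro j hj1 hj2 hj
    rw [AddSubgroup.mem_bot] at hj
    set j1 := min j l with hj1'
    have e : j = j1 + (j - j1) := by omega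
    have m1 : j1 • g' ∈ B := (hg' _).2 ⟨j1, by omega, rfl⟩
    have m2 : (j - j1) • g' ∈ B := (hg' _).2 ⟨j - j1, by omega, rfl⟩
    have hneg : -(j1 • g') = (j - j1) • g' := by
      rw [e, add_smul] at hj
      exact (eq_neg_of_add_eq_zero_right hj).symm
    have h3 := hE _ m1 (by rw [hneg]; exact m2)
    have h4 : j1 = 0 := by
      apply hinj
      · rw [Finset.mem_coe, Finset.mem_range]; omega
      · rw [Finset.mem_coe, Finset.mem_range]; omega
      · show j1 • g' = 0 • g'
        rw [h3, zero_smul]
    omega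
  have hst := Stair.grow (Stair.prog g' l (Stair.base (h := 2) (H := (⊥ : AddSubgroup G))) hcond)
    (le_top)
  have hset : (B : Set G) = ((⊥ : AddSubgroup G) : Set G) ∪
      {x | ∃ j : ℕ, 1 ≤ j ∧ j ≤ l ∧ x - j • g' ∈ (⊥ : AddSubgroup G)} := by
    ext x
    rw [Finset.mem_coe, hg']
    constructor
    · rintro ⟨j, hj, rfl⟩
      rcases Nat.eq_zero_or_pos j with h | h
      · left
        subst h
        rw [zero_smul]
        exact AddSubgroup.zero_mem _
      · right
        exact ⟨j, h, by omega, by rw [sub_self]; exact AddSubgroup.zero_mem _⟩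
    · rintro (hx | ⟨j, hj1, hj2, hj⟩)
      · have hx' : x ∈ (⊥ : AddSubgroup G) := hx
        rw [AddSubgroup.mem_bot] at hx'
        exact ⟨0, by omega, by rw [zero_smul, hx']⟩
      · rw [AddSubgroup.mem_bot, sub_eq_zero] at hj
        exact ⟨j, by omega, hj.symm⟩
  rw [hset]
  exact hst

/-- the case of the whole group -/
theorem stair_half {G : Type} [AddCommGroup G] [Fintype G] [DecidableEq G] {B : Finset G}
    (h0 : 0 ∈ B) (h : ∀ x : G, x ≠ 0 → (x ∈ B ↔ -x ∉ B)) : Stair 2 ⊥ ⊤ (B : Set G) := by
  have hst := Stair.half (T := {x | x ∈ B ∧ x ≠ 0}) rfl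
    (Stair.base (h := 2) (H := (⊥ : AddSubgroup G))) (le_top : (⊥ : AddSubgroup G) ≤ ⊤) ?_ ?_ ?_
  · have hset : (B : Set G) = ((⊥ : AddSubgroup G) : Set G) ∪ {x | x ∈ B ∧ x ≠ 0} := by
      ext x
      rw [Finset.mem_coe]
      constructor
      · intro hx
        by_cases hx0 : x = 0
        · left
          rw [hx0]
          exact AddSubgroup.zero_mem _
        · exact Or.inr ⟨hx, hx0⟩
      · rintro (hx | hx)
        · have hx' : x ∈ (⊥ : AddSubgroup G) := hx
          rw [AddSubgroup.mem_bot] at hx'
          rw [hx']; exact h0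
        · exact hx.1
    rw [hset]
    exact hst
  · rintro x ⟨_, hx0⟩
    exact ⟨AddSubgroup.mem_top x, fun hb => hx0 (AddSubgroup.mem_bot.1 hb)⟩
  · rintro x hx k hk
    rw [AddSubgroup.mem_bot] at hk
    rw [hk, add_zero]
    exact hx
  · intro x _ hx
    have hx0 : x ≠ 0 := fun h => hx (AddSubgroup.mem_bot.2 h)
    have h1 := h x hx0
    constructor
    · rintro ⟨hxB, _⟩ ⟨hx', _⟩
      exact h1.1 hxB hx'
    · intro hx'
      refine ⟨h1.2 fun h2 => hx' ⟨h2, neg_ne_zero.2 hx0⟩, hx0⟩

theorem thr (bas : StmBAS) (vos : StmVOS) (prg : StmPRG) (slu : StmSLU) (hlf : StmHLF)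
    (coa : StmCOA) (sta : StmSTA) : StmTHR := by
  have main : ∀ (n : ℕ) (G : Type) [AddCommGroup G] [Fintype G] [DecidableEq G],
      Fintype.card G = n → ∀ B : Finset G, Ext 2 B 0 → (B + B).card + 1 = 2 * B.card →
        Stair 2 ⊥ ⊤ (B : Set G) := by
    intro n
    induction n using Nat.strong_induction_on with
    | _ n ih =>
    intro G _ _ _ hn B hExt hcard
    obtain ⟨h0, hE⟩ := (ext2_iff bas B).1 hExt
    have hBpos : 1 ≤ B.card := Finset.card_pos.2 ⟨0, h0⟩
    by_cases h1 : B.card = 1
    · obtain ⟨x, hx⟩ := Finset.card_eq_one.1 h1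
      have hx0 : x = 0 := by
        rw [hx, Finset.mem_singleton] at h0
        exact h0.symm
      subst hx0
      have hst := Stair.grow (Stair.base (h := 2) (H := (⊥ : AddSubgroup G))) (le_top)
      have : (B : Set G) = ((⊥ : AddSubgroup G) : Set G) := by
        rw [hx]
        ext y
        rw [Finset.mem_coe, Finset.mem_singleton, SetLike.mem_coe, AddSubgroup.mem_bot]
      rw [this]
      exact hst
    have h2 : 2 ≤ B.card := by omega
    have hle : (B + B).card ≤ Fintype.card G := Finset.card_le_univ _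
    by_cases hA : (B + B).card = Fintype.card G
    · exact stair_half h0 (hlf G B hExt hcard hA)
    have hcases : IsAP B ∨ ∃ H : AddSubgroup G, H ≠ ⊥ ∧ H ≠ ⊤ ∧
        (B + fs H).card + 1 ≤ B.card + (fs H).card := by
      by_cases hBc : (B + B).card + 1 = Fintype.card G
      · obtain ⟨g, hg0, hg⟩ := coa G B hExt hcard hBc
        obtain ⟨p1, p2⟩ := prg G B g ⟨0, h0⟩ hg0 hg
        by_cases ht : AddSubgroup.zmultiples g = ⊤
        · left
          apply p2 ht
          rintro rfl
          rw [Finset.card_univ] at hcard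
          omega
        · right
          refine ⟨AddSubgroup.zmultiples g, ?_, ht, p1⟩
          rw [Ne, AddSubgroup.zmultiples_eq_bot]
          exact hg0
      · exact vos G B h0 h2 hcard (by omega)
    rcases hcases with hap | ⟨H, hH1, hH2, hH⟩
    · exact stair_ap h0 hE h2 hap
    classical
    let _ : Fintype (G ⧸ H) := Fintype.ofFinite _
    let _ : DecidableEq (G ⧸ H) := Classical.decEq _
    obtain ⟨s1, s2, s3, s4⟩ := slu G B (B.filter (fun x => x ∈ H)) H hExt hcard hH
      (fun x => Finset.mem_filter)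
    -- sizes
    have hcG : Nat.card H * H.index = Nat.card G := H.card_mul_index
    have hHpos : 0 < Nat.card H := Nat.card_pos
    have hidx : H.index = Nat.card (G ⧸ H) := AddSubgroup.index_eq_card H
    have hidxpos : 0 < H.index := by rw [hidx]; exact Nat.card_pos
    have hi1 : H.index ≠ 1 := fun h => hH2 (AddSubgroup.index_eq_one.1 h)
    have hc1 : Nat.card H ≠ 1 := fun h => hH1 (AddSubgroup.card_eq_one.1 h)
    have hGn : Nat.card G = n := by rw [Nat.card_eq_fintype_card, hn]
    have lt1 : Fintype.card H < n := by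
      rw [← Nat.card_eq_fintype_card, ← hGn, ← hcG]
      nlinarith [Nat.lt_of_le_of_ne hidxpos (Ne.symm hi1)]
    have lt2 : Fintype.card (G ⧸ H) < n := by
      rw [← Nat.card_eq_fintype_card, ← hGn, ← hcG, ← hidx]
      nlinarith [Nat.lt_of_le_of_ne hHpos (Ne.symm hc1)]
    -- the quotient
    have q1 := ih _ lt2 (G ⧸ H) rfl (B.image (QuotientAddGroup.mk' H)) s2 s3
    have q2 := sta.2.1 G (G ⧸ H) (QuotientAddGroup.mk' H) 2 ⊥ ⊤ _
      (QuotientAddGroup.mk'_surjective H) q1
    have e1 : (⊥ : AddSubgroup (G ⧸ H)).comap (QuotientAddGroup.mk' H) = H := by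
      rw [AddMonoidHom.comap_bot]
      exact QuotientAddGroup.ker_mk' H
    have e2 : (⊤ : AddSubgroup (G ⧸ H)).comap (QuotientAddGroup.mk' H) = ⊤ :=
      AddSubgroup.comap_top _
    rw [e1, e2] at q2
    -- the subgroup
    set B0 : Finset H := B.subtype (fun x => x ∈ H) with hB0
    have hB0m : ∀ x : H, x ∈ B0 ↔ (x : G) ∈ B := by
      intro x
      rw [hB0, Finset.mem_subtype]
    have him : B0.image (H.subtype) = B.filter (fun x => x ∈ H) := by
      ext x
      rw [Finset.mem_image, Finset.mem_filter]
      constructor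
      · rintro ⟨y, hy, rfl⟩
        exact ⟨(hB0m y).1 hy, y.2⟩
      · rintro ⟨hx, hxH⟩
        exact ⟨⟨x, hxH⟩, (hB0m _).2 hx, rfl⟩
    have hinj : Function.Injective (H.subtype) := AddSubgroup.subtype_injective H
    have k1 : (B0 + B0).card + 1 = 2 * B0.card := by
      have c1 : (B0 + B0).card = ((B.filter (fun x => x ∈ H)) + (B.filter (fun x => x ∈ H))).card := by
        rw [← him, ← Finset.image_add, Finset.card_image_of_injective _ hinj]
      have c2 : B0.card = (B.filter (fun x => x ∈ H)).card := by
        rw [← him, Finset.card_image_of_injective _ hinj]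
      rw [c1, c2]
      exact s4
    have k2 : Ext 2 B0 0 := by
      rw [ext2_iff bas]
      refine ⟨(hB0m 0).2 h0, fun b hb hb' => ?_⟩
      have := hE (b : G) ((hB0m b).1 hb) ((hB0m (-b)).1 hb')
      exact Subtype.ext this
    have r1 := ih _ lt1 H rfl B0 k2 k1
    have r2 := sta.1 H G H.subtype 2 ⊥ ⊤ _ hinj r1
    have e3 : (⊥ : AddSubgroup H).map H.subtype = ⊥ := AddSubgroup.map_bot _
    have e4 : (⊤ : AddSubgroup H).map H.subtype = H := by
      rw [← AddMonoidHom.range_eq_map]
      exact AddSubgroup.range_subtype H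
    rw [e3, e4] at r2
    have fin := sta.2.2 G 2 ⊥ H ⊤ _ _ (by norm_num) r2 q2
    have hset : (B : Set G) = (H.subtype '' (B0 : Set H)) ∪
        (((QuotientAddGroup.mk' H) ⁻¹' ((B.image (QuotientAddGroup.mk' H) : Finset (G ⧸ H)) :
          Set (G ⧸ H))) \ (H : Set G)) := by
      ext x
      rw [Finset.mem_coe]
      constructor
      · intro hx
        by_cases hxH : x ∈ H
        · exact Or.inl ⟨⟨x, hxH⟩, (hB0m _).2 hx, rfl⟩
        · refine Or.inr ⟨?_, hxH⟩
          show (QuotientAddGroup.mk' H) x ∈ ((B.image (QuotientAddGroup.mk' H) :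
            Finset (G ⧸ H)) : Set (G ⧸ H))
          exact Finset.mem_coe.2 (Finset.mem_image_of_mem _ hx)
      · rintro (⟨y, hy, rfl⟩ | ⟨hx, hxH⟩)
        · exact (hB0m y).1 hy
        · have hx' : (QuotientAddGroup.mk' H) x ∈ B.image (QuotientAddGroup.mk' H) :=
            Finset.mem_coe.1 hx
          obtain ⟨b, hb, hbx⟩ := Finset.mem_image.1 hx'
          have hk : -b + x ∈ H := by
            rw [← QuotientAddGroup.eq]
            exact hbx
          have hbH : b ∉ H := by
            intro hbH
            apply hxH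
            have := H.add_mem hbH hk
            rwa [add_neg_cancel_left] at this
          have := s1 b hb hbH (-b + x) hk
          rwa [add_neg_cancel_left] at this
    rw [hset]
    exact fin
  intro G _ _ _ B h1 h2
  exact main _ G rfl B h1 h2

end Pool.Agent.T6.H65.KP.ModTHR
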