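import Pool.Agent.T6.H65.KP.Defs

set_option autoImplicit false

/-!
# Module UPP
-/

open scoped Pointwise
open Finset
open Pool.Agent.Helper549.Kneser

namespace Pool.Agent.T6.H65.KP.ModUPP

open Pool.Agent.T6.H65.KP

section

variable {G : Type} [AddCommGroup G] [Fintype G] [DecidableEq G]

/-- The union of the cosets `j • g + K`, `j < N`. -/
noncomputable def T (K : AddSubgroup G) (g : G) (N : ℕ) : Finset G :=
  (range N).biUnion fun j => (fs K).image fun x => x + j • g

theorem mem_T {K : AddSubgroup G} {g : G} {N : ℕ} {x : G} :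
    x ∈ T K g N ↔ ∃ j < N, x - j • g ∈ K := by
  unfold T
  simp only [mem_biUnion, mem_range, mem_image, mem_fs]
  constructor
  · rintro ⟨j, hj, y, hy, rfl⟩
    exact ⟨j, hj, by simpa using hy⟩
  · rintro ⟨j, hj, hx⟩
    exact ⟨j, hj, _, hx, by abel⟩

theorem card_T_le (K : AddSubgroup G) (g : G) (N : ℕ) : (T K g N).card ≤ N * (fs K).card := by
  unfold T
  refine card_biUnion_le.trans ?_
  calc ∑ j ∈ range N, ((fs K).image fun x => x + j • g).card ≤ ∑ _j ∈ range N, (fs K).card :=
        Finset.sum_le_sum fun j _ => card_image_le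
    _ = N * (fs K).card := by simp

theorem card_T (K : AddSubgroup G) (g : G) (N : ℕ) (h : ∀ j, 1 ≤ j → j < N → j • g ∉ K) :
    (T K g N).card = N * (fs K).card := by
  unfold T
  rw [card_biUnion]
  · rw [Finset.sum_congr rfl (g := fun _ => (fs K).card)]
    · simp
    · intro j _
      exact card_image_of_injective _ (add_left_injective _)
  · have key : ∀ i j, i < j → j < N →
        Disjoint ((fs K).image fun x => x + i • g) ((fs K).image fun x => x + j • g) := by
      intro i j hij hj
      rw [Finset.disjoint_left]
      intro x hx hx'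
      obtain ⟨y, hy, rfl⟩ := mem_image.1 hx
      obtain ⟨z, hz, hzz⟩ := mem_image.1 hx'
      apply h (j - i) (by omega) (by omega)
      have e1 : (j - i) • g = y - z := by
        have e2 : (j - i) • g + i • g = j • g := by
          rw [← add_nsmul, Nat.sub_add_cancel hij.le]
        have e3 : (j - i) • g = j • g - i • g := by rw [← e2]; abel
        rw [e3]
        have e4 : z + j • g = y + i • g := hzz
        have e5 : j • g = y + i • g - z := by rw [← e4]; abel
        rw [e5]; abel
      rw [e1]
      exact K.sub_mem (mem_fs.1 hy) (mem_fs.1 hz)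
    intro i hi j hj hij
    rcases lt_or_gt_of_ne hij with h1 | h1
    · exact key i j h1 (mem_range.1 hj)
    · exact (key j i h1 (mem_range.1 hi)).symm

omit [Fintype G] in
theorem hs_mem (K : AddSubgroup G) (A : Finset G) (hA : ∀ x ∈ A, x ∈ K) :
    ∀ n, ∀ x ∈ hs n A, x ∈ K := by
  intro n
  induction n with
  | zero =>
    intro x hx
    rw [hs, mem_singleton] at hx
    rw [hx]
    exact K.zero_mem
  | succ n ih =>
    intro x hx
    rw [hs] at hx
    obtain ⟨y, hy, z, hz, rfl⟩ := Finset.mem_add.1 hx
    exact K.add_mem (ih y hy) (hA z hz)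

theorem hs_sub (K : AddSubgroup G) (g : G) (a : ℕ) (A₀ : Finset G) (hA : ∀ x ∈ A₀, x ∈ K) :
    ∀ n, hs n (T K g a ∪ A₀.image (fun x => x + a • g)) ⊆
      T K g (n * a) ∪ (hs n A₀).image (fun x => x + (n * a) • g) := by
  intro n
  induction n with
  | zero =>
    intro x hx
    rw [hs, mem_singleton] at hx
    rw [hx]
    apply mem_union_right
    rw [mem_image]
    exact ⟨0, by rw [hs, mem_singleton], by simp⟩
  | succ n ih =>
    intro x hx
    rw [hs] at hx
    obtain ⟨y, hy, z, hz, rfl⟩ := Finset.mem_add.1 hx
    have hy' := ih hy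
    rw [mem_union, mem_image, mem_T] at hy' hz
    rw [mem_union, mem_image, mem_T]
    rcases hy' with ⟨j, hj, hyj⟩ | ⟨y', hy', rfl⟩
    · left
      rcases hz with ⟨i, hi, hzi⟩ | ⟨z', hz', rfl⟩
      · refine ⟨j + i, by rw [Nat.add_mul, Nat.one_mul]; omega, ?_⟩
        have : y + z - (j + i) • g = (y - j • g) + (z - i • g) := by
          rw [add_nsmul]; abel
        rw [this]
        exact K.add_mem hyj hzi
      · refine ⟨j + a, by rw [Nat.add_mul, Nat.one_mul]; omega, ?_⟩
        have : y + (z' + a • g) - (j + a) • g = (y - j • g) + z' := by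
          rw [add_nsmul]; abel
        rw [this]
        exact K.add_mem hyj (hA z' hz')
    · rcases hz with ⟨i, hi, hzi⟩ | ⟨z', hz', rfl⟩
      · left
        refine ⟨n * a + i, by rw [Nat.add_mul, Nat.one_mul]; omega, ?_⟩
        have : y' + (n * a) • g + z - (n * a + i) • g = y' + (z - i • g) := by
          rw [add_nsmul]; abel
        rw [this]
        exact K.add_mem (hs_mem K A₀ hA n y' hy') hzi
      · right
        refine ⟨y' + z', by rw [hs]; exact Finset.add_mem_add hy' hz', ?_⟩
        have : ((n + 1) * a) • g = (n * a) • g + a • g := by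
          rw [Nat.add_mul, Nat.one_mul, add_nsmul]
        rw [this]
        abel

theorem main (h : ℕ) : ∀ (d : ℕ) (L : AddSubgroup G), (fs L).card = d → ∀ m, 1 ≤ m →
    m ≤ (fs L).card → ∃ A : Finset G, (∀ x ∈ A, x ∈ L) ∧ A.card = m ∧
      (hs h A).card ≤ h * (m - 1) + 1 := by
  intro d
  induction d using Nat.strong_induction_on with
  | _ d ih =>
    intro L hL m hm hmL
    by_cases hbot : L = ⊥
    · have h1 : (fs L).card = 1 := by
        rw [hbot, Finset.card_eq_one]
        exact ⟨0, by ext x; simp [mem_fs]⟩
      have hm1 : m = 1 := by omega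
      subst hm1
      refine ⟨{0}, by simp [L.zero_mem], by simp, ?_⟩
      have h2 : ∀ n, hs n ({0} : Finset G) = {0} := by
        intro n
        induction n with
        | zero => rfl
        | succ n ihn => rw [hs, ihn]; simp
      rw [h2]
      simp
    · -- a maximal proper subgroup of `L`
      have hfin : Set.Finite {K : AddSubgroup G | K < L} := Set.toFinite _
      obtain ⟨K, hK, hmax⟩ := hfin.exists_maximal
        ⟨⊥, bot_lt_iff_ne_bot.2 hbot⟩
      have hKL : K < L := hK
      obtain ⟨g, hgL, hgK⟩ := SetLike.exists_of_lt hKL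
      have hsup : K ⊔ AddSubgroup.zmultiples g = L := by
        by_contra hne
        have h1 : K ⊔ AddSubgroup.zmultiples g ≤ L :=
          sup_le hKL.le (by rw [AddSubgroup.zmultiples_le]; exact hgL)
        have h2 : K ⊔ AddSubgroup.zmultiples g < L := lt_of_le_of_ne h1 hne
        have h3 := hmax (show K ⊔ AddSubgroup.zmultiples g ∈ {K : AddSubgroup G | K < L} from h2)
          (le_sup_left)
        exact hgK (h3 ((le_sup_right : AddSubgroup.zmultiples g ≤ K ⊔ AddSubgroup.zmultiples g)
          (AddSubgroup.mem_zmultiples g)))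
      have hex : ∃ j, 1 ≤ j ∧ j • g ∈ K :=
        ⟨addOrderOf g, addOrderOf_pos g, by rw [addOrderOf_nsmul_eq_zero]; exact K.zero_mem⟩
      classical
      obtain ⟨p, hpdef⟩ : ∃ p, p = Nat.find hex := ⟨_, rfl⟩
      have hp1 : 1 ≤ p := by rw [hpdef]; exact (Nat.find_spec hex).1
      have hp2 : p • g ∈ K := by rw [hpdef]; exact (Nat.find_spec hex).2
      have hp3 : ∀ j, 1 ≤ j → j < p → j • g ∉ K := by
        intro j h1 h2 h3
        rw [hpdef] at h2
        exact Nat.find_min hex h2 ⟨h1, h3⟩
      -- `L` is the union of the cosets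
      have hLT : fs L = T K g p := by
        ext x
        rw [mem_fs, mem_T]
        constructor
        · intro hx
          rw [← hsup, AddSubgroup.mem_sup] at hx
          obtain ⟨k, hk, z, hz, rfl⟩ := hx
          obtain ⟨c, rfl⟩ := AddSubgroup.mem_zmultiples_iff.1 hz
          have hpz : (0 : ℤ) < p := by exact_mod_cast hp1
          have h1 := Int.emod_nonneg c hpz.ne'
          have h2 := Int.emod_lt_of_pos c hpz
          refine ⟨(c % p).toNat, by omega, ?_⟩
          have h3 : ((c % p).toNat : ℤ) = c % p := Int.toNat_of_nonneg h1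
          have h4 : k + c • g - (c % p).toNat • g = k + (c / p) • (p • g) := by
            rw [← natCast_zsmul g (c % p).toNat, h3, ← natCast_zsmul g p, ← mul_zsmul,
              add_sub_assoc, ← sub_smul]
            congr 2
            have := Int.mul_ediv_add_emod c p
            linarith
          rw [h4]
          exact K.add_mem hk (K.zsmul_mem hp2 _)
        · rintro ⟨j, _, hx⟩
          have h1 : x = (x - j • g) + j • g := by abel
          rw [h1]
          exact L.add_mem (hKL.le hx) (L.nsmul_mem hgL j)
      have hLc : (fs L).card = p * (fs K).card := by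
        rw [hLT, card_T K g p hp3]
      have hKpos := fs_card_pos K
      have hKd : (fs K).card < d := by
        rw [← hL]
        exact Finset.card_lt_card ⟨fs_mono hKL.le, fun hh => hgK (mem_fs.1 (hh (mem_fs.2 hgL)))⟩
      -- the parts of `m`
      have hab := Nat.div_add_mod (m - 1) (fs K).card
      have hb := Nat.mod_lt (m - 1) hKpos
      set a := (m - 1) / (fs K).card with ha
      set b := (m - 1) % (fs K).card with hbdef
      have hap : a < p := by
        rw [ha, Nat.div_lt_iff_lt_mul hKpos]
        omega
      obtain ⟨A₀, hA₀, hA₀c, hA₀h⟩ := ih (fs K).card hKd K rfl (b + 1) (by omega) (by omega)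
      refine ⟨T K g a ∪ A₀.image (fun x => x + a • g), ?_, ?_, ?_⟩
      · intro x hx
        rw [mem_union, mem_T, mem_image] at hx
        rcases hx with ⟨j, _, hx⟩ | ⟨y, hy, rfl⟩
        · have h1 : x = (x - j • g) + j • g := by abel
          rw [h1]
          exact L.add_mem (hKL.le hx) (L.nsmul_mem hgL j)
        · exact L.add_mem (hKL.le (hA₀ y hy)) (L.nsmul_mem hgL a)
      · rw [card_union_of_disjoint, card_T K g a (fun j h1 h2 => hp3 j h1 (by omega)),
          card_image_of_injective _ (add_left_injective _), hA₀c]
        · have : a * (fs K).card = (fs K).card * a := Nat.mul_comm _ _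
          omega
        · rw [Finset.disjoint_left]
          intro x hx hx'
          obtain ⟨j, hj, hxj⟩ := mem_T.1 hx
          obtain ⟨y, hy, rfl⟩ := mem_image.1 hx'
          apply hp3 (a - j) (by omega) (by omega)
          have e1 : (a - j) • g = (y + a • g - j • g) - y := by
            have e2 : (a - j) • g + j • g = a • g := by
              rw [← add_nsmul, Nat.sub_add_cancel hj.le]
            rw [← e2]; abel
          rw [e1]
          exact K.sub_mem hxj (hA₀ y hy)
      · have h1 := Finset.card_le_card (hs_sub K g a A₀ hA₀ h)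
        have h2 := Finset.card_union_le (T K g (h * a))
          ((hs h A₀).image (fun x => x + (h * a) • g))
        have h3 := card_T_le K g (h * a)
        have h4 : ((hs h A₀).image (fun x => x + (h * a) • g)).card ≤ (hs h A₀).card :=
          card_image_le
        rw [Nat.add_sub_cancel] at hA₀h
        have h5 : h * (m - 1) = h * a * (fs K).card + h * b := by
          rw [← hab]; ring
        omega

end

/-- Module UPP. -/
theorem upp (_bas : StmBAS) (_hom : StmHOM) (_quo : StmQUO) : StmUPP := by
  intro G _ _ _ h m _ hm hmG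
  have h1 : (fs (⊤ : AddSubgroup G)).card = Fintype.card G := by
    rw [← Finset.card_univ]
    congr 1
    ext x
    simp [mem_fs]
  obtain ⟨A, -, h2, h3⟩ := main (G := G) h _ ⊤ rfl m hm (by rw [h1]; exact hmG)
  exact ⟨A, h2, h3⟩

end Pool.Agent.T6.H65.KP.ModUPP
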