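import Pool.Agent.T6.H65.KP.Defs

/-!
Project KP (helper65), module VOA (helper12): Vosper for Sidon-like sets.
-/

set_option autoImplicit false

open scoped Pointwise
open Finset
open Pool.Agent.Helper549.Kneser
open Pool.Agent.T6.H65.KP

namespace Pool.Agent.T6.H65.KP.ModVOA

theorem voa (ate : StmATE) (sid : StmSID) (scn : StmSCN) (ssb : StmSSB) : StmVOA := by
  intro G _ _ _ M S h0 hM h3 hcl hS hSM hSG
  obtain ⟨L, hL0, hL⟩ := ate G M S ⟨hS, hSG⟩
  have hfr := hL.1.2 S ⟨hS, hSG⟩
  have hLa := hL.1.1
  have hLM : (L + M).card + 1 ≤ L.card + M.card := by omega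
  rcases sid G M L hL0 hL with ⟨H, hH⟩ | hLs
  · have hHb : H ≠ ⊥ := by
      rintro rfl
      have h2 := hLa.1
      have : L.card ≤ 1 := by
        rw [hH]
        refine Finset.card_le_one.mpr fun x hx y hy => ?_
        rw [mem_fs, AddSubgroup.mem_bot] at hx hy
        rw [hx, hy]
      omega
    have hsub : M ⊆ fs H := by
      refine ssb G M H h0 hM hHb ?_
      rw [← hH, add_comm M L, add_comm M.card]
      exact hLM
    have hle : AddSubgroup.closure (M : Set G) ≤ H := by
      rw [AddSubgroup.closure_le]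
      intro x hx
      exact mem_fs.mp (hsub hx)
    rw [hcl, top_le_iff] at hle
    have hLu : L = Finset.univ := by
      rw [hH, hle]
      ext x
      simp [mem_fs]
    have h4 := hLa.2
    have h5 : L.card ≤ (L + M).card := Finset.card_le_card_add_right ⟨0, h0⟩
    rw [hLu, Finset.card_univ] at h5
    rw [hLu] at h4
    omega
  · have hcM := scn G M L hM
    have hcL := scn G L M hLs
    rw [add_comm M L] at hcL
    have h2 := hLa.1
    have h6 := hcM.1 h2
    have h7 := hcL.2 h3
    by_cases hL3 : 3 ≤ L.card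
    · have h8 := hcM.2 hL3
      omega
    · omega

end Pool.Agent.T6.H65.KP.ModVOA
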