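import Pool.Agent.T6.H65.KP.Defs

set_option autoImplicit false

open scoped Pointwise
open Finset
open Pool.Agent.Helper549.Kneser

namespace Pool.Agent.T6.H65.KP.ModFIN

theorem card_image_add {G : Type} [AddCommGroup G] [DecidableEq G] (A : Finset G) (c : G) :
    (A.image (fun x => x + c)).card = A.card :=
  Finset.card_image_of_injective _ (add_left_injective c)

theorem forward (bas : StmBAS) (skh : StmSKH) (quo : StmQUO) (low : StmLOW) (sta : StmSTA)
    (thr : StmTHR) (ext : StmEXT) (ref : StmREF)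
    (G : Type) [AddCommGroup G] [Fintype G] [DecidableEq G] (h : ℕ) (A : Finset G)
    (hh : 2 ≤ h) (hA : A.Nonempty) (hC : CondM (Fintype.card G) A.card h)
    (hs1 : (hs h A).card = h * (A.card - 1) + 1) :
    ∃ (H L : AddSubgroup G) (C : Set G) (c : G), Stair h H L C ∧ (∀ a ∈ A, a - c ∈ C) ∧
        h * C.ncard = h * A.card + (h - 1) * (Nat.card H - 1) := by
  classical
  obtain ⟨H, hH⟩ : ∃ H, H = stab (hs h A) := ⟨_, rfl⟩
  haveI : Fintype (G ⧸ H) := Fintype.ofFinite _
  obtain ⟨-, h2⟩ := low G h A hh hA hC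
  obtain ⟨e1, e2, e3, e4⟩ := h2 hs1 H hH
  set A' : Finset (G ⧸ H) := A.image (QuotientAddGroup.mk' H) with hA'
  have hA'ne : A'.Nonempty := hA.image _
  obtain ⟨a', ha'⟩ := ext (G ⧸ H) h A' hh hA'ne e4 e3 e2
  obtain ⟨b1, b2, b3, b4, b5, b6, b7, b8, b9, b10⟩ := bas (G ⧸ H)
  set B' : Finset (G ⧸ H) := A'.image (fun x => x + (-a')) with hB'
  have hE0 : Ext h B' 0 := by
    have := b8 h A' (-a') a' (by omega) ha'
    rwa [add_neg_cancel] at this
  have hBc : B'.card = A'.card := card_image_add _ _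
  have hBs : (hs h B').card = h * (B'.card - 1) + 1 := by
    rw [hB', b7, card_image_add, e2, ← hB', hBc]
  obtain ⟨-, s2⟩ := skh (G ⧸ H) h B' 0 (by omega) hE0
  have s3 := s2 hh hBs
  have hE2 : Ext 2 B' 0 := b9 h B' 0 hh hE0
  have st1 : Stair 2 ⊥ ⊤ (B' : Set (G ⧸ H)) := thr (G ⧸ H) B' hE2 s3
  have st2 : Stair h ⊥ ⊤ (B' : Set (G ⧸ H)) := by
    apply ref (G ⧸ H) h ⊤ _ hh st1
    intro f hf hsum i
    exact b10 h B' hE0 f (fun i => by simpa using hf i) hsum i
  have st3 := sta.2.1 G (G ⧸ H) (QuotientAddGroup.mk' H) h ⊥ ⊤ (B' : Set (G ⧸ H))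
    (QuotientAddGroup.mk'_surjective H) st2
  have hbot : (⊥ : AddSubgroup (G ⧸ H)).comap (QuotientAddGroup.mk' H) = H := by
    rw [AddMonoidHom.comap_bot, QuotientAddGroup.ker_mk']
  rw [hbot] at st3
  obtain ⟨c, hc⟩ := QuotientAddGroup.mk'_surjective H a'
  refine ⟨H, _, _, c, st3, ?_, ?_⟩
  · intro a ha
    rw [Set.mem_preimage, Finset.mem_coe, hB', Finset.mem_image]
    refine ⟨QuotientAddGroup.mk' H a, Finset.mem_image_of_mem _ ha, ?_⟩
    rw [map_sub, hc, sub_eq_add_neg]
  · have hset : (QuotientAddGroup.mk' H) ⁻¹' (B' : Set (G ⧸ H))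
        = (((A + fs H).image (fun x => x + (-c)) : Finset G) : Set G) := by
      ext x
      rw [Set.mem_preimage, Finset.mem_coe, Finset.mem_coe, hB', Finset.mem_image,
        Finset.mem_image]
      constructor
      · rintro ⟨y, hy, hyx⟩
        obtain ⟨a, ha, rfl⟩ := Finset.mem_image.mp hy
        refine ⟨x + c, ?_, by abel⟩
        rw [Finset.mem_add]
        refine ⟨a, ha, x + c - a, ?_, by abel⟩
        rw [mem_fs]
        rw [← hc, ← map_neg, ← map_add] at hyx
        have h3 := QuotientAddGroup.eq.mp hyx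
        have h4 : x + c - a = -(a + -c) + x := by abel
        rw [h4]; exact h3
      · rintro ⟨y, hy, rfl⟩
        obtain ⟨a, ha, k, hk, rfl⟩ := Finset.mem_add.mp hy
        refine ⟨QuotientAddGroup.mk' H a, Finset.mem_image_of_mem _ ha, ?_⟩
        rw [mem_fs] at hk
        have h5 : (QuotientAddGroup.mk' H) k = 0 := (QuotientAddGroup.eq_zero_iff k).mpr hk
        rw [map_add, map_add, h5, map_neg, hc, add_zero]
    rw [hset, Set.ncard_coe_finset, card_image_add]
    exact e1

theorem backward (bas : StmBAS) (low : StmLOW) (stc : StmSTC)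
    (G : Type) [AddCommGroup G] [Fintype G] [DecidableEq G] (h : ℕ) (A : Finset G)
    (hh : 2 ≤ h) (hA : A.Nonempty) (hC : CondM (Fintype.card G) A.card h)
    (H L : AddSubgroup G) (C : Set G) (c : G) (hst : Stair h H L C) (hAC : ∀ a ∈ A, a - c ∈ C)
    (hcard : h * C.ncard = h * A.card + (h - 1) * (Nat.card H - 1)) :
    (hs h A).card = h * (A.card - 1) + 1 := by
  classical
  obtain ⟨h1, -⟩ := low G h A hh hA hC
  obtain ⟨b1, b2, b3, b4, b5, b6, b7, b8, b9, b10⟩ := bas G
  set Cf : Finset G := (Set.toFinite C).toFinset with hCf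
  have hco : (Cf : Set G) = C := Set.Finite.coe_toFinset _
  have h2 := stc G h H L Cf (by omega) (by rw [hco]; exact hst)
  have h3 : C.ncard = Cf.card := by rw [← hco, Set.ncard_coe_finset]
  have h4 : A.image (fun x => x + (-c)) ⊆ Cf := by
    intro x hx
    obtain ⟨a, ha, rfl⟩ := Finset.mem_image.mp hx
    rw [← Finset.mem_coe, hco, ← sub_eq_add_neg]
    exact hAC a ha
  have h5 := Finset.card_le_card (b6 h _ _ h4)
  rw [b7, card_image_add] at h5
  have hHpos : 0 < Nat.card H := Nat.card_pos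
  have hApos : 0 < A.card := Finset.card_pos.mpr hA
  rw [h3] at hcard
  obtain ⟨n, hn⟩ : ∃ n, Nat.card H = n + 1 := ⟨Nat.card H - 1, by omega⟩
  obtain ⟨p, hp⟩ : ∃ p, A.card = p + 1 := ⟨A.card - 1, by omega⟩
  obtain ⟨q, rfl⟩ : ∃ q, h = q + 1 := ⟨h - 1, by omega⟩
  rw [hn] at hcard h2
  rw [hp] at hcard h1 ⊢
  simp only [Nat.add_sub_cancel] at hcard h1 h2 ⊢
  nlinarith

theorem fin (bas : StmBAS) (skh : StmSKH) (quo : StmQUO) (low : StmLOW) (rhoo : StmRHO)
    (sta : StmSTA) (thr : StmTHR) (ext : StmEXT) (ref : StmREF) (stc : StmSTC) : StmFIN := by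
  classical
  intro G _ _ m h hh hm hmn
  have hN : h * m - h + 1 = h * (m - 1) + 1 := by
    rw [Nat.mul_sub, mul_one]
  have hR := rhoo G h m hh hm hmn
  rw [hN]
  refine ⟨?_, ?_⟩
  · rw [hR, and_comm]
    rfl
  · rintro ⟨h1, h2⟩ A hA
    have hC : CondM (Fintype.card G) A.card h := by rw [hA]; exact hR.mp h1
    have hAne : A.Nonempty := Finset.card_pos.mp (by omega)
    rw [(bas G).1 h A]
    constructor
    · intro h3
      have := forward bas skh quo low sta thr ext ref G h A hh hAne hC (by rw [h3, hA])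
      rwa [hA] at this
    · rintro ⟨H, L, C, c, hst, hAC, hcard⟩
      have := backward bas low stc G h A hh hAne hC H L C c hst hAC (by rw [hcard, hA])
      rwa [hA] at this

end Pool.Agent.T6.H65.KP.ModFIN
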