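import Pool.Agent.T6.H65.KP.Defs

set_option autoImplicit false

open scoped Pointwise
open Finset
open Pool.Agent.Helper549.Kneser

namespace Pool.Agent.T6.H65.KP.ModREF

/-- the basic facts on staircases -/
theorem stair_basic {G : Type} [AddCommGroup G] {h : ℕ} {H L : AddSubgroup G} {C : Set G}
    (hs : Stair h H L C) : (0 : G) ∈ C := by
  induction hs with
  | base => exact H.zero_mem
  | grow _ _ ih => exact ih
  | prog g l _ _ ih => exact Or.inl ih
  | half _ _ _ _ _ _ ih => exact Or.inl ih

theorem sum_min (l j : ℕ) : ∀ n : ℕ, ∑ i ∈ range n, min l (j - i * l) = min j (n * l) := by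
  intro n
  induction n with
  | zero => simp
  | succ n ih =>
    rw [sum_range_succ, ih]
    have e : (n + 1) * l = n * l + l := by ring
    rw [e]
    omega

theorem ref : StmREF := by
  intro G _ _ h L C hh hst hU
  induction hst with
  | base => exact Stair.base
  | grow _ hKL ih => exact Stair.grow (ih hU) hKL
  | @prog K C g l hst hg ih =>
    have h0 : (0 : G) ∈ C := stair_basic hst
    have hS := ih (fun f hf hs => hU f (fun i => Or.inl (hf i)) hs)
    refine Stair.prog g l hS ?_
    intro j hj1 hj2 hjK
    have hl : 1 ≤ l := by
      by_contra hl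
      have : l = 0 := by omega
      rw [this, mul_zero] at hj2
      omega
    obtain ⟨n, rfl⟩ : ∃ n, h = n + 1 := ⟨h - 1, by omega⟩
    -- the summands
    let a : ℕ → ℕ := fun i => min l (j - i * l)
    have hsum : ∑ i ∈ range (n + 1), a i = j := by
      rw [sum_min]
      exact min_eq_left hj2
    have ha0 : a 0 = min l j := by simp [a]
    let f : Fin (n + 1) → G := Fin.cons (a 0 • g - j • g) (fun i : Fin n => a (i + 1) • g)
    have hf : ∀ i, f i ∈ C ∪ {x | ∃ j : ℕ, 1 ≤ j ∧ j ≤ l ∧ x - j • g ∈ K} := by
      intro i
      refine Fin.cases ?_ (fun i => ?_) i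
      · right
        refine ⟨a 0, by rw [ha0]; omega, by rw [ha0]; omega, ?_⟩
        simp only [f, Fin.cons_zero]
        have : a 0 • g - j • g - a 0 • g = -(j • g) := by abel
        rw [this]
        exact K.neg_mem hjK
      · simp only [f, Fin.cons_succ]
        by_cases h1 : a (i + 1) = 0
        · left
          rw [h1, zero_smul]
          exact h0
        · right
          refine ⟨a (i + 1), by omega, min_le_left _ _, ?_⟩
          rw [sub_self]
          exact K.zero_mem
    have hfs : ∑ i, f i = 0 := by
      rw [Fin.sum_univ_succ]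
      simp only [f, Fin.cons_zero, Fin.cons_succ]
      have e1 : ∑ i : Fin n, a ((i : ℕ) + 1) • g = (∑ i ∈ range n, a (i + 1)) • g := by
        rw [Fin.sum_univ_eq_sum_range (fun i => a (i + 1) • g) n, ← sum_nsmul_assoc]
      rw [e1]
      rw [sum_range_succ'] at hsum
      have e2 : (∑ i ∈ range n, a (i + 1)) • g + a 0 • g = j • g := by
        rw [← add_nsmul, hsum]
      rw [← e2]
      abel
    have hz := hU f hf hfs 0
    simp only [f, Fin.cons_zero] at hz
    have hz2 : a 0 • g ∈ K := by
      have : a 0 • g = j • g := sub_eq_zero.mp hz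
      rw [this]; exact hjK
    refine hg (a 0) (by rw [ha0]; omega) ?_ hz2
    rw [ha0]
    have := min_le_left l j
    omega
  | @half K L C T _ hst hKL hT1 hT2 hT3 ih =>
    have h0 : (0 : G) ∈ C := stair_basic hst
    have hS := ih (fun f hf hs => hU f (fun i => Or.inl (hf i)) hs)
    by_cases h2 : h = 2
    · exact Stair.half h2 hS hKL hT1 hT2 hT3
    obtain ⟨n, rfl⟩ : ∃ n, h = n + 3 := ⟨h - 3, by omega⟩
    rcases Set.eq_empty_or_nonempty T with hT | ⟨t, ht⟩
    · rw [hT, Set.union_empty]
      exact Stair.grow hS hKL
    exfalso
    obtain ⟨htL, htK⟩ := hT1 t ht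
    have key : ∀ j : ℕ, 1 ≤ j → j • t ∉ K → j • t ∈ T := by
      intro j hj
      induction j, hj using Nat.le_induction with
      | base => intro _; rwa [one_smul]
      | succ j hj ihj =>
        intro hjK
        by_cases h1 : j • t ∈ K
        · have := hT2 t ht _ h1
          rwa [succ_nsmul, add_comm]
        · have hjT := ihj h1
          by_contra hnT
          have hL : (j + 1) • t ∈ L := L.nsmul_mem htL _
          have hneg : -((j + 1) • t) ∈ T := by
            by_contra hc
            exact hnT ((hT3 _ hL hjK).mpr hc)
          let f : Fin (n + 3) → G :=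
            Fin.cons t (Fin.cons (j • t) (Fin.cons (-((j + 1) • t)) (fun _ : Fin n => 0)))
          have hf : ∀ i, f i ∈ C ∪ T := by
            intro i
            refine Fin.cases ?_ (fun i => Fin.cases ?_ (fun i => Fin.cases ?_ (fun i => ?_) i) i) i
            · exact Or.inr ht
            · exact Or.inr hjT
            · exact Or.inr hneg
            · exact Or.inl h0
          have hfs : ∑ i, f i = 0 := by
            simp only [f, Fin.sum_univ_succ, Fin.cons_zero, Fin.cons_succ, sum_const_zero, add_zero]
            rw [succ_nsmul]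
            abel
          have hz := hU f hf hfs 0
          simp only [f, Fin.cons_zero] at hz
          apply htK
          rw [hz]
          exact K.zero_mem
    have ht0 : t ≠ 0 := by
      rintro rfl
      exact htK K.zero_mem
    have ho : 0 < addOrderOf t := addOrderOf_pos t
    have ho1 : addOrderOf t ≠ 1 := fun h => ht0 (AddMonoid.addOrderOf_eq_one_iff.mp h)
    have hneg : (addOrderOf t - 1) • t = -t := by
      have h1 : (addOrderOf t - 1 + 1) • t = 0 := by
        rw [Nat.sub_add_cancel ho]
        exact addOrderOf_nsmul_eq_zero t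
      rw [succ_nsmul] at h1
      exact eq_neg_of_add_eq_zero_left h1
    have h5 := key (addOrderOf t - 1) (by omega) (by
      rw [hneg]
      intro h
      apply htK
      have := K.neg_mem h
      rwa [neg_neg] at this)
    rw [hneg] at h5
    exact (hT3 t htL htK).mp ht h5

end Pool.Agent.T6.H65.KP.ModREF
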