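import Pool.Agent.T6.H65.KP.Defs

/-!
# Project KP: slices of a set along the cosets of a subgroup (common part of SLU and SLA)
-/

set_option autoImplicit false
set_option linter.unusedSectionVars false
set_option linter.unusedVariables false

open scoped Pointwise
open Finset
open Pool.Agent.Helper549.Kneser

namespace Pool.Agent.T6.H65.KP.SLCommon

variable {G : Type} [AddCommGroup G] [Fintype G] [DecidableEq G]

open Classical in
/-- the slice of `A` in the coset `x + H` -/
noncomputable def sl (A : Finset G) (H : AddSubgroup G) (x : G) : Finset G :=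
  A.filter fun y => y - x ∈ H

open Classical in
/-- the coset `x + H` -/
noncomputable def co (H : AddSubgroup G) (x : G) : Finset G :=
  Finset.univ.filter fun y => y - x ∈ H

variable {A : Finset G} {H : AddSubgroup G} {x y z : G}

theorem mem_sl : y ∈ sl A H x ↔ y ∈ A ∧ y - x ∈ H := by
  simp [sl]

theorem mem_co : y ∈ co H x ↔ y - x ∈ H := by
  unfold co
  simp

theorem card_co (H : AddSubgroup G) (x : G) : (co H x).card = (fs H).card := by
  have : co H x = (fs H).image fun k => x + k := by
    ext y
    rw [mem_co, Finset.mem_image]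
    constructor
    · intro h
      exact ⟨y - x, mem_fs.2 h, by abel⟩
    · rintro ⟨k, hk, rfl⟩
      rw [add_sub_cancel_left]
      exact mem_fs.1 hk
  rw [this, Finset.card_image_of_injective _ (add_right_injective x)]

theorem sl_sub_co : sl A H x ⊆ co H x := fun y hy => mem_co.2 (mem_sl.1 hy).2

theorem co_sub (hx : x ∈ A) : co H x ⊆ A + fs H := by
  intro y hy
  rw [mem_co] at hy
  rw [Finset.mem_add]
  exact ⟨x, hx, y - x, mem_fs.2 hy, by abel⟩

theorem sub_add (A : Finset G) (H : AddSubgroup G) : A ⊆ A + fs H := by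
  intro y hy
  rw [Finset.mem_add]
  exact ⟨y, hy, 0, mem_fs.2 H.zero_mem, add_zero y⟩

/-- two different slices have many elements -/
theorem holes (hA : (A + fs H).card + 1 ≤ A.card + (fs H).card) (hx : x ∈ A) (hy : y ∈ A)
    (hxy : x - y ∉ H) : (fs H).card + 1 ≤ (sl A H x).card + (sl A H y).card := by
  have hd : Disjoint (co H x) (co H y) := by
    rw [Finset.disjoint_left]
    intro u hu hv
    apply hxy
    have := H.sub_mem (mem_co.1 hv) (mem_co.1 hu)
    have e : u - y - (u - x) = x - y := by abel
    rwa [e] at this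
  have h1 := Finset.card_union_add_card_inter A (co H x ∪ co H y)
  rw [Finset.card_union_of_disjoint hd, card_co, card_co] at h1
  have h2 : (A ∪ (co H x ∪ co H y)).card ≤ (A + fs H).card :=
    Finset.card_le_card (Finset.union_subset (sub_add A H)
      (Finset.union_subset (co_sub hx) (co_sub hy)))
  have h3 : (A ∩ (co H x ∪ co H y)).card ≤ (sl A H x).card + (sl A H y).card := by
    refine (Finset.card_le_card ?_).trans (Finset.card_union_le _ _)
    intro u hu
    rw [Finset.mem_inter, Finset.mem_union] at hu
    rw [Finset.mem_union]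
    rcases hu with ⟨ha, h | h⟩
    · exact Or.inl (mem_sl.2 ⟨ha, mem_co.1 h⟩)
    · exact Or.inr (mem_sl.2 ⟨ha, mem_co.1 h⟩)
  omega

/-- pigeonhole -/
theorem pig (h : (fs H).card + 1 ≤ (sl A H x).card + (sl A H y).card) (hz : z - x - y ∈ H) :
    ∃ u ∈ A, ∃ v ∈ A, u - x ∈ H ∧ v - y ∈ H ∧ u + v = z := by
  by_contra hcon
  push Not at hcon
  have hd : Disjoint (sl A H x) ((sl A H y).image fun v => z - v) := by
    rw [Finset.disjoint_left]
    intro u hu hu'
    obtain ⟨v, hv, hvu⟩ := Finset.mem_image.1 hu'
    obtain ⟨u1, u2⟩ := mem_sl.1 hu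
    obtain ⟨v1, v2⟩ := mem_sl.1 hv
    exact hcon u u1 v v1 u2 v2 (by rw [← hvu]; abel)
  have h1 : (sl A H x ∪ (sl A H y).image fun v => z - v).card ≤ (co H x).card := by
    refine Finset.card_le_card (Finset.union_subset sl_sub_co ?_)
    intro u hu
    obtain ⟨v, hv, hvu⟩ := Finset.mem_image.1 hu
    rw [mem_co, ← hvu]
    have := H.sub_mem hz (mem_sl.1 hv).2
    have e : z - x - y - (v - y) = z - v - x := by abel
    rwa [e] at this
  rw [Finset.card_union_of_disjoint hd, card_co, Finset.card_image_of_injective _
    (sub_right_injective)] at h1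
  omega

end Pool.Agent.T6.H65.KP.SLCommon
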