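import Pool.Agent.T6.H65.KP.Defs

/-!
# Project KP, module VOS: Vosper type alternative for sets of small doubling
-/

set_option autoImplicit false

open scoped Pointwise
open Finset
open Pool.Agent.Helper549.Kneser

namespace Pool.Agent.T6.H65.KP.ModVOS

theorem vos (ate : StmATE) (att : StmATT) (prg : StmPRG) : StmVOS := by
  intro G _ _ _ A h0 h2 hd hs
  obtain ⟨M, hM0, hM⟩ := ate G A A ⟨h2, hs⟩
  have hf := hM.1.2 A ⟨h2, hs⟩
  have hadm := hM.1.1
  have hA : A.Nonempty := ⟨0, h0⟩
  have hMA : (M + A).card + 1 ≤ M.card + A.card := by omega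
  rcases att G A M hA hM0 hM hMA with hc | ⟨H, rfl⟩
  · obtain ⟨g, hg, hMg⟩ : ∃ g : G, g ≠ 0 ∧ M = {0, g} := by
      obtain ⟨x, y, hxy, rfl⟩ := Finset.card_eq_two.1 hc
      rw [Finset.mem_insert, Finset.mem_singleton] at hM0
      rcases hM0 with h | h
      · subst h
        exact ⟨y, hxy.symm, rfl⟩
      · subst h
        exact ⟨x, hxy, Finset.pair_comm x 0⟩
    have h3 : (A + {0, g}).card ≤ A.card + 1 := by
      rw [← hMg, add_comm A M]
      omega
    obtain ⟨p1, p2⟩ := prg G A g hA hg h3
    by_cases ht : AddSubgroup.zmultiples g = ⊤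
    · left
      refine p2 ht ?_
      intro hu
      have h4 : A ⊆ A + A := fun x hx => Finset.mem_add.2 ⟨x, hx, 0, h0, add_zero x⟩
      have h5 := Finset.card_le_card h4
      rw [hu, Finset.card_univ] at h5
      rw [hu] at hs
      omega
    · right
      refine ⟨AddSubgroup.zmultiples g, ?_, ht, p1⟩
      intro hb
      exact hg (AddSubgroup.zmultiples_eq_bot.1 hb)
  · right
    refine ⟨H, ?_, ?_, ?_⟩
    · rintro rfl
      have h3 : (fs (⊥ : AddSubgroup G)).card = 1 := by
        rw [Finset.card_eq_one]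
        exact ⟨0, by ext x; simp [mem_fs]⟩
      have := hadm.1
      omega
    · rintro rfl
      have h3 : fs (⊤ : AddSubgroup G) + A = Finset.univ := by
        ext x
        simp only [Finset.mem_univ, iff_true]
        exact Finset.mem_add.2 ⟨x, mem_fs.2 (AddSubgroup.mem_top x), 0, h0, add_zero x⟩
      have := hadm.2
      rw [h3, Finset.card_univ] at this
      omega
    · rw [add_comm A (fs H)]
      omega

end Pool.Agent.T6.H65.KP.ModVOS
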